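import Pool.Agent.H.MP_e23cd6_ag.KX.Defs
import Pool.Agent.H.MP_e23cd6_ag.PB.GAsm

/-!
# Products of sections, and the fibres of the map given by the sections
-/

set_option autoImplicit false

open Matrix Pool.Agent.PG Pool.Agent.SG Topology

namespace Pool.Agent.KX

section sec

variable {n : ℕ} {R : RG n} {EF : Type} [NormedAddCommGroup EF] [NormedSpace ℂ EF] {F : Type}
  [TopologicalSpace F] {κ ι : Type} [Fintype κ] [DecidableEq κ] [Fintype ι] [DecidableEq ι] {m : ℕ}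
  {Φ : Fib R EF F κ ι m} {Z : Type} [TopologicalSpace Z] {O : CSp Z} {I : Type}

/-- The product of two sections. -/
def mulZ {X : Bun Φ O I} {c c' : I → I → Z → ℂ} (s : SecZ X c) (s' : SecZ X c') :
    SecZ X (fun i j z => c i j z * c' i j z) where
  f := fun i z => s.f i z * s'.f i z
  hol := fun i => O.mul _ _ (s.hol i) _ (s'.hol i)
  glue := fun i j z hz => by
    rw [s.glue i j z hz, s'.glue i j z hz]
    ring

/-- A power of a section. -/
def powZ {X : Bun Φ O I} {c : I → I → Z → ℂ} (s : SecZ X c) (q : ℕ) :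
    SecZ X (fun i j z => c i j z ^ q) where
  f := fun i z => s.f i z ^ q
  hol := fun i => O.pow_mem (s.hol i) q
  glue := fun i j z hz => by
    rw [s.glue i j z hz, mul_pow]

/-- A section, as a section of a line bundle with the same transition functions. -/
def castZ {X : Bun Φ O I} {c : I → I → Z → ℂ} (s : SecZ X c) (c' : I → I → Z → ℂ)
    (h : ∀ i j, ∀ z ∈ X.U i ∩ X.U j, c i j z = c' i j z) : SecZ X c' where
  f := s.f
  hol := s.hol
  glue := fun i j z hz => by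
    rw [s.glue i j z hz, h i j z hz]

/-- Invariants of the vectors `u i z x` give sections on `X`, with a formula. -/
theorem assemble_eq (X : Bun Φ O I) {τ : Type} [Fintype τ] [DecidableEq τ] {V : GRep R τ} {d M : ℕ}
    {P : MvPolynomial τ ℂ} (hP : V.Inv M P) {u : I → Z → (κ → ℂ) → τ → ℂ}
    (hu : ∀ i p, HF O (X.U i) d (fun z x => u i z x p)) {w : I → I → Z → ℂ}
    (hw : ∀ i j, ∀ z ∈ X.U i ∩ X.U j, ∀ j', ∀ y ∈ Φ.W j',
      u i z (Φ.RN.ρ (X.γ i j z) *ᵥ Φ.v j' y) = w i j z • V.act (X.γ i j z) (u j z (Φ.v j' y)))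
    {c' : I → I → Z → ℂ} (k : SecZ X c') (q : ℕ) {D : ℕ} (hD : d * M * q = D)
    {b : I → I → Z → ℂ} (hb : ∀ i j, ∀ z ∈ X.U i ∩ X.U j,
      c' i j z * w i j z ^ (M * q) = b i j z) :
    ∃ T : SecN X D b, ∀ i, ∀ z ∈ X.U i, ∀ x,
      tp (T.T i z) x = k.f i z * MvPolynomial.eval (u i z x) P ^ q := by
  have hT : ∀ i', ∃ T : (Fin D → κ) → Z → ℂ,
      (∀ α, T α ∈ O.O (X.U i')) ∧
      ∀ z' ∈ X.U i', ∀ x : κ → ℂ,
        k.f i' z' * MvPolynomial.eval (u i' z' x) P ^ q = ∑ α, T α z' * ∏ t, x (α t) := by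
    intro i'
    have h2 := (HF.evalP hP.hom (hu i')).pow q
    have h3 := (HF.smul (k.hol i') h2).cast (m := D) hD
    exact h3
  choose T hTh hTe using hT
  have htp : ∀ i', ∀ z' ∈ X.U i', ∀ x : κ → ℂ, tp (fun α => T i' α z') x =
      k.f i' z' * MvPolynomial.eval (u i' z' x) P ^ q :=
    fun i' z' hz' x => (hTe i' z' hz' x).symm
  refine ⟨⟨fun i' z' α => T i' α z', fun i' α => hTh i' α, ?_⟩, htp⟩
  intro i' j' z' hz' j'' y' hy'
  rw [htp i' z' hz'.1, htp j' z' hz'.2, hw i' j' z' hz' j'' y' hy', eval_smul_hom hP.hom, hP.inv,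
    k.glue i' j' z' hz', ← hb i' j' z' hz', mul_pow, ← pow_mul]
  ring

end sec

/-- Two functions which are equal on `S` are equal on its closure, where they are continuous. -/
theorem eq_of_closure {A : Type} [TopologicalSpace A] {f g : A → ℂ} {W S : Set A} (hW : IsOpen W)
    (hf : ContinuousOn f W) (hg : ContinuousOn g W) (h : ∀ x ∈ S, x ∈ W → f x = g x) {x : A}
    (hx : x ∈ closure S) (hxW : x ∈ W) : f x = g x := by
  have h1 : x ∈ closure (W ∩ S) := hW.inter_closure ⟨hxW, hx⟩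
  have h2 : (𝓝[W ∩ S] x).NeBot := mem_closure_iff_nhdsWithin_neBot.1 h1
  have h3 : Filter.Tendsto f (𝓝[W ∩ S] x) (𝓝 (f x)) :=
    (hf x hxW).mono_left (nhdsWithin_mono x Set.inter_subset_left)
  have h4 : Filter.Tendsto g (𝓝[W ∩ S] x) (𝓝 (g x)) :=
    (hg x hxW).mono_left (nhdsWithin_mono x Set.inter_subset_left)
  refine tendsto_nhds_unique_of_eventuallyEq h3 h4 ?_
  filter_upwards [self_mem_nhdsWithin] with y hy
  exact h y hy.2 hy.1

variable {n : ℕ} {R : RG n} {EF : Type} [NormedAddCommGroup EF] [NormedSpace ℂ EF] {F : Type}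
  [TopologicalSpace F] {κ ι : Type} [Fintype κ] [DecidableEq κ] [Fintype ι] [DecidableEq ι] {m : ℕ}
  {Φ : Fib R EF F κ ι m} {EZ : Type} [NormedAddCommGroup EZ] [NormedSpace ℂ EZ]
  {Z : Type} [TopologicalSpace Z] {O : ZSp EZ Z} {I : Type}

theorem tp_contOn {X : Bun Φ O.toCSp I} {q : ℕ} {b : I → I → Z → ℂ} (T : SecN X q b) (i : I)
    (j : Φ.J) : ContinuousOn (fun x : Z × F => tp (T.T i x.1) (Φ.v j x.2)) (X.U i ×ˢ Φ.W j) := by
  unfold tp
  refine continuousOn_finsetSum _ fun α _ => ContinuousOn.mul ?_ ?_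
  · exact (O.cont _ (X.U_open i) _ (T.hol i α)).comp continuousOn_fst fun x hx => hx.1
  · refine continuousOn_finsetProd _ fun t _ => ?_
    have h1 : ContinuousOn (fun y => Φ.v j y (α t)) (Φ.W j) :=
      (continuous_apply (α t)).comp_continuousOn (Φ.v_cont j)
    exact h1.comp continuousOn_snd fun x hx => hx.2

theorem abundant_core (X : Bun Φ O.toCSp I) (b : I → I → Z → ℂ) {Q : ℕ} (hQ : 1 ≤ Q) {p a : ℕ}
    (TT : Fin p → Option (Fin a) → SecN X Q (fun i j z => b i j z ^ Q))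
    (ψ : Fin p → I → Z → (κ → ℂ) → ℂ) (E : Option (Fin a) → I → Z → ℂ) (kk : I → Z → ℂ) {N m' : ℕ}
    (hm' : 1 ≤ m')
    (hT : ∀ l e i, ∀ z ∈ X.U i, ∀ x, tp ((TT l e).T i z) x = ψ l i z x ^ N * E e i z ^ m' * kk i z)
    (hE : ∀ i, ∀ z ∈ X.U i, ∃ j, E (some j) i z ≠ 0)
    (hc : ∀ e i, ContinuousOn (E e i) (X.U i))
    (hB : ∀ i, ∀ z ∈ X.U i, E none i z ≠ 0 → kk i z ≠ 0 ∧ ∀ x ≠ 0, ∃ l, ψ l i z x ≠ 0)
    (hBt : ∀ i j, ∀ z ∈ X.U i ∩ X.U j, E none i z ≠ 0 → E none j z ≠ 0)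
    {z₀ : Z} (hne : ∃ i, z₀ ∈ X.U i ∧ E none i z₀ ≠ 0) : AbunAt X b z₀ := by
  obtain ⟨K, e, T', hT'⟩ : ∃ (K : ℕ) (e : Fin p → Option (Fin a) → Fin K)
      (T' : Fin K → SecN X Q (fun i j z => b i j z ^ Q)), ∀ l t, T' (e l t) = TT l t := by
    obtain ⟨e⟩ : Nonempty (Fin (Fintype.card (Fin p × Option (Fin a))) ≃
      Fin p × Option (Fin a)) := ⟨(Fintype.equivFin _).symm⟩
    refine ⟨_, fun l t => e.symm (l, t), fun l => TT (e l).1 (e l).2, fun l t => ?_⟩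
    beta_reduce
    rw [Equiv.apply_symm_apply]
  have hval : ∀ l t i, ∀ z ∈ X.U i, ∀ x, tp ((T' (e l t)).T i z) x =
      ψ l i z x ^ N * E t i z ^ m' * kk i z := by
    intro l t i z hz x
    rw [hT']
    exact hT l t i z hz x
  refine ⟨Q, hQ, K, T', {z | ∃ i, z ∈ X.U i ∧ E none i z ≠ 0}, ?_, ?_, ?_⟩
  · rw [isOpen_iff_mem_nhds]
    rintro z ⟨i, hz, hz0⟩
    have h1 : ∀ᶠ w in 𝓝[X.U i] z, E none i w ≠ 0 := (hc none i z hz).eventually_ne hz0
    rw [(X.U_open i).nhdsWithin_eq hz] at h1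
    filter_upwards [h1, (X.U_open i).mem_nhds hz] with w hw hw'
    exact ⟨i, hw', hw⟩
  · exact hne
  · rintro i z ⟨hz, i₀, hz₀, hzB₀⟩ j y hy
    have hzB : E none i z ≠ 0 := hBt i₀ i z ⟨hz₀, hz⟩ hzB₀
    obtain ⟨hk, hψ⟩ := hB i z hz hzB
    obtain ⟨l₀, hl₀⟩ := hψ _ (Φ.v_ne j y hy)
    have hne0 : tp ((T' (e l₀ none)).T i z) (Φ.v j y) ≠ 0 := by
      rw [hval _ _ i z hz]
      exact mul_ne_zero (mul_ne_zero (pow_ne_zero _ hl₀) (pow_ne_zero _ hzB)) hk
    refine ⟨⟨_, hne0⟩, ?_⟩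
    intro i' x' hx' hx'U
    -- the equations hold at `x'`
    have heq : ∀ j', x'.2 ∈ Φ.W j' → ∀ l l', tp ((T' l).T i' x'.1) (Φ.v j' x'.2) *
        tp ((T' l').T i z) (Φ.v j y) =
        tp ((T' l').T i' x'.1) (Φ.v j' x'.2) * tp ((T' l).T i z) (Φ.v j y) := by
      intro j' hj' l l'
      have hcon : ∀ l l', ContinuousOn (fun x : Z × F => tp ((T' l).T i' x.1) (Φ.v j' x.2) *
          tp ((T' l').T i z) (Φ.v j y)) (X.U i' ×ˢ Φ.W j') := fun l l' =>
        (tp_contOn (T' l) i' j').mul continuousOn_const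
      refine eq_of_closure ((X.U_open i').prod (Φ.W_open j')) (hcon l l') (hcon l' l) ?_ hx'
        ⟨hx'U, hj'⟩
      intro x hx hxW
      exact ((hx : InFib T' i z j y i' x).2 j' hxW.2).2 l l'
    -- the equations for the sections on `Z`
    have hEq : ∀ t, E (some t) i' x'.1 ^ m' * E none i z ^ m' =
        E none i' x'.1 ^ m' * E (some t) i z ^ m' := by
      intro t
      obtain ⟨j', hj'⟩ := Φ.cover x'.2
      have hcon : ∀ t t', ContinuousOn (fun x : Z × F => E t i' x.1 ^ m' * E t' i z ^ m')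
          (X.U i' ×ˢ Φ.W j') := fun t t' =>
        (((hc t i').comp continuousOn_fst fun x hx => hx.1).pow m').mul continuousOn_const
      refine eq_of_closure ((X.U_open i').prod (Φ.W_open j')) (hcon (some t) none)
        (hcon none (some t)) ?_ hx' ⟨hx'U, hj'⟩
      intro x hx hxW
      obtain ⟨⟨l, hl⟩, h2⟩ := (hx : InFib T' i z j y i' x).2 j' hxW.2
      have h3 := h2 l (e l₀ none)
      have h4 := h2 (e l₀ (some t)) (e l₀ none)
      have h5 : tp ((T' (e l₀ none)).T i' x.1) (Φ.v j' x.2) ≠ 0 := by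
        intro h0
        rw [h0, zero_mul] at h3
        exact mul_ne_zero hl hne0 h3
      rw [hval _ _ i' x.1 hxW.1] at h5
      rw [hval _ _ i z hz] at hne0
      rw [hval _ _ i' x.1 hxW.1, hval _ _ i z hz, hval _ _ i' x.1 hxW.1, hval _ _ i z hz] at h4
      have h6 := left_ne_zero_of_mul (left_ne_zero_of_mul h5)
      have h7 := right_ne_zero_of_mul h5
      have h8 := left_ne_zero_of_mul (left_ne_zero_of_mul hne0)
      have h9 := right_ne_zero_of_mul hne0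
      have h10 : (ψ l₀ i' x.1 (Φ.v j' x.2) ^ N * kk i' x.1 * (ψ l₀ i z (Φ.v j y) ^ N * kk i z)) *
          (E (some t) i' x.1 ^ m' * E none i z ^ m') =
          (ψ l₀ i' x.1 (Φ.v j' x.2) ^ N * kk i' x.1 * (ψ l₀ i z (Φ.v j y) ^ N * kk i z)) *
          (E none i' x.1 ^ m' * E (some t) i z ^ m') := by
        linear_combination h4
      exact mul_left_cancel₀ (mul_ne_zero (mul_ne_zero h6 h7) (mul_ne_zero h8 h9)) h10
    have hB' : E none i' x'.1 ≠ 0 := by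
      intro h0
      obtain ⟨t, ht⟩ := hE i' x'.1 hx'U
      have h1 := hEq t
      rw [h0, zero_pow (by omega), zero_mul] at h1
      exact mul_ne_zero (pow_ne_zero _ ht) (pow_ne_zero _ hzB) h1
    obtain ⟨hk', hψ'⟩ := hB i' x'.1 hx'U hB'
    refine ⟨hx'U, fun j' hj' => ⟨?_, heq j' hj'⟩⟩
    obtain ⟨l₁, hl₁⟩ := hψ' _ (Φ.v_ne j' x'.2 hj')
    refine ⟨e l₁ none, ?_⟩
    rw [hval _ _ i' x'.1 hx'U]
    exact mul_ne_zero (mul_ne_zero (pow_ne_zero _ hl₁) (pow_ne_zero _ hB')) hk'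

end Pool.Agent.KX
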