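import Pool.Agent.H.MP_e23cd6_ag.PB.DefsG

/-!
MP_e23cd6_ag (abundance), klt pairs on the total space of a fibre bundle with a reductive structure
group: the definitions.
-/

set_option autoImplicit false

open scoped Manifold ContDiff
open MeasureTheory Matrix Pool.Agent.PG

namespace Pool.Agent.KX

/-- A normal complex space `Z` of pure dimension `dim EZ`: the sheaf `O` of holomorphic functions, which are
continuous, and the charts `ψ r` of the regular part, a dense open subset. -/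
structure ZSp (EZ : Type) [NormedAddCommGroup EZ] [NormedSpace ℂ EZ] (Z : Type)
    [TopologicalSpace Z] extends CSp Z where
  Y : Type
  ψ : Y → OpenPartialHomeomorph Z EZ
  dense : ∀ U : Set Z, IsOpen U → U.Nonempty → ∃ r, (U ∩ (ψ r).source).Nonempty
  cont : ∀ U, IsOpen U → ∀ f ∈ O U, ContinuousOn f U
  hol : ∀ U, IsOpen U → ∀ f ∈ O U, ∀ r,
    DifferentiableOn ℂ (f ∘ (ψ r).symm) ((ψ r).target ∩ (ψ r).symm ⁻¹' U)
  chg : ∀ r r', DifferentiableOn ℂ (ψ r' ∘ (ψ r).symm)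
    ((ψ r).target ∩ (ψ r).symm ⁻¹' (ψ r').source)

variable {n : ℕ} {R : RG n} {EF : Type} [NormedAddCommGroup EF] [NormedSpace ℂ EF] {F : Type}
  [TopologicalSpace F] {κ ι : Type} [Fintype κ] [DecidableEq κ] [Fintype ι] [DecidableEq ι] {m : ℕ}
  {Φ : Fib R EF F κ ι m} {EZ : Type} [NormedAddCommGroup EZ] [NormedSpace ℂ EZ]
  {Z : Type} [TopologicalSpace Z] {O : ZSp EZ Z} {I : Type}

/-- The line bundle `C` on `Z` with the transition functions `c` is `K_Z ^ m`: on the regular part,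
the frame `i` of `C` is `u i r • (dx₁ ∧ … ∧ dx_d) ^ m` in the chart `ψ r`. -/
structure Can (X : Bun Φ O.toCSp I) (m : ℕ) (c : I → I → Z → ℂ) where
  u : I → O.Y → Z → ℂ
  ne : ∀ i r, ∀ z ∈ X.U i ∩ (O.ψ r).source, u i r z ≠ 0
  hol : ∀ i r, DifferentiableOn ℂ (u i r ∘ (O.ψ r).symm)
    ((O.ψ r).target ∩ (O.ψ r).symm ⁻¹' X.U i)
  frame : ∀ i j r, ∀ z ∈ X.U i ∩ X.U j ∩ (O.ψ r).source, u j r z = c i j z * u i r z
  chart : ∀ i r r', ∀ z ∈ X.U i ∩ (O.ψ r).source ∩ (O.ψ r').source,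
    u i r z = u i r' z * (fderiv ℂ (O.ψ r' ∘ (O.ψ r).symm) (O.ψ r z)).det ^ m

/-- `(r, B)` are countably many measurable pieces of charts of `Z`, over the open set `U i`, which cover the
regular part of `V`. -/
def PcZ (X : Bun Φ O.toCSp I) [MeasurableSpace EZ] (i : I) (V : Set Z) (r : ℕ → O.Y)
    (B : ℕ → Set EZ) : Prop :=
  (∀ l, MeasurableSet (B l) ∧ B l ⊆ (O.ψ (r l)).target ∩ (O.ψ (r l)).symm ⁻¹' X.U i) ∧
    ∀ r', ∀ z ∈ V ∩ (O.ψ r').source, ∃ l, z ∈ (O.ψ (r l)).source ∧ O.ψ (r l) z ∈ B l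

/-- `(k, A)` are countably many measurable pieces of charts of `F` which cover the regular part. -/
def PcF (Φ : Fib R EF F κ ι m) [MeasurableSpace EF] (k : ℕ → Φ.J) (A : ℕ → Set EF) : Prop :=
  (∀ l, MeasurableSet (A l) ∧ A l ⊆ (Φ.φ (k l)).target) ∧
    ∀ j, ∀ y ∈ (Φ.φ j).source, ∃ l, y ∈ (Φ.φ (k l)).source ∧ Φ.φ (k l) y ∈ A l

/-- The pair `(X, D)`, `D = (1/m) div s`, is klt: every `z ∈ Z` has a neighbourhood `V` such that
`|s| ^ (-2 / m)` has finite integral over the regular part of `V × F`. Here `s` is a section of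
`L ⊗ K_{X/Z} ^ (-m) = L' ⊗ K_X ^ (-m)`, `L' = L ⊗ C`. -/
def KltX [MeasureSpace EF] [MeasureSpace EZ] {X : Bun Φ O.toCSp I} {a c : I → I → Z → ℂ}
    (C : Can X m c) (s : SecS X a) : Prop :=
  ∀ z, ∃ i, z ∈ X.U i ∧ ∃ V ∈ nhds z, ∃ (r : ℕ → O.Y) (B : ℕ → Set EZ) (k : ℕ → Φ.J)
    (A : ℕ → Set EF), PcZ X i V r B ∧ PcF Φ k A ∧
      ∑' l, ∫⁻ x in B l, ‖C.u i (r l) ((O.ψ (r l)).symm x)‖ₑ ^ (2 / m : ℝ) *
        ∑' l', ∫⁻ y in A l', Φ.dens (s.S i ((O.ψ (r l)).symm x)) 0 (k l') y < ⊤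

/-- The pair `(Z, E)`, `E = (p / 2) div t`, is klt: every `z ∈ Z` has a neighbourhood `V` such that
`|t| ^ (-p)` has finite integral over its regular part. Here `t` is a section of
`B ⊗ K_Z ^ (-2 / p)`, with `B = (2 / p) (K_Z + E)`. -/
def KltZ [MeasureSpace EZ] {X : Bun Φ O.toCSp I} {c e : I → I → Z → ℂ}
    (C : Can X m c) (t : SecZ X e) (p : ℝ) : Prop :=
  ∀ z, ∃ i, z ∈ X.U i ∧ ∃ V ∈ nhds z, ∃ (r : ℕ → O.Y) (B : ℕ → Set EZ), PcZ X i V r B ∧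
      ∑' l, ∫⁻ x in B l, ‖C.u i (r l) ((O.ψ (r l)).symm x)‖ₑ ^ (2 / m : ℝ) *
        ‖t.f i ((O.ψ (r l)).symm x)‖ₑ ^ (-p) < ⊤

/-- A line bundle `P` on `F` with an action of `G`, with the `G`-stable space `ℂ^κ'` of sections,
linearly independent on the open subsets. -/
structure Lin (Φ : Fib R EF F κ ι m) (κ' : Type) [Fintype κ'] [DecidableEq κ'] where
  w : Φ.J → F → κ' → ℂ
  cont : ∀ j, ContinuousOn (w j) (Φ.W j)
  RP : GRep R κ'
  equi : ∀ g i j y, y ∈ Φ.W j → Φ.act g y ∈ Φ.W i → ∃ t : ℂ, t ≠ 0 ∧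
    w i (Φ.act g y) = t • (RP.ρ g *ᵥ w j y)
  nd : ∀ U : Set F, IsOpen U → U.Nonempty → ∀ ξ : κ' → ℂ, ξ ≠ 0 →
    ∃ j, ∃ y ∈ U ∩ Φ.W j, ξ ⬝ᵥ w j y ≠ 0

/-- The sections `σ` of `N ⊗ K_F ^ (-m)` are linearly independent on the nonempty open subsets of `F`
(which follows from `σ_nd`, as `F` is irreducible). -/
def SND (Φ : Fib R EF F κ ι m) : Prop :=
  ∀ U : Set F, IsOpen U → U.Nonempty → ∀ S : ι → ℂ, S ≠ 0 →
    ∃ j, ∃ y ∈ U ∩ (Φ.φ j).source, S ⬝ᵥ Φ.σ j y ≠ 0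

/-- The value of the tensor `T` at `(x, y)`, a polynomial of bidegree `(q, q')`. -/
noncomputable def tpp {κ' : Type} [Fintype κ'] {q q' : ℕ} (T : (Fin q → κ) × (Fin q' → κ') → ℂ)
    (x : κ → ℂ) (y : κ' → ℂ) : ℂ :=
  ∑ p, T p * ((∏ t, x (p.1 t)) * ∏ t, y (p.2 t))

/-- Sections of `N ^ q ⊗ P ^ q' ⊗ A` on `X`, where `A` is the line bundle on `Z` with the transition
functions `b`: polynomials of bidegree `(q, q')` in the sections of `N` and `P`. -/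
structure SecNP {κ' : Type} [Fintype κ'] [DecidableEq κ'] (X : Bun Φ O.toCSp I) (P : Lin Φ κ')
    (q q' : ℕ) (b : I → I → Z → ℂ) where
  T : I → Z → (Fin q → κ) × (Fin q' → κ') → ℂ
  hol : ∀ i α, (fun z => T i z α) ∈ O.O (X.U i)
  glue : ∀ i j, ∀ z ∈ X.U i ∩ X.U j, ∀ j', ∀ y ∈ Φ.W j',
    tpp (T i z) (Φ.RN.ρ (X.γ i j z) *ᵥ Φ.v j' y) (P.RP.ρ (X.γ i j z) *ᵥ P.w j' y) =
      b i j z * tpp (T j z) (Φ.v j' y) (P.w j' y)

/-- The line bundle `N ⊗ A` on `X` is nef (`b`: transition functions of `A`): for some line bundle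
`P` on `X`, the line bundles `(N ⊗ A) ^ n ⊗ P` are semiample for all `n ≥ 1`. -/
def NefX (X : Bun Φ O.toCSp I) (b : I → I → Z → ℂ) : Prop :=
  ∃ (κ' : Type) (_ : Fintype κ') (_ : DecidableEq κ') (P : Lin Φ κ') (b' : I → I → Z → ℂ),
    ∀ n : ℕ, 1 ≤ n → ∃ q : ℕ, 1 ≤ q ∧ ∀ i, ∀ z ∈ X.U i, ∀ j, ∀ y ∈ Φ.W j,
      ∃ T : SecNP X P (n * q) q (fun i j z => (b i j z ^ n * b' i j z) ^ q),
        tpp (T.T i z) (Φ.v j y) (P.w j y) ≠ 0

/-- `P` is the line bundle `N ^ q` on `F`, with the action of `G` on `N ^ q`. -/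
def IsPow {κ' : Type} [Fintype κ'] [DecidableEq κ'] (P : Lin Φ κ') (q : ℕ) : Prop :=
  ∀ g i j y, y ∈ Φ.W j → Φ.act g y ∈ Φ.W i → ∀ t : ℂ,
    Φ.v i (Φ.act g y) = t • (Φ.RN.ρ g *ᵥ Φ.v j y) →
      P.w i (Φ.act g y) = t ^ q • (P.RP.ρ g *ᵥ P.w j y)

/-- The line bundle `N ⊗ A` on `X` (`b`: transition functions of `A`) is semiample: for some `q ≥ 1`, the
line bundle `(N ⊗ A) ^ q` is generated by sections, which belong fibrewise to the `G`-stable space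
`ℂ^κ'` of sections of `N ^ q` (all sections of `N ^ q`, for instance). -/
def SemiX (X : Bun Φ O.toCSp I) (b : I → I → Z → ℂ) : Prop :=
  ∃ q : ℕ, 1 ≤ q ∧ ∃ (κ' : Type) (_ : Fintype κ') (_ : DecidableEq κ') (P : Lin Φ κ'), IsPow P q ∧
    ∀ i, ∀ z ∈ X.U i, ∀ j, ∀ y ∈ Φ.W j, ∃ T : SecNP X P 0 1 (fun i j z => b i j z ^ q),
      tpp (T.T i z) (Φ.v j y) (P.w j y) ≠ 0

/-- The line bundle `B` on `Z` with the transition functions `b` is semiample. -/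
def SemiZ (X : Bun Φ O.toCSp I) (b : I → I → Z → ℂ) : Prop :=
  ∃ q : ℕ, 1 ≤ q ∧ ∀ i, ∀ z ∈ X.U i, ∃ t : SecZ X (fun i j z => b i j z ^ q), t.f i z ≠ 0

/-- The line bundle `B` on `Z` with the transition functions `b` is nef: for some line bundle `Q` on `Z`
and some `e ≥ 1`, the line bundles `B ^ (e n) ⊗ Q` are semiample for all `n ≥ 1`. -/
def NefZ (X : Bun Φ O.toCSp I) (b : I → I → Z → ℂ) : Prop :=
  ∃ e : ℕ, 1 ≤ e ∧ ∃ b' : I → I → Z → ℂ, ∀ n : ℕ, 1 ≤ n →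
    SemiZ X (fun i j z => b i j z ^ (e * n) * b' i j z)

/-- The point `(z', y')` of `U i' × F` lies in the fibre through `(z, y)` of the map to a projective space
which is given by the sections `T l`. -/
def InFib {X : Bun Φ O.toCSp I} {N p : ℕ} {b : I → I → Z → ℂ} (T : Fin p → SecN X N b)
    (i : I) (z : Z) (j : Φ.J) (y : F) (i' : I) (x' : Z × F) : Prop :=
  x'.1 ∈ X.U i' ∧ ∀ j', x'.2 ∈ Φ.W j' → (∃ l, tp ((T l).T i' x'.1) (Φ.v j' x'.2) ≠ 0) ∧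
    ∀ l l', tp ((T l).T i' x'.1) (Φ.v j' x'.2) * tp ((T l').T i z) (Φ.v j y) =
      tp ((T l').T i' x'.1) (Φ.v j' x'.2) * tp ((T l).T i z) (Φ.v j y)

/-- The line bundle `N ⊗ A` on `X` (`b`: transition functions of `A`) is abundant, and generated over `z₀`:
finitely many sections `T l` of `(N ⊗ A) ^ q` have no common zero over an open neighbourhood `Ω` of `z₀` in
`Z`, and the fibres through the points over `Ω` of the map to a projective space which is given by the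
`T l` are closed in `X` (so they are compact, and their closure contains no common zero of the `T l`). -/
def AbunAt (X : Bun Φ O.toCSp I) (b : I → I → Z → ℂ) (z₀ : Z) : Prop :=
  ∃ q : ℕ, 1 ≤ q ∧ ∃ (p : ℕ) (T : Fin p → SecN X q (fun i j z => b i j z ^ q)) (Ω : Set Z),
    IsOpen Ω ∧ z₀ ∈ Ω ∧ ∀ i, ∀ z ∈ X.U i ∩ Ω, ∀ j, ∀ y ∈ Φ.W j,
      (∃ l, tp ((T l).T i z) (Φ.v j y) ≠ 0) ∧
      ∀ i', ∀ x' ∈ closure {x | InFib T i z j y i' x}, x'.1 ∈ X.U i' → InFib T i z j y i' x'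

/-- The transition functions of `λ' = λ ⊗ C ^ κ`, the determinant of the bundle with fibre `ℂ^κ` of sections of
`L' = L ⊗ C` on the fibres. -/
noncomputable def lam' (X : Bun Φ O.toCSp I) (a c : I → I → Z → ℂ) (i j : I) (z : Z) : ℂ :=
  X.lam a i j z * c i j z ^ Fintype.card κ

end Pool.Agent.KX
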