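import Pool.Agent.H.MP_e23cd6_ag.PB.GBase

/-!
MP_e23cd6_ag, module FinF: finitely many invariants of a given degree suffice.
-/

set_option autoImplicit false

open Matrix Pool.Agent.PG

namespace Pool.Agent.KX

variable {n : ℕ} {R : RG n} {τ : Type} [Fintype τ] [DecidableEq τ]

/-- MODULE FinF. -/
theorem finF (V : GRep R τ) (M : ℕ) : ∃ (p : ℕ) (P : Fin p → MvPolynomial τ ℂ),
    (∀ i, V.Inv M (P i)) ∧ ∀ v : τ → ℂ, (∃ Q, V.Inv M Q ∧ MvPolynomial.eval v Q ≠ 0) →
      ∃ i, MvPolynomial.eval v (P i) ≠ 0 := by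
  obtain ⟨s, hs⟩ : ∃ s : Set (MvPolynomial τ ℂ), s = {P | V.Inv M P} := ⟨_, rfl⟩
  have hfg : (Submodule.span (MvPolynomial τ ℂ) s).FG := IsNoetherian.noetherian _
  rw [Submodule.fg_span_iff_fg_span_finset_subset] at hfg
  obtain ⟨t, hts, hspan⟩ := hfg
  refine ⟨t.card, fun i => (t.equivFin.symm i : MvPolynomial τ ℂ), fun i => ?_, ?_⟩
  · have h1 := hts (t.equivFin.symm i).2
    rw [hs] at h1
    exact h1
  · rintro v ⟨Q, hQ, hv⟩
    by_contra hcon
    push Not at hcon
    apply hv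
    have h1 : Q ∈ Submodule.span (MvPolynomial τ ℂ) (t : Set (MvPolynomial τ ℂ)) := by
      rw [← hspan]
      apply Submodule.subset_span
      rw [hs]
      exact hQ
    have h2 : Submodule.span (MvPolynomial τ ℂ) (t : Set (MvPolynomial τ ℂ)) ≤
        RingHom.ker (MvPolynomial.eval v) := by
      rw [Submodule.span_le]
      intro P hP
      have h3 := hcon (t.equivFin ⟨P, hP⟩)
      simpa using h3
    exact h2 h1

end Pool.Agent.KX
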