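import Pool.Agent.H.MP_e23cd6_ag.PB.GPow

/-!
MP_e23cd6_ag (abundance), total spaces of bundles, module Proj: a form `f` of degree `D` which vanishes on
a `G`-stable set, and not at `S₀`, gives a `G`-equivariant linear map `A` of the `D`-th tensor power, with
`A (S₀ ^ D) ≠ 0` and `A (S ^ D) = 0` for all `S` in the set.
-/

set_option autoImplicit false

open Matrix Pool.Agent.PG Pool.Agent.SG

namespace Pool.Agent.KX

namespace Proj

/-- A monomial as a product of `D` variables. -/
theorem exists_tuple {ι : Type} [Fintype ι] [DecidableEq ι] : ∀ (D : ℕ) (d : ι →₀ ℕ),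
    d.degree = D → ∃ α : Fin D → ι, ∀ S : ι → ℂ, ∏ i, S i ^ d i = vp D S α
  | 0, d, h => by
    have : d = 0 := by rwa [Finsupp.degree_eq_zero_iff] at h
    subst this
    exact ⟨Fin.elim0, fun S => by simp [vp]⟩
  | D + 1, d, h => by
    have hd : d ≠ 0 := by
      rintro rfl
      simp at h
    obtain ⟨i, hi⟩ := Finsupp.ne_iff.1 hd
    have hi1 : Finsupp.single i 1 ≤ d := by
      rw [Finsupp.single_le_iff]
      simpa [Nat.one_le_iff_ne_zero] using hi
    have hsum : Finsupp.single i 1 + (d - Finsupp.single i 1) = d := add_tsub_cancel_of_le hi1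
    have hdeg : (d - Finsupp.single i 1).degree = D := by
      have := congrArg Finsupp.degree hsum
      rw [map_add, Finsupp.degree_single, h] at this
      omega
    obtain ⟨α, hα⟩ := exists_tuple D _ hdeg
    refine ⟨Fin.cons i α, fun S => ?_⟩
    have : vp (D + 1) S (Fin.cons i α) = S i * vp D S α := by
      rw [vp_apply, Fin.prod_univ_succ, Fin.cons_zero, vp_apply]
      simp only [Fin.cons_succ]
    rw [this, ← hα S]
    conv_lhs => rw [← hsum]
    simp only [Finsupp.add_apply, pow_add, Finset.prod_mul_distrib]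
    congr 1
    rw [Finset.prod_eq_single i]
    · rw [Finsupp.single_eq_same, pow_one]
    · intro j _ hj
      rw [Finsupp.single_eq_of_ne hj, pow_zero]
    · intro hc
      exact absurd (Finset.mem_univ i) hc

/-- The tensor of a form. -/
theorem exists_eta {ι : Type} [Fintype ι] [DecidableEq ι] {D : ℕ} {f : MvPolynomial ι ℂ}
    (hf : f.IsHomogeneous D) :
    ∃ η : (Fin D → ι) → ℂ, ∀ S, MvPolynomial.eval S f = η ⬝ᵥ vp D S := by
  classical
  have h1 : ∀ d : f.support, ∃ α : Fin D → ι, ∀ S : ι → ℂ, ∏ i, S i ^ d.1 i = vp D S α := by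
    intro d
    refine exists_tuple D d.1 ?_
    have := hf (MvPolynomial.mem_support_iff.1 d.2)
    rwa [Finsupp.degree_eq_weight_one]
  choose a ha using h1
  refine ⟨∑ d : f.support, Pi.single (a d) (MvPolynomial.coeff d.1 f), fun S => ?_⟩
  rw [MvPolynomial.eval_eq', sum_dotProduct, ← Finset.sum_coe_sort]
  refine Finset.sum_congr rfl fun d _ => ?_
  rw [single_dotProduct, ha d]

/-- The orthogonal projection with a given kernel. -/
theorem exists_proj {α : Type} [Fintype α] [DecidableEq α] (K : Submodule ℂ (α → ℂ)) :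
    ∃ A : Matrix α α ℂ, (∀ v, A *ᵥ v = 0 ↔ v ∈ K) ∧ ∀ B : Matrix α α ℂ,
      (∀ v ∈ K, B *ᵥ v ∈ K) → (∀ v ∈ K, Bᴴ *ᵥ v ∈ K) → A * B = B * A := by
  let e := WithLp.linearEquiv 2 ℂ (α → ℂ)
  let K' : Submodule ℂ (EuclideanSpace ℂ α) := K.comap e.toLinearMap
  let P := K'.starProjection
  let A : Matrix α α ℂ := (Matrix.toEuclideanCLM (n := α) (𝕜 := ℂ)).symm (1 - P)
  have hA : Matrix.toEuclideanCLM (n := α) (𝕜 := ℂ) A = 1 - P :=
    (Matrix.toEuclideanCLM (n := α) (𝕜 := ℂ)).apply_symm_apply _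
  refine ⟨A, fun v => ?_, fun B h1 h2 => ?_⟩
  · have h3 : (Matrix.toEuclideanCLM (n := α) (𝕜 := ℂ) A) (e.symm v) = e.symm (A *ᵥ v) := by
      rfl
    have h4 : A *ᵥ v = 0 ↔ e.symm (A *ᵥ v) = 0 := by
      rw [LinearEquiv.map_eq_zero_iff]
    rw [h4, ← h3, hA]
    show e.symm v - P (e.symm v) = 0 ↔ _
    rw [sub_eq_zero, eq_comm, Submodule.starProjection_eq_self_iff]
    show e (e.symm v) ∈ K ↔ _
    rw [LinearEquiv.apply_symm_apply]
  · apply EquivLike.injective (Matrix.toEuclideanCLM (n := α) (𝕜 := ℂ))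
    rw [map_mul, map_mul, hA]
    set T := Matrix.toEuclideanCLM (n := α) (𝕜 := ℂ) B with hT
    have hT1 : ∀ w ∈ K', T w ∈ K' := fun w hw => h1 _ hw
    have hT2 : ∀ w ∈ K', (ContinuousLinearMap.adjoint T) w ∈ K' := by
      intro w hw
      have : ContinuousLinearMap.adjoint T = Matrix.toEuclideanCLM (n := α) (𝕜 := ℂ) Bᴴ := by
        rw [← ContinuousLinearMap.star_eq_adjoint, hT, ← map_star, Matrix.star_eq_conjTranspose]
      rw [this]
      exact h2 _ hw
    have hc : P * T = T * P := by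
      ext1 w
      show P (T w) = T (P w)
      refine Submodule.eq_starProjection_of_mem_of_inner_eq_zero
        (hT1 _ (Submodule.starProjection_apply_mem _ _)) fun u hu => ?_
      rw [← map_sub, ← ContinuousLinearMap.adjoint_inner_right]
      exact Submodule.starProjection_inner_eq_zero _ _ (hT2 u hu)
    rw [sub_mul, mul_sub, one_mul, mul_one, hc]

end Proj

variable {n : ℕ} {R : RG n} {ι : Type} [Fintype ι] [DecidableEq ι]

open Proj in
/-- MODULE Proj: a polynomial `f` which vanishes on a `G`-stable set gives an equivariant linear map. -/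
theorem proj (V : GRep R ι) {D : ℕ} {f : MvPolynomial ι ℂ} (hf : f.IsHomogeneous D)
    {Bad : Set (ι → ℂ)} (hBad : ∀ S ∈ Bad, ∀ g, V.act g S ∈ Bad)
    (hfb : ∀ S ∈ Bad, MvPolynomial.eval S f = 0) {S₀ : ι → ℂ} (h0 : MvPolynomial.eval S₀ f ≠ 0) :
    ∃ A : Matrix (Fin D → ι) (Fin D → ι) ℂ, (∀ g, A * (V.pow D).ρ g = (V.pow D).ρ g * A) ∧
      A *ᵥ vp D S₀ ≠ 0 ∧ ∀ S ∈ Bad, A *ᵥ vp D S = 0 := by
  obtain ⟨η, hη⟩ := exists_eta hf
  let K : Submodule ℂ ((Fin D → ι) → ℂ) :=
    { carrier := {v | ∀ g, η ⬝ᵥ (V.pow D).act g v = 0}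
      add_mem' := fun {a b} ha hb g => by
        have : (V.pow D).act g (a + b) = (V.pow D).act g a + (V.pow D).act g b :=
          Matrix.mulVec_add _ _ _
        rw [this, dotProduct_add, ha g, hb g, add_zero]
      zero_mem' := fun g => by
        have : (V.pow D).act g 0 = 0 := Matrix.mulVec_zero _
        rw [this, dotProduct_zero]
      smul_mem' := fun c v hv g => by
        rw [GRep.act_smul, dotProduct_smul, hv g, smul_zero] }
  have hK : ∀ v, v ∈ K ↔ ∀ g, η ⬝ᵥ (V.pow D).act g v = 0 := fun v => Iff.rfl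
  have hst : ∀ g, ∀ v ∈ K, (V.pow D).ρ g *ᵥ v ∈ K := by
    intro g v hv h
    have : (V.pow D).act h ((V.pow D).ρ g *ᵥ v) = (V.pow D).act (h * g) v := by
      rw [GRep.act_mul]
      rfl
    rw [this]
    exact hv _
  obtain ⟨A, hA1, hA2⟩ := exists_proj K
  refine ⟨A, fun g => hA2 _ (hst g) fun v hv => ?_, ?_, fun S hS => ?_⟩
  · obtain ⟨g', hg', e⟩ := R.star g g.2
    have := (V.pow D).star g ⟨g', hg'⟩ e
    rw [← this]
    exact hst _ v hv
  · rw [Ne, hA1, hK]
    intro hc
    refine h0 ?_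
    rw [hη]
    simpa using hc 1
  · rw [hA1, hK]
    intro g
    rw [act_pow, ← hη]
    exact hfb _ (hBad S hS g)

end Pool.Agent.KX
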