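import Pool.Agent.H.MP_e23cd6_ag.PB.GFinal
import Pool.Agent.H.MP_e23cd6_ag.KX.Proj

/-!
# An invariant which vanishes on a stable set
-/

set_option autoImplicit false

open Matrix Pool.Agent.PG Pool.Agent.SG

namespace Pool.Agent.KX

variable {n : ℕ} {R : RG n} {ι κ : Type} [Fintype ι] [DecidableEq ι] [Fintype κ] [DecidableEq κ]

/-- The largest of the functionals of a set `A`, if it is positive where they do not all vanish, bounds
all of them. -/
theorem pl2 {U ι : Type} [AddCommGroup U] [Module ℝ U] [Fintype ι] (g : ι → U →ₗ[ℝ] ℝ) :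
    ∃ e : ℕ, ∀ A : Set ι, A.Nonempty → (∀ x, (∃ α, g α x ≠ 0) → ∃ α ∈ A, 0 < g α x) →
      ∀ x, ∃ α₁ ∈ A, 0 ≤ g α₁ x ∧ ∀ α, -g α x ≤ e * g α₁ x := by
  classical
  have key : ∀ (A : Set ι) (α : ι), ∃ e : ℕ, A.Nonempty →
      (∀ x, (∃ α, g α x ≠ 0) → ∃ α ∈ A, 0 < g α x) → ∀ e' : ℕ, e ≤ e' →
      ∀ x, ∃ i ∈ A, -g α x ≤ e' * g i x := by
    intro A α
    by_cases h : A.Nonempty ∧ ∀ x, (∃ α, g α x ≠ 0) → ∃ α ∈ A, 0 < g α x
    · obtain ⟨h0, h⟩ := h
      obtain ⟨e, he⟩ := le_max_of_farkas A g (-g α) (by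
        intro x hx
        by_cases hne : ∃ α, g α x ≠ 0
        · obtain ⟨i, hi, hlt⟩ := h x hne
          exact absurd (hx i hi) (not_le.2 hlt)
        · push Not at hne
          rw [LinearMap.neg_apply, hne α, neg_zero]) (by
        intro x
        by_cases hne : ∃ α, g α x ≠ 0
        · obtain ⟨i, hi, hlt⟩ := h x hne
          exact ⟨i, hi, hlt.le⟩
        · push Not at hne
          obtain ⟨i, hi⟩ := h0
          exact ⟨i, hi, (hne i).ge⟩)
      exact ⟨e, fun _ _ e' hee x => he e' hee x⟩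
    · exact ⟨0, fun h0 h1 => absurd ⟨h0, h1⟩ h⟩
  choose e he using key
  refine ⟨∑ A : Set ι, ∑ α : ι, e A α, fun A h0 h x => ?_⟩
  obtain ⟨α₁, hα₁, hmax⟩ := (Set.toFinite A).exists_maximalFor (fun α => g α x) A h0
  have hmax' : ∀ i ∈ A, g i x ≤ g α₁ x := by
    intro i hi
    rcases le_total (g i x) (g α₁ x) with h1 | h1
    · exact h1
    · exact hmax hi h1
  refine ⟨α₁, hα₁, ?_, fun α => ?_⟩
  · by_cases hne : ∃ α, g α x ≠ 0
    · obtain ⟨i, hi, hlt⟩ := h x hne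
      exact hlt.le.trans (hmax' i hi)
    · push Not at hne
      exact (hne α₁).ge
  · obtain ⟨i, hi, hle⟩ := he A α h0 h (∑ A : Set ι, ∑ α : ι, e A α) (by
      calc e A α ≤ ∑ α : ι, e A α :=
            Finset.single_le_sum (f := fun α => e A α) (fun _ _ => Nat.zero_le _)
              (Finset.mem_univ α)
        _ ≤ ∑ A : Set ι, ∑ α : ι, e A α :=
            Finset.single_le_sum (f := fun A => ∑ α : ι, e A α) (fun _ _ => Nat.zero_le _)
              (Finset.mem_univ A)) x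
    exact hle.trans (mul_le_mul_of_nonneg_left (hmax' i hi) (Nat.cast_nonneg _))

/-- The strict numerical inequality, for all subgroups which do not act by scalars. -/
def N3 (V : GRep R ι) (W : GRep R κ) (S : ι → ℂ) : Prop :=
  ∀ k : R.G, ∀ H ∈ R.a, ((∃ β γ, W.lam β H ≠ W.lam γ H) ∨ ∃ α α', V.lam α H ≠ V.lam α' H) →
    ∀ β : κ, ∃ α, V.act k S α ≠ 0 ∧ W.dual.lam β H < V.lam α H

/-- The vector `u(S)`. -/
noncomputable def uv {D : ℕ} (A : Matrix (Fin D → ι) (Fin D → ι) ℂ) (k l : ℕ) (S : ι → ℂ) :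
    ((Fin D → ι) × (Fin k → ι)) × (Fin l → Unit) → ℂ :=
  tv (tv (A *ᵥ vp D S) (vp k S)) (vp l fun _ => 1)

/-- The representation of the vectors `u(S)`. -/
noncomputable def UR (V : GRep R ι) (W : GRep R κ) (D k l : ℕ) :
    GRep R (((Fin D → ι) × (Fin k → ι)) × (Fin l → Unit)) :=
  ((V.pow D).tens (V.pow k)).tens (W.detr.pow l)

theorem uv_act (V : GRep R ι) (W : GRep R κ) {D : ℕ} {A : Matrix (Fin D → ι) (Fin D → ι) ℂ}
    (hA : ∀ g, A * (V.pow D).ρ g = (V.pow D).ρ g * A) (k l : ℕ) (g : R.G) (S : ι → ℂ) :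
    (UR V W D k l).act g (uv A k l S) = (W.ρ g).det ^ l • uv A k l (V.act g S) := by
  have h1 : (V.pow D).act g (A *ᵥ vp D S) = A *ᵥ vp D (V.act g S) := by
    rw [← act_pow]
    unfold GRep.act
    rw [Matrix.mulVec_mulVec, Matrix.mulVec_mulVec, hA]
  unfold UR uv
  rw [GRep.act_tens, GRep.act_tens, act_pow, act_pow, detr_act, vp_smul, h1]
  funext p
  simp only [tv, Pi.smul_apply, smul_eq_mul]
  ring

theorem uv_num (V : GRep R ι) (W : GRep R κ) [Nonempty κ]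
    {D : ℕ} {A : Matrix (Fin D → ι) (Fin D → ι) ℂ} {S₀ : ι → ℂ} (hA0 : A *ᵥ vp D S₀ ≠ 0)
    (hN1 : N1 V W S₀) (hN3 : N3 V W S₀) :
    ∃ k l : ℕ, 1 ≤ l ∧ D + k = Fintype.card κ * l ∧ ∀ g : R.G, ∀ H ∈ R.a,
      ∃ p, (UR V W D k l).act g (uv A k l S₀) p ≠ 0 ∧ 0 ≤ (UR V W D k l).lam p H := by
  classical
  obtain ⟨K, hKdef⟩ : ∃ K, K = Fintype.card κ := ⟨_, rfl⟩
  have hK : 1 ≤ K := hKdef ▸ Fintype.card_pos
  have hK' : (1 : ℝ) ≤ K := by exact_mod_cast hK
  -- the functionals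
  obtain ⟨ℓ, hℓ⟩ : ∃ ℓ : ι → R.a →ₗ[ℝ] ℝ, ∀ α (H : R.a), ℓ α H =
      K * V.lam α H + ∑ β, W.lam β H := by
    refine ⟨fun α => ((K : ℝ) • V.lam α + ∑ β, W.lam β).comp R.a.subtype, fun α H => ?_⟩
    simp only [LinearMap.comp_apply, Submodule.subtype_apply, LinearMap.add_apply,
      LinearMap.smul_apply, LinearMap.sum_apply, smul_eq_mul]
  obtain ⟨e, he⟩ := pl2 ℓ
  have hpos : ∀ (g : R.G) (H : R.a), (∃ α, ℓ α H ≠ 0) → ∃ α ∈ {α | V.act g S₀ α ≠ 0},
      0 < ℓ α H := by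
    rintro g ⟨H, hH⟩ ⟨α, hα⟩
    have hne : (∃ β γ, W.lam β H ≠ W.lam γ H) ∨ ∃ α α', V.lam α H ≠ V.lam α' H := by
      by_contra hcon
      push Not at hcon
      obtain ⟨h1, h2⟩ := hcon
      apply hα
      obtain ⟨β₀⟩ : Nonempty κ := inferInstance
      obtain ⟨α₁, -, h3⟩ := hN1 1 H hH β₀
      obtain ⟨α₂, -, h4⟩ := hN1 1 (-H) (R.a.neg_mem hH) β₀
      rw [GRep.dual_lam] at h3 h4
      rw [map_neg, map_neg, h2 α₂ α] at h4
      rw [h2 α₁ α] at h3
      have h5 : ∑ β, W.lam β H = K * W.lam β₀ H := by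
        rw [Finset.sum_congr rfl fun β _ => h1 β β₀, Finset.sum_const, Finset.card_univ,
          nsmul_eq_mul, hKdef]
      have h6 : V.lam α H = -W.lam β₀ H := by linarith
      rw [hℓ]
      show (K : ℝ) * V.lam α H + ∑ β, W.lam β H = 0
      rw [h5, h6]
      ring
    obtain ⟨β₀, -, hβ₀⟩ := Finset.exists_min_image (Finset.univ : Finset κ)
      (fun β => W.lam β H) Finset.univ_nonempty
    obtain ⟨α₁, hα₁, hlt⟩ := hN3 g H hH hne β₀
    refine ⟨α₁, hα₁, ?_⟩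
    rw [hℓ]
    show 0 < (K : ℝ) * V.lam α₁ H + ∑ β, W.lam β H
    rw [GRep.dual_lam] at hlt
    have h1 : (K : ℝ) * W.lam β₀ H ≤ ∑ β, W.lam β H := by
      have h2 := Finset.card_nsmul_le_sum (Finset.univ : Finset κ) (fun β => W.lam β H)
        (W.lam β₀ H) fun β hβ => hβ₀ β hβ
      rwa [Finset.card_univ, nsmul_eq_mul, ← hKdef] at h2
    nlinarith
  refine ⟨K * (D * e + D + 1) - D, D * e + D + 1, by omega, ?_, fun g H hH => ?_⟩
  · rw [← hKdef]
    have : D ≤ K * (D * e + D + 1) := by nlinarith [Nat.zero_le (D * e)]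
    omega
  obtain ⟨k, hk⟩ : ∃ k, k = K * (D * e + D + 1) - D := ⟨_, rfl⟩
  obtain ⟨l, hl⟩ : ∃ l, l = D * e + D + 1 := ⟨_, rfl⟩
  have hkl : D + k = K * l := by
    have : D ≤ K * (D * e + D + 1) := by nlinarith [Nat.zero_le (D * e)]
    rw [hl]
    omega
  have hkC : D * e ≤ k := by
    have h1 : D * e + D + 1 ≤ K * (D * e + D + 1) := Nat.le_mul_of_pos_left _ hK
    omega
  rw [← hk, ← hl]
  -- the index for `S₀`
  have hA1 : {α | V.act g S₀ α ≠ 0}.Nonempty := by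
    obtain ⟨β₀⟩ : Nonempty κ := inferInstance
    obtain ⟨α, hα, -⟩ := hN1 g H hH β₀
    exact ⟨α, hα⟩
  obtain ⟨α₁, hα₁, h0, hle⟩ := he _ hA1 (hpos g) ⟨H, hH⟩
  have hℓ' : ∀ α, ℓ α ⟨H, hH⟩ = K * V.lam α H + ∑ β, W.lam β H := fun α => hℓ α ⟨H, hH⟩
  simp only [hℓ'] at h0 hle
  -- the index for `A`
  have hne : (V.pow D).act g (A *ᵥ vp D S₀) ≠ 0 := act_ne _ _ hA0
  obtain ⟨γ, hγ⟩ := Function.ne_iff.1 hne
  refine ⟨((γ, fun _ => α₁), fun _ => ()), ?_, ?_⟩
  · unfold UR uv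
    rw [GRep.act_tens, GRep.act_tens, act_pow, act_pow]
    refine mul_ne_zero (mul_ne_zero hγ (vp_ne fun t => hα₁)) (vp_ne fun t => ?_)
    rw [detr_act, Pi.smul_apply, smul_eq_mul, mul_one]
    exact detr_act_ne W g
  · unfold UR
    rw [GRep.tens_lam, GRep.tens_lam, pow_lam, pow_lam, pow_lam]
    simp only [detr_lam, Finset.sum_const, Finset.card_univ, Fintype.card_fin, nsmul_eq_mul]
    have h1 : -(D * (e * (K * V.lam α₁ H + ∑ β, W.lam β H))) ≤
        ∑ t, (K * V.lam (γ t) H + ∑ β, W.lam β H) := by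
      calc -(D * (e * (K * V.lam α₁ H + ∑ β, W.lam β H))) =
            ∑ _t : Fin D, -(e * (K * V.lam α₁ H + ∑ β, W.lam β H)) := by
            rw [Finset.sum_const, Finset.card_univ, Fintype.card_fin, nsmul_eq_mul]
            ring
        _ ≤ _ := by
            refine Finset.sum_le_sum fun t _ => ?_
            have h2 := hle (γ t)
            linarith
    have h2 : ∑ t, (K * V.lam (γ t) H + ∑ β, W.lam β H) =
        K * ∑ t, V.lam (γ t) H + D * ∑ β, W.lam β H := by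
      rw [Finset.sum_add_distrib, ← Finset.mul_sum, Finset.sum_const, Finset.card_univ,
        Fintype.card_fin, nsmul_eq_mul]
    rw [h2] at h1
    have h3 : (D * e : ℝ) * (K * V.lam α₁ H + ∑ β, W.lam β H) ≤
        k * (K * V.lam α₁ H + ∑ β, W.lam β H) :=
      mul_le_mul_of_nonneg_right (by exact_mod_cast hkC) h0
    have h5 : (D : ℝ) + k = K * l := by exact_mod_cast hkl
    have h6 : (0 : ℝ) < K := by exact_mod_cast hK
    have h7 : 0 ≤ K * (∑ t, V.lam (γ t) H + k * V.lam α₁ H + l * ∑ i, W.lam i H) := by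
      have h8 : (K : ℝ) * (∑ t, V.lam (γ t) H + k * V.lam α₁ H + l * ∑ i, W.lam i H) =
          (K * ∑ t, V.lam (γ t) H + D * ∑ β, W.lam β H) +
            k * (K * V.lam α₁ H + ∑ γ, W.lam γ H) := by
        linear_combination (-(∑ γ, W.lam γ H)) * h5
      rw [h8]
      linarith
    exact nonneg_of_mul_nonneg_right h7 h6

/-- MODULE InvP. -/
theorem inv_of_poly (V : GRep R ι) (W : GRep R κ) [Nonempty κ] {D : ℕ} {f : MvPolynomial ι ℂ} (hf : f.IsHomogeneous D)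
    {Bad : Set (ι → ℂ)} (hBad : ∀ S ∈ Bad, ∀ g, V.act g S ∈ Bad)
    (hfb : ∀ S ∈ Bad, MvPolynomial.eval S f = 0) {S₀ : ι → ℂ} (h0 : MvPolynomial.eval S₀ f ≠ 0)
    (hN1 : N1 V W S₀) (hN3 : N3 V W S₀) :
    ∃ r : ℕ, 1 ≤ r ∧ ∃ P : MvPolynomial ι ℂ, P.IsHomogeneous (Fintype.card κ * r) ∧
      (∀ g S, MvPolynomial.eval (V.act g S) P * (W.ρ g).det ^ r = MvPolynomial.eval S P) ∧
      MvPolynomial.eval S₀ P ≠ 0 ∧ ∀ S ∈ Bad, MvPolynomial.eval S P = 0 := by
  obtain ⟨A, hA, hA0, hAb⟩ := proj V hf hBad hfb h0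
  obtain ⟨k, l, hl, hkl, hnum⟩ := uv_num V W hA0 hN1 hN3
  obtain ⟨M, hM, hcrit⟩ := crit_unif (UR V W D k l)
  obtain ⟨P, hP, hPne⟩ := hcrit (uv A k l S₀) fun g _ H hH => hnum g H hH
  have hMne : M ≠ 0 := by omega
  obtain ⟨G, hG⟩ : ∃ G : ((Fin D → ι) × (Fin k → ι)) × (Fin l → Unit) → MvPolynomial ι ℂ,
      G = fun p => (∑ β, MvPolynomial.C (A p.1.1 β) * ∏ t, MvPolynomial.X (β t)) *
        ∏ t, MvPolynomial.X (p.1.2 t) := ⟨_, rfl⟩
  have hGev : ∀ S p, MvPolynomial.eval S (G p) = uv A k l S p := by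
    intro S p
    rw [hG]
    simp only [map_mul, map_sum, map_prod, MvPolynomial.eval_C, MvPolynomial.eval_X, uv, tv,
      Matrix.mulVec, dotProduct, vp_apply, Finset.prod_const_one, mul_one]
  have hGh : ∀ p, (G p).IsHomogeneous (D + k) := by
    intro p
    rw [hG]
    refine MvPolynomial.IsHomogeneous.mul (MvPolynomial.IsHomogeneous.sum _ _ _ fun β _ => ?_) ?_
    · have h1 := MvPolynomial.IsHomogeneous.prod (Finset.univ : Finset (Fin D))
        (fun t => (MvPolynomial.X (β t) : MvPolynomial ι ℂ)) (fun _ => 1)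
        fun t _ => MvPolynomial.isHomogeneous_X _ _
      rw [Finset.sum_const, Finset.card_univ, Fintype.card_fin, smul_eq_mul, mul_one] at h1
      have h2 := (MvPolynomial.isHomogeneous_C ι (A p.1.1 β)).mul h1
      rwa [zero_add] at h2
    · have h1 := MvPolynomial.IsHomogeneous.prod (Finset.univ : Finset (Fin k))
        (fun t => (MvPolynomial.X (p.1.2 t) : MvPolynomial ι ℂ)) (fun _ => 1)
        fun t _ => MvPolynomial.isHomogeneous_X _ _
      rwa [Finset.sum_const, Finset.card_univ, Fintype.card_fin, smul_eq_mul, mul_one] at h1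
  have hev : ∀ S, MvPolynomial.eval S (MvPolynomial.aeval G P) =
      MvPolynomial.eval (uv A k l S) P := by
    intro S
    rw [← MvPolynomial.coe_aeval_eq_eval, ← MvPolynomial.coe_aeval_eq_eval]
    show (MvPolynomial.aeval S) ((MvPolynomial.aeval G) P) = (MvPolynomial.aeval (uv A k l S)) P
    rw [MvPolynomial.comp_aeval_apply]
    refine congrArg (fun q => MvPolynomial.aeval q P) (funext fun p => ?_)
    exact hGev S p
  refine ⟨l * M, Nat.mul_pos hl hM, MvPolynomial.aeval G P, ?_, fun g S => ?_, ?_, fun S hS => ?_⟩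
  · have h1 := hP.hom.aeval G hGh
    rwa [hkl, mul_assoc] at h1
  · rw [hev, hev, ← hP.inv g (uv A k l S), uv_act V W hA, eval_smul_hom hP.hom, ← pow_mul]
    ring
  · rw [hev]
    exact hPne
  · rw [hev]
    have h1 : uv A k l S = 0 := by
      funext p
      simp [uv, tv, hAb S hS]
    rw [h1]
    have h2 := eval_smul_hom hP.hom 0 (0 : ((Fin D → ι) × (Fin k → ι)) × (Fin l → Unit) → ℂ)
    rw [zero_smul, zero_pow hMne, zero_mul] at h2
    exact h2

end Pool.Agent.KX
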