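import Pool.Agent.H.MP_e23cd6_ag.KX.MinB
import Pool.Agent.H.MP_e23cd6_ag.PB.GFinal
/-!
MP_e23cd6_ag: the integral over a fibre is bounded below by a negative power of finitely many
invariants of one degree (module JInv).
-/

set_option autoImplicit false
set_option linter.unusedSectionVars false

open scoped ENNReal
open MeasureTheory Matrix Pool.Agent.PG Pool.Agent.SG

namespace Pool.Agent.KX

/-- The norm of a tensor power. -/
theorem jinv_nm_vp {ι : Type} [Fintype ι] (q : ℕ) (u : ι → ℂ) : nm (vp q u) = nm u ^ q := by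
  have h1 : ns (vp q u) = ns u ^ q := by
    classical
    unfold ns
    have h2 : ∀ α : Fin q → ι, ‖vp q u α‖ ^ 2 = ∏ t, ‖u (α t)‖ ^ 2 := fun α => by
      rw [vp_apply, norm_prod, Finset.prod_pow]
    rw [Finset.sum_congr rfl fun α _ => h2 α, ← Fintype.piFinset_univ,
      ← Finset.prod_univ_sum (fun _ : Fin q => (Finset.univ : Finset ι)) fun _ i => ‖u i‖ ^ 2,
      Finset.prod_const, Finset.card_univ, Fintype.card_fin]
  unfold nm
  rw [h1, Real.sqrt_eq_rpow, Real.sqrt_eq_rpow, ← Real.rpow_natCast, ← Real.rpow_natCast,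
    ← Real.rpow_mul (ns_nonneg u), ← Real.rpow_mul (ns_nonneg u), mul_comm]

/-- The computation of the exponents. -/
theorem jinv_key {s c₁ : ℝ} (hs : 0 < s) (hc₁ : 0 < c₁) {c₀ J : ℝ≥0∞} (h0 : c₀ ≠ 0) (h0' : c₀ ≠ ⊤)
    {M : ℕ} (hM : 2 ≤ M) {G : Type} [Nonempty G] (x : G → ℝ) (y : ℝ)
    (hb : ∀ b : ℝ, 0 ≤ b → (∀ g, b ≤ x g) → c₁ * b ^ M ≤ y)
    (h : ∀ g, c₀ * ENNReal.ofReal (x g) ^ (-s) ≤ J) :
    c₀ * ENNReal.ofReal c₁ ^ (s / M) * ENNReal.ofReal y ^ (-(s / M)) ≤ J := by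
  have hM0 : (0 : ℝ) < M := by exact_mod_cast (by omega : 0 < M)
  rcases eq_or_ne J ⊤ with rfl | hJ
  · exact le_top
  have hJ0 : J ≠ 0 := by
    rintro rfl
    obtain ⟨g⟩ := ‹Nonempty G›
    have h1 := h g
    rw [nonpos_iff_eq_zero, mul_eq_zero] at h1
    rcases h1 with h1 | h1
    · exact h0 h1
    · rw [ENNReal.rpow_neg, ENNReal.inv_eq_zero, ENNReal.rpow_eq_top_iff_of_pos hs] at h1
      exact ENNReal.ofReal_ne_top h1
  set b : ℝ := ((c₀ / J) ^ (1 / s)).toReal with hbdef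
  have hq0 : c₀ / J ≠ 0 := ENNReal.div_ne_zero.2 ⟨h0, hJ⟩
  have hqt : c₀ / J ≠ ⊤ := ENNReal.div_ne_top h0' hJ0
  have hbt : (c₀ / J) ^ (1 / s) ≠ ⊤ := ENNReal.rpow_ne_top_of_nonneg (by positivity) hqt
  have hofb : ENNReal.ofReal b = (c₀ / J) ^ (1 / s) := ENNReal.ofReal_toReal hbt
  have hb0 : (c₀ / J) ^ (1 / s) ≠ 0 := by
    rw [Ne, ENNReal.rpow_eq_zero_iff]
    rintro (⟨h1, _⟩ | ⟨h1, _⟩)
    · exact hq0 h1
    · exact hqt h1
  have hbpos : 0 < b := ENNReal.toReal_pos hb0 hbt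
  have h2 : ∀ g, b ≤ x g := by
    intro g
    have h3 : (c₀ / J) ≤ ENNReal.ofReal (x g) ^ s := by
      have h4 := h g
      rw [ENNReal.rpow_neg, ← div_eq_mul_inv] at h4
      rw [ENNReal.div_le_iff_le_mul (Or.inl hJ0) (Or.inl hJ)]
      rcases eq_or_ne (ENNReal.ofReal (x g) ^ s) 0 with h5 | h5
      · rw [h5, ENNReal.div_zero h0] at h4
        exact absurd (top_le_iff.1 h4) hJ
      · rw [ENNReal.div_le_iff_le_mul (Or.inl h5)
          (Or.inl (ENNReal.rpow_ne_top_of_nonneg hs.le ENNReal.ofReal_ne_top))] at h4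
        rwa [mul_comm]
    have h6 : ENNReal.ofReal b ≤ ENNReal.ofReal (x g) := by
      rw [hofb]
      calc (c₀ / J) ^ (1 / s) ≤ (ENNReal.ofReal (x g) ^ s) ^ (1 / s) :=
            ENNReal.rpow_le_rpow h3 (by positivity)
        _ = ENNReal.ofReal (x g) := by
            rw [← ENNReal.rpow_mul, mul_one_div_cancel hs.ne', ENNReal.rpow_one]
    by_contra h7
    push Not at h7
    exact absurd h6 (not_le.2 ((ENNReal.ofReal_lt_ofReal_iff hbpos).2 h7))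
  have h8 := hb b hbpos.le h2
  have h9 : ENNReal.ofReal c₁ * (c₀ / J) ^ ((M : ℝ) / s) ≤ ENNReal.ofReal y := by
    refine le_trans (le_of_eq ?_) (ENNReal.ofReal_le_ofReal h8)
    rw [ENNReal.ofReal_mul hc₁.le, ENNReal.ofReal_pow hbpos.le, hofb, ← ENNReal.rpow_natCast,
      ← ENNReal.rpow_mul]
    congr 2
    field_simp
  have hc₁' : ENNReal.ofReal c₁ ≠ 0 := (ENNReal.ofReal_pos.2 hc₁).ne'
  have h10 : ENNReal.ofReal y ^ (-(s / M)) ≤
      (ENNReal.ofReal c₁ * (c₀ / J) ^ ((M : ℝ) / s)) ^ (-(s / M)) := by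
    rw [ENNReal.rpow_neg, ENNReal.rpow_neg]
    exact ENNReal.inv_le_inv.2 (ENNReal.rpow_le_rpow h9 (by positivity))
  have h11 : (ENNReal.ofReal c₁ * (c₀ / J) ^ ((M : ℝ) / s)) ^ (-(s / M)) =
      ENNReal.ofReal c₁ ^ (-(s / M)) * (c₀ / J)⁻¹ := by
    rw [ENNReal.mul_rpow_of_ne_zero hc₁' (by
      rw [Ne, ENNReal.rpow_eq_zero_iff]
      rintro (⟨h1, _⟩ | ⟨h1, _⟩)
      · exact hq0 h1
      · exact hqt h1), ← ENNReal.rpow_mul]
    congr 1
    rw [show ((M : ℝ) / s * -(s / M)) = -1 by field_simp, ENNReal.rpow_neg_one]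
  calc c₀ * ENNReal.ofReal c₁ ^ (s / M) * ENNReal.ofReal y ^ (-(s / M))
      ≤ c₀ * ENNReal.ofReal c₁ ^ (s / M) * (ENNReal.ofReal c₁ ^ (-(s / M)) * (c₀ / J)⁻¹) := by
        rw [← h11]
        gcongr
    _ = c₀ * (c₀ / J)⁻¹ := by
        have h12 : ENNReal.ofReal c₁ ^ (s / M) * ENNReal.ofReal c₁ ^ (-(s / M)) = 1 := by
          rw [← ENNReal.rpow_add _ _ hc₁' ENNReal.ofReal_ne_top, add_neg_cancel,
            ENNReal.rpow_zero]
        rw [mul_assoc, ← mul_assoc (ENNReal.ofReal c₁ ^ (s / M)), h12, one_mul]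
    _ = J := by
        rw [ENNReal.inv_div (Or.inl hJ) (Or.inl hJ0), ENNReal.mul_div_cancel h0 h0']
    _ ≤ J := le_rfl

variable {n : ℕ} {R : RG n} {EF : Type} [NormedAddCommGroup EF] [NormedSpace ℂ EF]
  [FiniteDimensional ℂ EF] [MeasureSpace EF] [BorelSpace EF]
  [(volume : Measure EF).IsAddHaarMeasure] {F : Type}
  [TopologicalSpace F] [CompactSpace F] {κ ι : Type} [Fintype κ] [DecidableEq κ] [Fintype ι]
  [DecidableEq ι] {m : ℕ}

/-- The lower bound of the fibre integral by invariants, from the bound of module JLow. -/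
theorem jinv_of (Φ : Fib R EF F κ ι m) (hm : 1 ≤ m)
    (hJ : ∃ c : ℝ≥0∞, c ≠ 0 ∧ c ≠ ⊤ ∧
      ∀ (k : ℕ → Φ.J) (A : ℕ → Set EF), PcF Φ k A → ∀ (S : ι → ℂ) (g : R.G),
        c * ENNReal.ofReal (nm (Φ.Rs.dual.act g S) ^ Fintype.card κ * ‖(Φ.RN.ρ g).det‖) ^
            (-(2 / (m * Fintype.card κ) : ℝ)) ≤
          ∑' l, ∫⁻ y in A l, Φ.dens S 0 (k l) y) : ∃ M : ℕ, 2 ≤ M ∧ ∃ (p : ℕ)
    (P : Fin p → MvPolynomial ((Fin (Fintype.card κ) → ι) × Unit) ℂ),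
    (∀ i, ((Φ.Rs.dual.pow (Fintype.card κ)).tens Φ.RN.detr).Inv M (P i)) ∧
    ∃ c : ℝ≥0∞, c ≠ 0 ∧ ∀ (k : ℕ → Φ.J) (A : ℕ → Set EF), PcF Φ k A → ∀ S : ι → ℂ,
      c * (∑ i, ‖MvPolynomial.eval (tv (vp (Fintype.card κ) S) (fun _ => 1)) (P i)‖ₑ) ^
          (-(2 / (m * Fintype.card κ * M) : ℝ)) ≤
        ∑' l, ∫⁻ y in A l, Φ.dens S 0 (k l) y := by
  obtain ⟨c₀, h0, h0', hj⟩ := hJ
  obtain ⟨M, hM, p, P, hP, c₁, hc₁, hB⟩ :=
    minB ((Φ.Rs.dual.pow (Fintype.card κ)).tens Φ.RN.detr)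
  refine ⟨M, hM, p, P, hP, ?_⟩
  have hm0 : (0 : ℝ) < m := by exact_mod_cast hm
  have hM0 : (0 : ℝ) < M := by exact_mod_cast (by omega : 0 < M)
  rcases (Fintype.card κ).eq_zero_or_pos with hκ | hκ
  · refine ⟨c₀, h0, fun k A hA S => ?_⟩
    have h1 := hj k A hA S 1
    have e1 : (-(2 / (m * (Fintype.card κ : ℝ) * M)) : ℝ) = 0 := by rw [hκ]; simp
    have e2 : (-(2 / (m * (Fintype.card κ : ℝ))) : ℝ) = 0 := by rw [hκ]; simp
    rw [e2, ENNReal.rpow_zero] at h1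
    rw [e1, ENNReal.rpow_zero]
    exact h1
  have hκ0 : (0 : ℝ) < Fintype.card κ := by exact_mod_cast hκ
  set s : ℝ := 2 / (m * Fintype.card κ) with hs
  have hs0 : 0 < s := by positivity
  have hnm : ∀ (S : ι → ℂ) (g : R.G),
      nm (((Φ.Rs.dual.pow (Fintype.card κ)).tens Φ.RN.detr).act g
        (tv (vp (Fintype.card κ) S) (fun _ => 1))) =
      nm (Φ.Rs.dual.act g S) ^ Fintype.card κ * ‖(Φ.RN.ρ g).det‖ := by
    intro S g
    rw [GRep.act_tens, act_pow, detr_act, nm_tv, jinv_nm_vp, nm_smul]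
    congr 1
    have h1 : nm (fun _ : Unit => (1 : ℂ)) = 1 := by
      unfold nm ns
      simp
    rw [h1, mul_one]
  refine ⟨c₀ * ENNReal.ofReal c₁ ^ (s / M), ?_, fun k A hA S => ?_⟩
  · refine mul_ne_zero h0 ?_
    rw [Ne, ENNReal.rpow_eq_zero_iff]
    rintro (⟨h1, _⟩ | ⟨h1, _⟩)
    · exact (ENNReal.ofReal_pos.2 hc₁).ne' h1
    · exact ENNReal.ofReal_ne_top h1
  have e1 : (-(2 / (m * (Fintype.card κ : ℝ) * M)) : ℝ) = -(s / M) := by
    rw [hs, div_div]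
  have e2 : (∑ i, ‖MvPolynomial.eval (tv (vp (Fintype.card κ) S) (fun _ => 1)) (P i)‖ₑ) =
      ENNReal.ofReal
        (∑ i, ‖MvPolynomial.eval (tv (vp (Fintype.card κ) S) (fun _ => 1)) (P i)‖) := by
    rw [ENNReal.ofReal_sum_of_nonneg fun _ _ => norm_nonneg _]
    exact Finset.sum_congr rfl fun i _ => (ofReal_norm _).symm
  rw [e1, e2]
  exact jinv_key hs0 hc₁ h0 h0' hM
    (fun g : R.G => nm (Φ.Rs.dual.act g S) ^ Fintype.card κ * ‖(Φ.RN.ρ g).det‖) _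
    (fun b hb hg => hB _ b hb fun g => (hg g).trans_eq (hnm S g).symm)
    (fun g => hj k A hA S g)

end Pool.Agent.KX
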