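import Pool.Agent.H.MP_e23cd6_ag.KX.Defs
import Pool.Agent.H.MP_e23cd6_ag.KX.JInv
import Pool.Agent.H.MP_e23cd6_ag.PB.GFinal
/-!
MP_e23cd6_ag: lower bound for the integral over a fibre by the norms of the translates (module JLow).
-/

set_option autoImplicit false
set_option linter.unusedSectionVars false

open scoped ENNReal
open MeasureTheory Matrix Pool.Agent.PG Pool.Agent.SG

namespace Pool.Agent.KX

section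

variable {n : ℕ} {R : RG n} {EF : Type} [NormedAddCommGroup EF] [NormedSpace ℂ EF]
  [FiniteDimensional ℂ EF] [MeasureSpace EF] [BorelSpace EF]
  [(volume : Measure EF).IsAddHaarMeasure] {F : Type}
  [TopologicalSpace F] {κ ι : Type} [Fintype κ] [DecidableEq κ] [Fintype ι]
  [DecidableEq ι] {m : ℕ}

/-- `J_core` for `ε = 0`, with a constant which does not depend on the section. -/
theorem J_core_unif (Φ : Fib R EF F κ ι m) (hm : 1 ≤ m)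
    {i : Φ.J} {K : Set EF} (hK : IsCompact K) (hKt : K ⊆ (Φ.φ i).target)
    (hint : (interior K).Nonempty) :
    ∃ C : ℝ≥0∞, C ≠ ⊤ ∧ C ≠ 0 ∧ ∀ (k : ℕ → Φ.J) (A : ℕ → Set EF), PcF Φ k A → ∀ (S : ι → ℂ)
      (ξ : κ → ℂ), ∑ i, ‖ξ i‖ ≤ 1 → ∀ g : R.G,
      ENNReal.ofReal (nm ((Φ.RN.ρ g)ᵀ *ᵥ ξ)) ^ ((2 : ℝ) / m) *
        ENNReal.ofReal (nm ((Φ.Rs.ρ g)ᵀ *ᵥ S)) ^ (-(2 / m : ℝ)) ≤
      C * ∑' l, ∫⁻ x in A l, Φ.dens S 0 (k l) x := by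
  have hm0 : (0 : ℝ) < m := by exact_mod_cast hm
  have hp3 : (0 : ℝ) ≤ 2 / m := by positivity
  obtain ⟨c, hc, hlow⟩ := low_bound Φ hm hK hKt hint
  obtain ⟨D₀, hD₀⟩ := hK.exists_bound_of_continuousOn
    ((nm_cont (ι := ι)).comp_continuousOn ((σ_cont' Φ i).mono hKt))
  set D := max D₀ 1 with hDdef
  have hD1 : 1 ≤ D := le_max_right _ _
  have hD0 : 0 < D := by linarith
  have hD : ∀ x ∈ K, nm (Φ.σ i ((Φ.φ i).symm x)) ≤ D := fun x hx =>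
    (le_abs_self _).trans ((hD₀ x hx).trans (le_max_left _ _))
  set X : ℝ := 1 with hXdef
  have hX0 : 0 < X := one_pos
  set ε : ℝ := 0 with hεdef
  have hε : 0 ≤ ε := le_rfl
  have hε1 : ε < 1 := by rw [hεdef]; norm_num
  have hne : ∀ {r : ℝ} (p : ℝ), 0 < r → ENNReal.ofReal r ^ p ≠ 0 ∧ ENNReal.ofReal r ^ p ≠ ⊤ := by
    intro r p hr
    rw [ENNReal.ofReal_rpow_of_pos hr]
    exact ⟨(ENNReal.ofReal_pos.2 (by positivity)).ne', ENNReal.ofReal_ne_top⟩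
  set q₀ : ℝ≥0∞ := ENNReal.ofReal D ^ (-(2 * (1 - ε) / m)) * ENNReal.ofReal D ^ (-(2 * ε / m)) *
    (ENNReal.ofReal X ^ (2 / m : ℝ))⁻¹ with hq₀
  have hq0 : q₀ ≠ 0 :=
    mul_ne_zero (mul_ne_zero (hne _ hD0).1 (hne _ hD0).1) (ENNReal.inv_ne_zero.2 (hne _ hX0).2)
  have hqt : q₀ ≠ ⊤ :=
    ENNReal.mul_ne_top (ENNReal.mul_ne_top (hne _ hD0).2 (hne _ hD0).2)
      (ENNReal.inv_ne_top.2 (hne _ hX0).1)
  set c' : ℝ≥0∞ := min c 1 with hc'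
  have hc0 : c' ≠ 0 := by
    rw [hc']
    exact (lt_min (pos_iff_ne_zero.2 hc) one_pos).ne'
  have hct : c' ≠ ⊤ := ne_top_of_le_ne_top ENNReal.one_ne_top (min_le_right _ _)
  have hqc0 : q₀ * c' ≠ 0 := mul_ne_zero hq0 hc0
  have hqct : q₀ * c' ≠ ⊤ := ENNReal.mul_ne_top hqt hct
  refine ⟨(q₀ * c')⁻¹, ENNReal.inv_ne_top.2 hqc0, ENNReal.inv_ne_zero.2 hqct,
    fun k A hPc S ξ hξ g => ?_⟩
  have hXξ : ∑ i, ‖ξ i‖ ≤ X := hξ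
  have h1 : q₀ * c' * (ENNReal.ofReal (nm ((Φ.RN.ρ g)ᵀ *ᵥ ξ)) ^ ((2 : ℝ) / m) *
        ENNReal.ofReal (nm ((Φ.Rs.ρ g)ᵀ *ᵥ S)) ^ (-(2 * (1 - ε) / m)) *
        ENNReal.ofReal (sm (Φ.Rs.ρ g)) ^ (-(2 * ε / m))) ≤ ∫⁻ x in K, jD Φ S ε g i x := by
    calc _ = (ENNReal.ofReal (nm ((Φ.Rs.ρ g)ᵀ *ᵥ S)) ^ (-(2 * (1 - ε) / m)) *
          ENNReal.ofReal (sm (Φ.Rs.ρ g)) ^ (-(2 * ε / m)) * q₀) *
          (c' * ENNReal.ofReal (nm ((Φ.RN.ρ g)ᵀ *ᵥ ξ)) ^ ((2 : ℝ) / m)) := by ring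
      _ ≤ (ENNReal.ofReal (nm ((Φ.Rs.ρ g)ᵀ *ᵥ S)) ^ (-(2 * (1 - ε) / m)) *
          ENNReal.ofReal (sm (Φ.Rs.ρ g)) ^ (-(2 * ε / m)) * q₀) *
          ∫⁻ x in K, ‖((Φ.RN.ρ g)ᵀ *ᵥ ξ) ⬝ᵥ Φ.v i ((Φ.φ i).symm x)‖ₑ ^ ((2 : ℝ) / m) := by
          refine mul_le_mul' le_rfl (le_trans ?_ (hlow _))
          exact mul_le_mul' (min_le_left _ _) le_rfl
      _ ≤ ∫⁻ x in K, (ENNReal.ofReal (nm ((Φ.Rs.ρ g)ᵀ *ᵥ S)) ^ (-(2 * (1 - ε) / m)) *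
          ENNReal.ofReal (sm (Φ.Rs.ρ g)) ^ (-(2 * ε / m)) * q₀) *
          ‖((Φ.RN.ρ g)ᵀ *ᵥ ξ) ⬝ᵥ Φ.v i ((Φ.φ i).symm x)‖ₑ ^ ((2 : ℝ) / m) :=
          lintegral_const_mul_le _ _
      _ ≤ _ := setLIntegral_mono' hK.measurableSet fun x hx =>
          jD_ge Φ hm S hε hε1 ξ g i hX0 (hD x hx) hXξ
  have h2 := h1.trans (int_jD_le Φ hm S ε hPc.1 hPc.2 hK.measurableSet hKt g)
  have h3 : ENNReal.ofReal (nm ((Φ.RN.ρ g)ᵀ *ᵥ ξ)) ^ ((2 : ℝ) / m) *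
        ENNReal.ofReal (nm ((Φ.Rs.ρ g)ᵀ *ᵥ S)) ^ (-(2 * (1 - ε) / m)) *
        ENNReal.ofReal (sm (Φ.Rs.ρ g)) ^ (-(2 * ε / m)) =
      ENNReal.ofReal (nm ((Φ.RN.ρ g)ᵀ *ᵥ ξ)) ^ ((2 : ℝ) / m) *
        ENNReal.ofReal (nm ((Φ.Rs.ρ g)ᵀ *ᵥ S)) ^ (-(2 / m : ℝ)) := by
    have e1 : (-(2 * ε / m) : ℝ) = 0 := by rw [hεdef]; simp
    have e2 : (-(2 * (1 - ε) / m) : ℝ) = -(2 / m) := by rw [hεdef]; ring
    rw [e1, e2, ENNReal.rpow_zero, mul_one]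
  rw [h3] at h2
  calc _ = (q₀ * c')⁻¹ * (q₀ * c' * (ENNReal.ofReal (nm ((Φ.RN.ρ g)ᵀ *ᵥ ξ)) ^ ((2 : ℝ) / m) *
        ENNReal.ofReal (nm ((Φ.Rs.ρ g)ᵀ *ᵥ S)) ^ (-(2 / m : ℝ)))) := by
        rw [← mul_assoc (q₀ * c')⁻¹, ENNReal.inv_mul_cancel hqc0 hqct, one_mul]
    _ ≤ (q₀ * c')⁻¹ * ∑' l, ∫⁻ x in A l, Φ.dens S 0 (k l) x := by
        refine mul_le_mul' le_rfl (h2.trans ?_)
        exact ENNReal.tsum_le_tsum fun l => lintegral_mono_set Set.inter_subset_left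

/-- Some row of a matrix is at least as large as a power of the determinant. -/
theorem row_ge [Nonempty κ] (B : Matrix κ κ ℂ) : ∃ β : κ,
    ‖B.det‖ ≤ (Fintype.card κ).factorial *
      nm (Bᵀ *ᵥ (Pi.single β (1 : ℂ) : κ → ℂ)) ^ Fintype.card κ := by
  obtain ⟨β, -, hβ⟩ := Finset.exists_max_image Finset.univ
    (fun β : κ => nm (Bᵀ *ᵥ (Pi.single β (1 : ℂ) : κ → ℂ))) Finset.univ_nonempty
  refine ⟨β, ?_⟩
  have h1 : ∀ i j, (NormedField.toAbsoluteValue ℂ) (B i j) ≤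
      nm (Bᵀ *ᵥ (Pi.single β (1 : ℂ) : κ → ℂ)) := by
    intro i j
    refine le_trans ?_ (hβ i (Finset.mem_univ _))
    have h2 := Pool.Agent.PB.norm_le_nm (Bᵀ *ᵥ (Pi.single i (1 : ℂ) : κ → ℂ)) j
    have h3 : (Bᵀ *ᵥ (Pi.single i (1 : ℂ) : κ → ℂ)) j = B i j := by
      simp [Matrix.mulVec_single]
    rw [h3] at h2
    exact h2
  have h2 := Matrix.det_le h1
  rw [nsmul_eq_mul] at h2
  exact h2

/-- MODULE JLow. -/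
theorem jlow (Φ : Fib R EF F κ ι m) (hm : 1 ≤ m) : ∃ c : ℝ≥0∞, c ≠ 0 ∧ c ≠ ⊤ ∧
    ∀ (k : ℕ → Φ.J) (A : ℕ → Set EF), PcF Φ k A → ∀ (S : ι → ℂ) (g : R.G),
      c * ENNReal.ofReal (nm (Φ.Rs.dual.act g S) ^ Fintype.card κ * ‖(Φ.RN.ρ g).det‖) ^
          (-(2 / (m * Fintype.card κ) : ℝ)) ≤
        ∑' l, ∫⁻ y in A l, Φ.dens S 0 (k l) y := by
  have hm0 : (0 : ℝ) < m := by exact_mod_cast hm
  obtain ⟨i, y, hy⟩ := Φ.ne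
  have hκ : Nonempty κ := by
    by_contra h
    rw [not_nonempty_iff] at h
    exact Φ.v_ne i y (Φ.sub i hy) (funext fun a => (h.false a).elim)
  have hN : 0 < Fintype.card κ := Fintype.card_pos
  obtain ⟨N, hNdef⟩ : ∃ N, N = Fintype.card κ := ⟨_, rfl⟩
  rw [← hNdef] at hN ⊢
  have hN0 : (0 : ℝ) < N := by exact_mod_cast hN
  have hx₀ : Φ.φ i y ∈ (Φ.φ i).target := (Φ.φ i).map_source hy
  obtain ⟨r, hr, hball⟩ := Metric.nhds_basis_closedBall.mem_iff.1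
    ((Φ.φ i).open_target.mem_nhds hx₀)
  have : ProperSpace EF := FiniteDimensional.proper ℂ EF
  obtain ⟨C, hCt, hC0, h⟩ := J_core_unif Φ hm (isCompact_closedBall (Φ.φ i y) r) hball
    ⟨Φ.φ i y, Metric.ball_subset_interior_closedBall (Metric.mem_ball_self hr)⟩
  obtain ⟨s, hs⟩ : ∃ s : ℝ, s = 2 / m := ⟨_, rfl⟩
  have hs0 : 0 < s := by rw [hs]; positivity
  have hsN : 0 < s / N := by positivity
  obtain ⟨f, hf⟩ : ∃ f : ℝ, f = (N.factorial : ℝ) := ⟨_, rfl⟩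
  have hf0 : 0 < f := by rw [hf]; exact_mod_cast N.factorial_pos
  have hfE0 : ENNReal.ofReal f ^ (s / N) ≠ 0 := by
    rw [ENNReal.ofReal_rpow_of_pos hf0]
    exact (ENNReal.ofReal_pos.2 (by positivity)).ne'
  have hfEt : ENNReal.ofReal f ^ (s / N) ≠ ⊤ :=
    ENNReal.rpow_ne_top_of_nonneg hsN.le ENNReal.ofReal_ne_top
  refine ⟨C⁻¹ * (ENNReal.ofReal f ^ (s / N))⁻¹,
    mul_ne_zero (ENNReal.inv_ne_zero.2 hCt) (ENNReal.inv_ne_zero.2 hfEt),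
    ENNReal.mul_ne_top (ENNReal.inv_ne_top.2 hC0) (ENNReal.inv_ne_top.2 hfE0),
    fun k A hPc S g => ?_⟩
  obtain ⟨J, hJ⟩ : ∃ J, J = ∑' l, ∫⁻ y in A l, Φ.dens S 0 (k l) y := ⟨_, rfl⟩
  rw [← hJ]
  obtain ⟨β, hβ⟩ := row_ge (Φ.RN.ρ g⁻¹)
  have h1 := h k A hPc S (Pi.single β (1 : ℂ) : κ → ℂ) (by
    rw [Finset.sum_eq_single β]
    · simp
    · intro b _ hb
      simp [Pi.single_eq_of_ne hb]
    · intro hb
      exact absurd (Finset.mem_univ _) hb) g⁻¹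
  rw [← hJ, ← hs] at h1
  obtain ⟨x, hx⟩ : ∃ x, x = nm ((Φ.RN.ρ g⁻¹)ᵀ *ᵥ (Pi.single β (1 : ℂ) : κ → ℂ)) := ⟨_, rfl⟩
  obtain ⟨b, hb⟩ : ∃ b, b = nm (Φ.Rs.dual.act g S) := ⟨_, rfl⟩
  have hb' : nm ((Φ.Rs.ρ g⁻¹)ᵀ *ᵥ S) = b := by rw [hb]; rfl
  rw [← hx, hb'] at h1
  rw [← hx, ← hNdef, ← hf] at hβ
  rw [← hb]
  obtain ⟨d, hd⟩ : ∃ d, d = ‖(Φ.RN.ρ g).det‖ := ⟨_, rfl⟩
  rw [← hd]
  have hb0 : 0 ≤ b := by rw [hb]; exact nm_nonneg _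
  have hx0 : 0 ≤ x := by rw [hx]; exact nm_nonneg _
  have hdd : d * ‖(Φ.RN.ρ g⁻¹).det‖ = 1 := by
    rw [hd, ← norm_mul, ← Matrix.det_mul, ← map_mul, mul_inv_cancel, map_one, Matrix.det_one,
      norm_one]
  have hd0 : 0 < d := by
    rcases (show 0 ≤ d by rw [hd]; exact norm_nonneg _).eq_or_lt with h0 | h0
    · rw [← h0, zero_mul] at hdd
      exact absurd hdd zero_ne_one
    · exact h0
  have hdx : 1 ≤ d * (f * x ^ N) := by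
    rw [← hdd]
    exact mul_le_mul_of_nonneg_left hβ hd0.le
  -- the exponents
  have hexp : (-(2 / (m * N) : ℝ)) = -(s / N) := by
    rw [hs]
    field_simp
  rw [hexp, ENNReal.ofReal_mul (by positivity), ENNReal.mul_rpow_of_ne_top ENNReal.ofReal_ne_top
    ENNReal.ofReal_ne_top]
  have h2 : ENNReal.ofReal (b ^ N) ^ (-(s / N)) = ENNReal.ofReal b ^ (-s) := by
    rw [ENNReal.ofReal_pow hb0, ← ENNReal.rpow_natCast, ← ENNReal.rpow_mul]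
    congr 1
    field_simp
  have h3 : ENNReal.ofReal d ^ (-(s / N)) ≤
      ENNReal.ofReal f ^ (s / N) * ENNReal.ofReal x ^ s := by
    have h4 : ENNReal.ofReal x ^ s = ENNReal.ofReal (x ^ N) ^ (s / N) := by
      rw [ENNReal.ofReal_pow hx0, ← ENNReal.rpow_natCast, ← ENNReal.rpow_mul]
      congr 1
      field_simp
    rw [h4, ← ENNReal.mul_rpow_of_ne_top ENNReal.ofReal_ne_top ENNReal.ofReal_ne_top,
      ← ENNReal.ofReal_mul hf0.le, ENNReal.rpow_neg, ← ENNReal.inv_rpow]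
    refine ENNReal.rpow_le_rpow ?_ hsN.le
    rw [← ENNReal.ofReal_inv_of_pos hd0]
    refine ENNReal.ofReal_le_ofReal ?_
    rw [inv_le_iff_one_le_mul₀ hd0]
    linarith
  rw [h2]
  calc C⁻¹ * (ENNReal.ofReal f ^ (s / N))⁻¹ *
        (ENNReal.ofReal b ^ (-s) * ENNReal.ofReal d ^ (-(s / N)))
      ≤ C⁻¹ * (ENNReal.ofReal f ^ (s / N))⁻¹ *
        (ENNReal.ofReal b ^ (-s) * (ENNReal.ofReal f ^ (s / N) * ENNReal.ofReal x ^ s)) := by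
        gcongr
    _ = C⁻¹ * (((ENNReal.ofReal f ^ (s / N))⁻¹ * ENNReal.ofReal f ^ (s / N)) *
        (ENNReal.ofReal x ^ s * ENNReal.ofReal b ^ (-s))) := by ring
    _ = C⁻¹ * (ENNReal.ofReal x ^ s * ENNReal.ofReal b ^ (-s)) := by
        rw [ENNReal.inv_mul_cancel hfE0 hfEt, one_mul]
    _ ≤ C⁻¹ * (C * J) := by gcongr
    _ = J := by rw [← mul_assoc, ENNReal.inv_mul_cancel hC0 hCt, one_mul]

/-- MODULE JInv. -/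
theorem jinv [CompactSpace F] (Φ : Fib R EF F κ ι m) (hm : 1 ≤ m) : ∃ M : ℕ, 2 ≤ M ∧ ∃ (p : ℕ)
    (P : Fin p → MvPolynomial ((Fin (Fintype.card κ) → ι) × Unit) ℂ),
    (∀ i, ((Φ.Rs.dual.pow (Fintype.card κ)).tens Φ.RN.detr).Inv M (P i)) ∧
    ∃ c : ℝ≥0∞, c ≠ 0 ∧ ∀ (k : ℕ → Φ.J) (A : ℕ → Set EF), PcF Φ k A → ∀ S : ι → ℂ,
      c * (∑ i, ‖MvPolynomial.eval (tv (vp (Fintype.card κ) S) (fun _ => 1)) (P i)‖ₑ) ^
          (-(2 / (m * Fintype.card κ * M) : ℝ)) ≤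
        ∑' l, ∫⁻ y in A l, Φ.dens S 0 (k l) y :=
  jinv_of Φ hm (jlow Φ hm)

end

end Pool.Agent.KX
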