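import Pool.Agent.H.MP_e23cd6_ag.PB.GFinal
import Pool.Agent.H.MP_e23cd6_ag.KX.InvP
import Pool.Agent.H.MP_e23cd6_ag.KX.Defs

/-!
# The strict numerical inequality of a klt fibre pair: all subgroups which act non-trivially
-/

set_option autoImplicit false

open scoped Manifold ContDiff ENNReal
open MeasureTheory Matrix Pool.Agent.PG Pool.Agent.SG

namespace Pool.Agent.KX

variable {n : ℕ} {R : RG n} {EF : Type} [NormedAddCommGroup EF] [NormedSpace ℂ EF]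
  {F : Type} [TopologicalSpace F] {κ ι : Type} [Fintype κ] [DecidableEq κ] [Fintype ι]
  [DecidableEq ι] {m : ℕ}

section box

theorem σ_cont (Φ : Fib R EF F κ ι m) (j : Φ.J) (δ : ι) :
    ContinuousOn (fun x => Φ.σ j ((Φ.φ j).symm x) δ) (Φ.φ j).target :=
  (Φ.σ_hol j δ).continuousOn

/-- A chart point at which two given sections of `N ⊗ K_F ^ (-m)` do not vanish. -/
theorem exists_pt2 (Φ : Fib R EF F κ ι m) (hσ : SND Φ) (β γ : ι) :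
    ∃ i, ∃ x ∈ (Φ.φ i).target, Φ.σ i ((Φ.φ i).symm x) β ≠ 0 ∧ Φ.σ i ((Φ.φ i).symm x) γ ≠ 0 := by
  obtain ⟨i, hi⟩ := Φ.ne
  have hs : ∀ δ : ι, (Pi.single δ (1 : ℂ) : ι → ℂ) ≠ 0 := fun δ h => by
    have := congrFun h δ
    simp at this
  have hd : ∀ (δ : ι) (w : ι → ℂ), (Pi.single δ (1 : ℂ) : ι → ℂ) ⬝ᵥ w = w δ := fun δ w => by
    simp
  have key : ∀ (δ : ι) (V : Set EF), IsOpen V → V.Nonempty → V ⊆ (Φ.φ i).target →
      ∃ x ∈ V, Φ.σ i ((Φ.φ i).symm x) δ ≠ 0 := by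
    intro δ V hV hne hsub
    have hU : IsOpen ((Φ.φ i).source ∩ Φ.φ i ⁻¹' V) := (Φ.φ i).isOpen_inter_preimage hV
    have hUne : ((Φ.φ i).source ∩ Φ.φ i ⁻¹' V).Nonempty := by
      obtain ⟨x, hx⟩ := hne
      refine ⟨(Φ.φ i).symm x, (Φ.φ i).map_target (hsub hx), ?_⟩
      show Φ.φ i ((Φ.φ i).symm x) ∈ V
      rw [(Φ.φ i).right_inv (hsub hx)]
      exact hx
    obtain ⟨j, y, hy, hv⟩ := hσ _ hU hUne _ (hs δ)
    rw [hd] at hv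
    refine ⟨Φ.φ i y, hy.1.2, fun h0 => hv ?_⟩
    rw [(Φ.φ i).left_inv hy.1.1] at h0
    obtain ⟨t, -, ht⟩ := Φ.equi 1 j i y (Φ.sub i hy.1.1) (by
      rw [Φ.one]
      exact Φ.sub j hy.2)
    have h1 := ht hy.1.1 (by
      rw [Φ.one]
      exact hy.2)
    rw [Φ.one, map_one, Matrix.one_mulVec] at h1
    rw [h1, Pi.smul_apply, h0, smul_zero]
  obtain ⟨x₁, hx₁, hv₁⟩ := key β _ (Φ.φ i).open_target (by
    obtain ⟨y, hy⟩ := hi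
    exact ⟨Φ.φ i y, (Φ.φ i).map_source hy⟩) subset_rfl
  have hU : IsOpen ((Φ.φ i).target ∩ (fun x => Φ.σ i ((Φ.φ i).symm x) β) ⁻¹' {0}ᶜ) :=
    (σ_cont Φ i β).isOpen_inter_preimage (Φ.φ i).open_target isOpen_compl_singleton
  obtain ⟨x₂, hx₂, hv₂⟩ := key γ _ hU ⟨x₁, hx₁, hv₁⟩ Set.inter_subset_left
  exact ⟨i, x₂, hx₂.1, hx₂.2, hv₂⟩

/-- A compact box in a chart on which two given sections of `N ⊗ K_F ^ (-m)` do not vanish. -/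
theorem exists_box2 [FiniteDimensional ℂ EF] (Φ : Fib R EF F κ ι m) (hσ : SND Φ) (β γ : ι) :
    ∃ i, ∃ K : Set EF, IsCompact K ∧ K ⊆ (Φ.φ i).target ∧ (interior K).Nonempty ∧
      ∀ x ∈ K, Φ.σ i ((Φ.φ i).symm x) β ≠ 0 ∧ Φ.σ i ((Φ.φ i).symm x) γ ≠ 0 := by
  obtain ⟨i, x, hx, h1, h2⟩ := exists_pt2 Φ hσ β γ
  have : ProperSpace EF := FiniteDimensional.proper ℂ EF
  have hU1 : IsOpen ((Φ.φ i).target ∩ (fun x => Φ.σ i ((Φ.φ i).symm x) β) ⁻¹' {0}ᶜ) :=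
    (σ_cont Φ i β).isOpen_inter_preimage (Φ.φ i).open_target isOpen_compl_singleton
  have hU2 : IsOpen ((Φ.φ i).target ∩ (fun x => Φ.σ i ((Φ.φ i).symm x) γ) ⁻¹' {0}ᶜ) :=
    (σ_cont Φ i γ).isOpen_inter_preimage (Φ.φ i).open_target isOpen_compl_singleton
  obtain ⟨K, hK, hxK, hKU⟩ := exists_compact_subset (hU1.inter hU2) ⟨⟨hx, h1⟩, ⟨hx, h2⟩⟩
  exact ⟨i, K, hK, fun x h => (hKU h).1.1, ⟨_, hxK⟩, fun x h => ⟨(hKU h).1.2, (hKU h).2.2⟩⟩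

/-- The translates of the box by the elements `exp (s H)` are disjoint from it for large `s`. -/
theorem box_disj2 (Φ : Fib R EF F κ ι m) {β γ : ι} {i : Φ.J} {K : Set EF} (hK : IsCompact K)
    (hKt : K ⊆ (Φ.φ i).target)
    (hv : ∀ x ∈ K, Φ.σ i ((Φ.φ i).symm x) β ≠ 0 ∧ Φ.σ i ((Φ.φ i).symm x) γ ≠ 0)
    {H : Fin n → ℝ} (hH : H ∈ R.a) (hne : Φ.Rs.lam β H ≠ Φ.Rs.lam γ H) :
    ∃ τ : ℝ, 0 < τ ∧ ∀ s : ℝ, τ ≤ |s| → ∀ h : R.G, mx h = dE H s → ∀ x ∈ K, ∀ x' ∈ K,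
      Φ.act h ((Φ.φ i).symm x) ≠ (Φ.φ i).symm x' := by
  have hc : ∀ δ, ContinuousOn (fun x => Φ.σ i ((Φ.φ i).symm x) δ) K := fun δ =>
    (σ_cont Φ i δ).mono hKt
  have hq : ContinuousOn (fun x => Real.log ‖Φ.σ i ((Φ.φ i).symm x) β‖ -
      Real.log ‖Φ.σ i ((Φ.φ i).symm x) γ‖) K :=
    ((hc β).norm.log fun x hx => norm_ne_zero_iff.2 (hv x hx).1).sub
      ((hc γ).norm.log fun x hx => norm_ne_zero_iff.2 (hv x hx).2)
  obtain ⟨C, hC⟩ := hK.exists_bound_of_continuousOn hq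
  have hδ : 0 < |Φ.Rs.lam β H - Φ.Rs.lam γ H| := abs_pos.2 (sub_ne_zero.2 hne)
  refine ⟨(2 * |C| + 1) / |Φ.Rs.lam β H - Φ.Rs.lam γ H|, by positivity, ?_⟩
  intro s hs h hh x hx x' hx' heq
  have hy : (Φ.φ i).symm x ∈ (Φ.φ i).source := (Φ.φ i).map_target (hKt hx)
  have hy' : (Φ.φ i).symm x' ∈ (Φ.φ i).source := (Φ.φ i).map_target (hKt hx')
  obtain ⟨t₀, -, ht⟩ := Φ.equi h i i _ (Φ.sub i hy) (by rw [heq]; exact Φ.sub i hy')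
  replace ht := ht hy (by rw [heq]; exact hy')
  rw [heq, Φ.Rs.diag H hH s h hh] at ht
  obtain ⟨t, htdef⟩ : ∃ t, t = t₀ * (fderiv ℂ (Φ.φ i ∘ Φ.act h ∘ (Φ.φ i).symm)
    (Φ.φ i ((Φ.φ i).symm x))).det ^ m := ⟨_, rfl⟩
  rw [← htdef] at ht
  have hcomp : ∀ δ, Φ.σ i ((Φ.φ i).symm x') δ =
      t * (Complex.exp ((s : ℂ) * Φ.Rs.lam δ H) * Φ.σ i ((Φ.φ i).symm x) δ) := by
    intro δ
    rw [ht, Pi.smul_apply, Matrix.mulVec_diagonal, smul_eq_mul]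
  have ht0 : t ≠ 0 := by
    intro h0
    apply (hv x' hx').1
    rw [hcomp, h0, zero_mul]
  have hlog : ∀ δ, Φ.σ i ((Φ.φ i).symm x) δ ≠ 0 → Real.log ‖Φ.σ i ((Φ.φ i).symm x') δ‖ =
      Real.log ‖t‖ + (s * Φ.Rs.lam δ H + Real.log ‖Φ.σ i ((Φ.φ i).symm x) δ‖) := by
    intro δ hδ0
    rw [hcomp, norm_mul, norm_mul, norm_exp_mul, Real.log_mul (norm_ne_zero_iff.2 ht0)
      (mul_ne_zero (Real.exp_pos _).ne' (norm_ne_zero_iff.2 hδ0)),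
      Real.log_mul (Real.exp_pos _).ne' (norm_ne_zero_iff.2 hδ0), Real.log_exp]
  have h1 := hlog β (hv x hx).1
  have h2 := hlog γ (hv x hx).2
  have h3 : |s * (Φ.Rs.lam β H - Φ.Rs.lam γ H)| ≤ 2 * |C| := by
    have h4 := hC x hx
    have h5 := hC x' hx'
    rw [Real.norm_eq_abs] at h4 h5
    have h6 : s * (Φ.Rs.lam β H - Φ.Rs.lam γ H) =
        (Real.log ‖Φ.σ i ((Φ.φ i).symm x') β‖ - Real.log ‖Φ.σ i ((Φ.φ i).symm x') γ‖) -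
        (Real.log ‖Φ.σ i ((Φ.φ i).symm x) β‖ - Real.log ‖Φ.σ i ((Φ.φ i).symm x) γ‖) := by
      rw [h1, h2]; ring
    rw [h6]
    refine (abs_sub _ _).trans ?_
    have h7 := le_abs_self C
    linarith
  rw [abs_mul] at h3
  rw [div_le_iff₀ hδ] at hs
  linarith

end box

variable [FiniteDimensional ℂ EF] [MeasureSpace EF] [BorelSpace EF]

theorem num_klt_aux2 [CompactSpace F] (Φ : Fib R EF F κ ι m) (hm : 1 ≤ m) {S : ι → ℂ}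
    (hS : Φ.Klt S)
    (hJ : ∀ (k : ℕ → Φ.J) (A : ℕ → Set EF),
      (∀ l, MeasurableSet (A l) ∧ A l ⊆ (Φ.φ (k l)).target) →
      (∀ j, ∀ y ∈ (Φ.φ j).source, ∃ l, y ∈ (Φ.φ (k l)).source ∧ Φ.φ (k l) y ∈ A l) →
      ∀ (i : Φ.J) (K : Set EF), IsCompact K → K ⊆ (Φ.φ i).target → (interior K).Nonempty →
      ∀ ξ : κ → ℂ, ∃ C : ℝ≥0∞, C ≠ ⊤ ∧ ∀ g : R.G,
        ENNReal.ofReal (nm ((Φ.RN.ρ g)ᵀ *ᵥ ξ)) ^ ((2 : ℝ) / m) *
          ENNReal.ofReal (nm ((Φ.Rs.ρ g)ᵀ *ᵥ S)) ^ (-(2 * (1 - (0 : ℝ)) / m)) *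
          ENNReal.ofReal (sm (Φ.Rs.ρ g)) ^ (-(2 * (0 : ℝ) / m)) ≤
        C * ∑' l, ∫⁻ x in A l ∩ {x | ∃ x' ∈ K, Φ.act g ((Φ.φ i).symm x') = (Φ.φ (k l)).symm x},
          Φ.dens S 0 (k l) x)
    {H : Fin n → ℝ} (hH : H ∈ R.a) (hbox : ∃ i, ∃ K : Set EF, IsCompact K ∧
      K ⊆ (Φ.φ i).target ∧ (interior K).Nonempty ∧ ∃ τ : ℝ, 0 < τ ∧ ∀ s : ℝ, τ ≤ |s| →
        ∀ h : R.G, mx h = dE H s → ∀ x ∈ K, ∀ x' ∈ K,
          Φ.act h ((Φ.φ i).symm x) ≠ (Φ.φ i).symm x') (k : R.G) (β : κ) : ∃ α,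
    Φ.Rs.dual.act k S α ≠ 0 ∧ Φ.RN.dual.lam β H < Φ.Rs.dual.lam α H := by
  by_contra hcon
  push Not at hcon
  obtain ⟨kk, A, hA, hcov, hfin⟩ := Klt_fin Φ hS
  obtain ⟨i, K, hK, hKt, hint, τ, hτ, hdisj⟩ := hbox
  have hm0 : (0 : ℝ) < m := by exact_mod_cast hm
  have hp : (0 : ℝ) < 2 / m := by positivity
  -- the elements `exp (j τ H)`
  choose h hh using fun j : ℕ => R.tor H hH (((j : ℝ) * τ : ℝ) : ℂ)
  have hhG : ∀ j : ℕ, ∃ g : R.G, mx g = dE H (((j : ℝ) * τ : ℝ) : ℂ) := fun j =>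
    ⟨⟨h j, (hh j).1⟩, (hh j).2⟩
  choose e he using hhG
  obtain ⟨g, hg⟩ : ∃ g : ℕ → R.G, ∀ j, g j = k⁻¹ * (e j)⁻¹ := ⟨_, fun _ => rfl⟩
  have hginv : ∀ j, (g j)⁻¹ = e j * k := fun j => by rw [hg, _root_.mul_inv_rev, inv_inv, inv_inv]
  obtain ⟨ξ, hξ⟩ : ∃ ξ, ξ = Φ.RN.dual.act k⁻¹ (Pi.single β (1 : ℂ)) := ⟨_, rfl⟩
  obtain ⟨C, hC, hJ⟩ := hJ kk A hA (fun j y hy => hcov j y ⟨Set.mem_univ _, hy⟩) i K hK hKt hint ξ
  -- the size of the two vectors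
  obtain ⟨E, hE⟩ : ∃ E : ℕ → ℝ, ∀ j, E j = Real.exp (((j : ℝ) * τ) * Φ.RN.dual.lam β H) :=
    ⟨_, fun _ => rfl⟩
  have hX : ∀ j, nm ((Φ.RN.ρ (g j))ᵀ *ᵥ ξ) = E j * nm (Pi.single β (1 : ℂ) : κ → ℂ) := by
    intro j
    have h1 : (Φ.RN.ρ (g j))ᵀ *ᵥ ξ = Φ.RN.dual.act (e j) (Φ.RN.dual.act k ξ) := by
      rw [← GRep.act_mul, ← hginv]
      show _ = (Φ.RN.ρ ((g j)⁻¹)⁻¹)ᵀ *ᵥ ξ
      rw [inv_inv]
    have h2 : Φ.RN.dual.act k ξ = Pi.single β (1 : ℂ) := by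
      rw [hξ, ← GRep.act_mul, mul_inv_cancel, GRep.act_one]
    have h3 : Φ.RN.dual.act (e j) (Pi.single β (1 : ℂ)) =
        Complex.exp ((((j : ℝ) * τ : ℝ) : ℂ) * Φ.RN.dual.lam β H) • (Pi.single β (1 : ℂ)) := by
      funext δ
      unfold GRep.act
      rw [Φ.RN.dual.diag H hH _ (e j) (he j), Matrix.mulVec_diagonal, Pi.smul_apply, smul_eq_mul]
      by_cases hδ : δ = β
      · rw [hδ]
      · rw [Pi.single_eq_of_ne hδ, mul_zero, mul_zero]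
    rw [h1, h2, h3, nm_smul, norm_exp_mul, hE]
  have hY : ∀ j, nm ((Φ.Rs.ρ (g j))ᵀ *ᵥ S) ≤ E j * nm (Φ.Rs.dual.act k S) := by
    intro j
    have h1 : (Φ.Rs.ρ (g j))ᵀ *ᵥ S = Φ.Rs.dual.act (e j) (Φ.Rs.dual.act k S) := by
      rw [← GRep.act_mul, ← hginv]
      show _ = (Φ.Rs.ρ ((g j)⁻¹)⁻¹)ᵀ *ᵥ S
      rw [inv_inv]
    have hE0 : 0 < E j := by rw [hE]; exact Real.exp_pos _
    have h2 : E j * nm (Φ.Rs.dual.act k S) = nm (((E j : ℝ) : ℂ) • Φ.Rs.dual.act k S) := by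
      rw [nm_smul, Complex.norm_real, Real.norm_eq_abs, abs_of_pos hE0]
    rw [h1, h2]
    refine Pool.Agent.PB.nm_mono fun α => ?_
    have h3 : Φ.Rs.dual.act (e j) (Φ.Rs.dual.act k S) α =
        Complex.exp ((((j : ℝ) * τ : ℝ) : ℂ) * Φ.Rs.dual.lam α H) * Φ.Rs.dual.act k S α := by
      show ((Φ.Rs.dual.ρ (e j)) *ᵥ (Φ.Rs.dual.act k S)) α = _
      rw [Φ.Rs.dual.diag H hH _ (e j) (he j), Matrix.mulVec_diagonal]
    rw [h3, Pi.smul_apply, smul_eq_mul, norm_mul, norm_mul, norm_exp_mul, Complex.norm_real,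
      Real.norm_eq_abs, abs_of_pos hE0]
    by_cases h4 : Φ.Rs.dual.act k S α = 0
    · rw [h4, norm_zero, mul_zero, mul_zero]
    · refine mul_le_mul_of_nonneg_right ?_ (norm_nonneg _)
      rw [hE]
      exact Real.exp_le_exp.2 (mul_le_mul_of_nonneg_left (hcon α h4) (by positivity))
  -- the lower bound for the masses
  obtain ⟨c, hc⟩ : ∃ c : ℝ≥0∞, c = ENNReal.ofReal (nm (Pi.single β (1 : ℂ) : κ → ℂ)) ^ ((2 : ℝ) / m) *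
      (ENNReal.ofReal (nm (Φ.Rs.dual.act k S)) ^ ((2 : ℝ) / m))⁻¹ := ⟨_, rfl⟩
  have hc0 : c ≠ 0 := by
    rw [hc]
    refine mul_ne_zero ?_ (ENNReal.inv_ne_zero.2
      (ENNReal.rpow_ne_top_of_nonneg hp.le ENNReal.ofReal_ne_top))
    rw [ne_eq, ENNReal.rpow_eq_zero_iff]
    have h1 : 0 < nm (Pi.single β (1 : ℂ) : κ → ℂ) := by
      refine lt_of_lt_of_le one_pos ?_
      have h0 := Pool.Agent.PB.norm_le_nm (Pi.single β (1 : ℂ) : κ → ℂ) β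
      rwa [Pi.single_eq_same, norm_one] at h0
    push Not
    exact ⟨fun h2 => absurd h2 (ENNReal.ofReal_pos.2 h1).ne',
      fun h2 => absurd h2 ENNReal.ofReal_ne_top⟩
  obtain ⟨D, hD⟩ : ∃ D : ℕ → ℕ → Set EF, ∀ j l, D j l = A l ∩ trn Φ i (kk l) K (g j) :=
    ⟨_, fun _ _ => rfl⟩
  have hlow : ∀ j, c ≤ C * ∑' l, ∫⁻ x in D j l, Φ.dens S 0 (kk l) x := by
    intro j
    have h1 := hJ (g j)
    have h2 : (-(2 * (1 - (0 : ℝ)) / (m : ℝ))) = -((2 : ℝ) / m) := by ring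
    have h3 : (-(2 * (0 : ℝ) / (m : ℝ))) = 0 := by ring
    rw [h2, h3, ENNReal.rpow_zero, mul_one] at h1
    have h4 := ennr_le (a := nm (Pi.single β (1 : ℂ) : κ → ℂ)) (b := nm (Φ.Rs.dual.act k S))
      (by rw [hE]; exact Real.exp_pos _) (hX j) (hY j) hp
    rw [← hc] at h4
    refine h4.trans (h1.trans (le_of_eq ?_))
    simp only [hD]
    rfl
  -- the translates are disjoint
  have hdis : ∀ l, Pairwise (Function.onFun Disjoint fun j => D j l) := by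
    intro l p q hpq
    rw [Function.onFun, Set.disjoint_left]
    rintro x hx hx'
    rw [hD] at hx hx'
    obtain ⟨-, x₁, hx₁, e₁⟩ := hx
    obtain ⟨-, x₂, hx₂, e₂⟩ := hx'
    have h1 : Φ.act (g p) ((Φ.φ i).symm x₁) = Φ.act (g q) ((Φ.φ i).symm x₂) := by rw [e₁, e₂]
    have h2 : Φ.act ((g q)⁻¹ * g p) ((Φ.φ i).symm x₁) = (Φ.φ i).symm x₂ := by
      rw [Φ.mul]
      exact act_inv_eq Φ (g q) h1.symm
    refine hdisj (((q : ℝ) - p) * τ) ?_ _ ?_ x₁ hx₁ x₂ hx₂ h2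
    · rw [abs_mul, abs_of_pos hτ]
      have h3 : (1 : ℝ) ≤ |(q : ℝ) - p| := by
        have h4 : (1 : ℤ) ≤ |(q : ℤ) - p| := Int.one_le_abs (sub_ne_zero.2 (by exact_mod_cast hpq.symm))
        exact_mod_cast h4
      calc τ = 1 * τ := (one_mul τ).symm
        _ ≤ _ := mul_le_mul_of_nonneg_right h3 hτ.le
    · have h3 : (g q)⁻¹ * g p = e q * (e p)⁻¹ := by
        rw [hginv, hg]
        group
      rw [h3, mx_mul, he, GRep.mx_inv_dE (he p)]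
      unfold dE
      rw [Matrix.diagonal_mul_diagonal]
      congr 1
      funext j
      rw [← Complex.exp_add]
      congr 1
      push_cast
      ring
  have hmeas : ∀ l j, MeasurableSet (D j l) := fun l j => by
    rw [hD]
    exact trn_meas Φ hK hKt (g j) (hA l).1 (hA l).2
  have hsum : ∑' j, ∑' l, ∫⁻ x in D j l, Φ.dens S 0 (kk l) x < ⊤ := by
    rw [ENNReal.tsum_comm]
    refine lt_of_le_of_lt (ENNReal.tsum_le_tsum fun l => ?_) hfin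
    rw [← lintegral_iUnion (hmeas l) (hdis l)]
    refine lintegral_mono_set (Set.iUnion_subset fun j => ?_)
    rw [hD]
    exact Set.inter_subset_left
  have h1 : ∑' _ : ℕ, c ≤ C * ∑' j, ∑' l, ∫⁻ x in D j l, Φ.dens S 0 (kk l) x := by
    rw [← ENNReal.tsum_mul_left]
    exact ENNReal.tsum_le_tsum hlow
  rw [ENNReal.tsum_const_eq_top_of_ne_zero hc0] at h1
  exact absurd (top_le_iff.1 h1) (ENNReal.mul_ne_top hC hsum.ne)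

theorem num_klt2 [(volume : Measure EF).IsAddHaarMeasure] [CompactSpace F] (Φ : Fib R EF F κ ι m)
    (hσ : SND Φ) (hm : 1 ≤ m) {S : ι → ℂ} (hS : Φ.Klt S) : N3 Φ.Rs.dual Φ.RN S := by
  intro k H hH hne β
  refine num_klt_aux2 Φ hm hS (fun _ _ hA hcov _ _ hK hKt hint ξ =>
    J_core Φ hm le_rfl one_pos hA hcov hK hKt hint ξ) hH ?_ k β
  rcases hne with ⟨β₁, γ₁, hne⟩ | ⟨β₁, γ₁, hne⟩
  · obtain ⟨i, K, hK, hKt, hint, hv⟩ := exists_box Φ β₁ γ₁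
    exact ⟨i, K, hK, hKt, hint, box_disj Φ hK hKt hv hH hne⟩
  · obtain ⟨i, K, hK, hKt, hint, hv⟩ := exists_box2 Φ hσ β₁ γ₁
    exact ⟨i, K, hK, hKt, hint, box_disj2 Φ hK hKt hv hH fun h0 => hne (by
      rw [GRep.dual_lam, GRep.dual_lam, h0])⟩

end Pool.Agent.KX
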