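import Pool.Agent.H.MP_e23cd6_ag.KX.Defs
import Pool.Agent.H.MP_e23cd6_ag.PB.GCrit

/-!
# Limits of the sections on the fibre along one-parameter subgroups
-/

set_option autoImplicit false

open scoped Manifold ContDiff ENNReal Topology
open MeasureTheory Matrix Pool.Agent.PG Pool.Agent.SG Filter

namespace Pool.Agent.KX

section rep

variable {n : ℕ} {R : RG n} {ι κ : Type} [Fintype ι] [DecidableEq ι] [Fintype κ] [DecidableEq κ]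

omit [DecidableEq ι] [DecidableEq κ] in
theorem tpp_eq_dot {q q' : ℕ} (T : (Fin q → κ) × (Fin q' → ι) → ℂ) (x : κ → ℂ) (y : ι → ℂ) :
    tpp T x y = T ⬝ᵥ tv (vp q x) (vp q' y) := rfl

theorem dual_pow_ρ (V : GRep R κ) (q : ℕ) (g : R.G) :
    (V.dual.pow q).ρ g = ((V.pow q).ρ g⁻¹)ᵀ := by
  ext α β
  rfl

theorem act_dual_tens (V : GRep R κ) (W : GRep R ι) (q q' : ℕ) (g : R.G)
    (T : (Fin q → κ) × (Fin q' → ι) → ℂ) :
    ((V.dual.pow q).tens (W.dual.pow q')).act g T =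
      (((V.pow q).tens (W.pow q')).ρ g⁻¹)ᵀ *ᵥ T := by
  unfold GRep.act
  congr 1

/-- The transformation of the polynomial of a tensor. -/
theorem tpp_act (V : GRep R κ) (W : GRep R ι) {q q' : ℕ} (g : R.G)
    (T : (Fin q → κ) × (Fin q' → ι) → ℂ) (x : κ → ℂ) (y : ι → ℂ) :
    tpp (((V.dual.pow q).tens (W.dual.pow q')).act g T) x y =
      tpp T (V.act g⁻¹ x) (W.act g⁻¹ y) := by
  rw [tpp_eq_dot, tpp_eq_dot, act_dual_tens, Matrix.mulVec_transpose,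
    ← Matrix.dotProduct_mulVec, ← act_pow, ← act_pow, ← GRep.act_tens]
  rfl

theorem tpp_smul {q q' : ℕ} (T : (Fin q → κ) × (Fin q' → ι) → ℂ) (a b : ℂ) (x : κ → ℂ)
    (y : ι → ℂ) : tpp T (a • x) (b • y) = a ^ q * b ^ q' * tpp T x y := by
  rw [tpp_eq_dot, tpp_eq_dot, vp_smul, vp_smul, tv_smul_left, tv_smul_right, smul_smul,
    dotProduct_smul, smul_eq_mul]

/-- The limit along a one-parameter subgroup has only components of minimal weight. -/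
theorem lim_zero (V : GRep R κ) {H : Fin n → ℝ} (hH : H ∈ R.a) {gn : ℕ → R.G}
    (hg : ∀ k, mx (gn k) = dE H (-(k : ℂ))) {x : κ → ℂ} {β₀ β : κ} (h0 : x β₀ ≠ 0)
    (hlt : V.lam β₀ H < V.lam β H) {u : ℕ → κ → ℂ} {U : Filter ℕ} [U.NeBot] (hU : U ≤ atTop)
    (hu : ∀ᶠ k in U, ∃ c : ℂ, u k = c • (V.ρ (gn k) *ᵥ x)) {L : κ → ℂ}
    (hL : Tendsto u U (𝓝 L)) : L β = 0 := by
  have hcomp : ∀ γ, Tendsto (fun k => u k γ) U (𝓝 (L γ)) := fun γ =>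
    (continuous_apply γ).continuousAt.tendsto.comp hL
  have he : Tendsto (fun k : ℕ => Complex.exp (-(k : ℂ) * (V.lam β H - V.lam β₀ H))) U (𝓝 0) := by
    refine Tendsto.mono_left ?_ hU
    rw [tendsto_zero_iff_norm_tendsto_zero]
    have h1 : ∀ k : ℕ, ‖Complex.exp (-(k : ℂ) * (V.lam β H - V.lam β₀ H))‖ =
        Real.exp (-(V.lam β H - V.lam β₀ H) * k) := by
      intro k
      rw [Complex.norm_exp]
      congr 1
      have : (-(k : ℂ) * ((V.lam β H : ℂ) - (V.lam β₀ H : ℂ))) =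
          (((-(k : ℝ) * (V.lam β H - V.lam β₀ H) : ℝ)) : ℂ) := by push_cast; ring
      rw [this, Complex.ofReal_re]
      ring
    simp only [h1]
    have h2 : Tendsto (fun k : ℕ => (V.lam β H - V.lam β₀ H) * (k : ℝ)) atTop atTop :=
      Tendsto.const_mul_atTop (by linarith) tendsto_natCast_atTop_atTop
    have h3 := Real.tendsto_exp_neg_atTop_nhds_zero.comp h2
    refine h3.congr fun k => ?_
    simp only [Function.comp_apply]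
    congr 1
    ring
  have h1 : Tendsto (fun k => u k β * x β₀) U (𝓝 (L β * x β₀)) := (hcomp β).mul_const _
  have h2 : Tendsto (fun k => u k β₀ *
      (Complex.exp (-(k : ℂ) * (V.lam β H - V.lam β₀ H)) * x β)) U (𝓝 (L β₀ * (0 * x β))) :=
    (hcomp β₀).mul (he.mul_const _)
  have h3 : (fun k => u k β * x β₀) =ᶠ[U] fun k => u k β₀ *
      (Complex.exp (-(k : ℂ) * (V.lam β H - V.lam β₀ H)) * x β) := by
    filter_upwards [hu] with k hk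
    obtain ⟨c, hc⟩ := hk
    have hd := V.diag H hH (-(k : ℂ)) (gn k) (hg k)
    rw [hc, hd]
    simp only [Pi.smul_apply, smul_eq_mul, Matrix.mulVec_diagonal]
    have h4 : Complex.exp (-(k : ℂ) * V.lam β H) =
        Complex.exp (-(k : ℂ) * V.lam β₀ H) *
          Complex.exp (-(k : ℂ) * (V.lam β H - V.lam β₀ H)) := by
      rw [← Complex.exp_add]
      congr 1
      ring
    rw [h4]
    ring
  have h5 := tendsto_nhds_unique (h2.congr' h3.symm) h1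
  rw [zero_mul, mul_zero] at h5
  exact (mul_eq_zero.1 h5.symm).resolve_right h0

end rep

section fib

variable {n : ℕ} {R : RG n} {EF : Type} [NormedAddCommGroup EF] [NormedSpace ℂ EF] {F : Type}
  [TopologicalSpace F] [CompactSpace F] {κ ι : Type} [Fintype κ] [DecidableEq κ] [Fintype ι]
  [DecidableEq ι] {m : ℕ}

omit [CompactSpace F] in
/-- The condition on the tensors is invariant. -/
theorem hT_act (Φ : Fib R EF F κ ι m) {κ' : Type} [Fintype κ'] [DecidableEq κ'] (P : Lin Φ κ')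
    {q q' p : ℕ} (T : Fin p → (Fin q → κ) × (Fin q' → κ') → ℂ)
    (hT : ∀ j, ∀ y ∈ Φ.W j, ∃ l, tpp (T l) (Φ.v j y) (P.w j y) ≠ 0) (g : R.G) :
    ∀ j, ∀ y ∈ Φ.W j, ∃ l,
      tpp (((Φ.RN.dual.pow q).tens (P.RP.dual.pow q')).act g (T l)) (Φ.v j y) (P.w j y) ≠ 0 := by
  intro j y hy
  obtain ⟨i, hi⟩ := Φ.cover (Φ.act g⁻¹ y)
  obtain ⟨l, hl⟩ := hT i _ hi
  obtain ⟨t, ht, -⟩ := Φ.equi g⁻¹ i j y hy hi
  obtain ⟨t', -, ht'⟩ := P.equi g⁻¹ i j y hy hi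
  refine ⟨l, fun h => hl ?_⟩
  rw [tpp_act] at h
  rw [ht, ht', tpp_smul]
  have h' : tpp (T l) (Φ.RN.ρ g⁻¹ *ᵥ Φ.v j y) (P.RP.ρ g⁻¹ *ᵥ P.w j y) = 0 := h
  rw [h', mul_zero]

theorem limit_one (Φ : Fib R EF F κ ι m) {κ' : Type} [Fintype κ'] [DecidableEq κ'] (P : Lin Φ κ')
    {q q' p : ℕ} (hq' : 1 ≤ q') (T : Fin p → (Fin q → κ) × (Fin q' → κ') → ℂ)
    (hT : ∀ j, ∀ y ∈ Φ.W j, ∃ l, tpp (T l) (Φ.v j y) (P.w j y) ≠ 0)
    {H : Fin n → ℝ} (hH : H ∈ R.a) :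
    ∃ l α, T l α ≠ 0 ∧ (∀ t β, Φ.RN.lam (α.1 t) H ≤ Φ.RN.lam β H) ∧
      ∀ t γ, P.RP.lam (α.2 t) H ≤ P.RP.lam γ H := by
  -- the index sets are not empty
  obtain ⟨jn, yn, hyn⟩ := Φ.ne
  have hynW : yn ∈ Φ.W jn := Φ.sub jn hyn
  have hκ : Nonempty κ := by
    obtain ⟨β, -⟩ := Function.ne_iff.1 (Φ.v_ne jn yn hynW)
    exact ⟨β⟩
  have hκ' : Nonempty κ' := by
    obtain ⟨l, hl⟩ := hT jn yn hynW
    unfold tpp at hl
    obtain ⟨a, -, -⟩ := Finset.exists_ne_zero_of_sum_ne_zero hl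
    exact ⟨a.2 ⟨0, hq'⟩⟩
  obtain ⟨β₀, hβ₀⟩ := Finite.exists_min fun β => Φ.RN.lam β H
  obtain ⟨γ₀, hγ₀⟩ := Finite.exists_min fun γ => P.RP.lam γ H
  -- a point where both minimal components are not zero
  obtain ⟨j₀, y₀', ⟨-, hy₀'⟩, hv₀'⟩ := Φ.v_nd Set.univ isOpen_univ ⟨yn, trivial⟩
    (Pi.single β₀ 1) (by simp)
  rw [single_one_dotProduct] at hv₀'
  have hopen : IsOpen (Φ.W j₀ ∩ (fun y => Φ.v j₀ y β₀) ⁻¹' {0}ᶜ) :=
    ContinuousOn.isOpen_inter_preimage ((continuous_apply β₀).comp_continuousOn (Φ.v_cont j₀))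
      (Φ.W_open j₀) isOpen_compl_singleton
  obtain ⟨j₁, y₀, ⟨⟨hy₀W, hv₀⟩, hy₀⟩, hw₀⟩ := P.nd _ hopen ⟨y₀', hy₀', hv₀'⟩
    (Pi.single γ₀ 1) (by simp)
  rw [single_one_dotProduct] at hw₀
  have hv₁ : Φ.v j₁ y₀ β₀ ≠ 0 := by
    have hy₁ : Φ.act 1 y₀ ∈ Φ.W j₁ := by rw [Φ.one]; exact hy₀
    obtain ⟨t, ht, -⟩ := Φ.equi 1 j₁ j₀ y₀ hy₀W hy₁
    rw [Φ.one, map_one, Matrix.one_mulVec] at ht
    have ht0 : t ≠ 0 := by
      intro h
      rw [h, zero_smul] at ht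
      exact Φ.v_ne j₁ y₀ hy₀ ht
    rw [ht]
    exact mul_ne_zero ht0 hv₀
  -- the one-parameter subgroup and the limit
  have hgn : ∀ k : ℕ, ∃ g : R.G, mx g = dE H (-(k : ℂ)) := by
    intro k
    obtain ⟨g, hg, h⟩ := R.tor H hH (-(k : ℂ))
    exact ⟨⟨g, hg⟩, h⟩
  choose gn hg using hgn
  let U : Ultrafilter ℕ := Ultrafilter.of atTop
  have hU : (U : Filter ℕ) ≤ atTop := Ultrafilter.of_le atTop
  obtain ⟨yl, -, hyl⟩ := isCompact_univ.ultrafilter_le_nhds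
    (U.map fun k => Φ.act (gn k) y₀) (by simp)
  obtain ⟨j, hj⟩ := Φ.cover yl
  have hten : Tendsto (fun k => Φ.act (gn k) y₀) U (𝓝 yl) := hyl
  have hmem : ∀ᶠ k in (U : Filter ℕ), Φ.act (gn k) y₀ ∈ Φ.W j :=
    hten.eventually ((Φ.W_open j).mem_nhds hj)
  have hLv : Tendsto (fun k => Φ.v j (Φ.act (gn k) y₀)) U (𝓝 (Φ.v j yl)) :=
    (((Φ.v_cont j).continuousAt ((Φ.W_open j).mem_nhds hj)).tendsto).comp hten
  have hLw : Tendsto (fun k => P.w j (Φ.act (gn k) y₀)) U (𝓝 (P.w j yl)) :=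
    (((P.cont j).continuousAt ((Φ.W_open j).mem_nhds hj)).tendsto).comp hten
  have huv : ∀ᶠ k in (U : Filter ℕ), ∃ c : ℂ,
      Φ.v j (Φ.act (gn k) y₀) = c • (Φ.RN.ρ (gn k) *ᵥ Φ.v j₁ y₀) := by
    filter_upwards [hmem] with k hk
    obtain ⟨t, ht, -⟩ := Φ.equi (gn k) j j₁ y₀ hy₀ hk
    exact ⟨t, ht⟩
  have huw : ∀ᶠ k in (U : Filter ℕ), ∃ c : ℂ,
      P.w j (Φ.act (gn k) y₀) = c • (P.RP.ρ (gn k) *ᵥ P.w j₁ y₀) := by
    filter_upwards [hmem] with k hk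
    obtain ⟨t, -, ht⟩ := P.equi (gn k) j j₁ y₀ hy₀ hk
    exact ⟨t, ht⟩
  have hzv : ∀ β, Φ.RN.lam β₀ H < Φ.RN.lam β H → Φ.v j yl β = 0 := fun β hβ =>
    lim_zero Φ.RN hH hg hv₁ hβ hU huv hLv
  have hzw : ∀ γ, P.RP.lam γ₀ H < P.RP.lam γ H → P.w j yl γ = 0 := fun γ hγ =>
    lim_zero P.RP hH hg hw₀ hγ hU huw hLw
  -- conclusion
  obtain ⟨l, hl⟩ := hT j yl hj
  unfold tpp at hl
  obtain ⟨α, -, hα⟩ := Finset.exists_ne_zero_of_sum_ne_zero hl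
  have h1 := left_ne_zero_of_mul hα
  have h2 := right_ne_zero_of_mul hα
  have h3 := Finset.prod_ne_zero_iff.1 (left_ne_zero_of_mul h2)
  have h4 := Finset.prod_ne_zero_iff.1 (right_ne_zero_of_mul h2)
  refine ⟨l, α, h1, fun t β => ?_, fun t γ => ?_⟩
  · refine le_trans ?_ (hβ₀ β)
    by_contra hlt
    exact h3 t (Finset.mem_univ t) (hzv _ (not_le.1 hlt))
  · refine le_trans ?_ (hγ₀ γ)
    by_contra hlt
    exact h4 t (Finset.mem_univ t) (hzw _ (not_le.1 hlt))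

/-- MODULE Limit. -/
theorem limit (Φ : Fib R EF F κ ι m) {κ' : Type} [Fintype κ'] [DecidableEq κ'] (P : Lin Φ κ')
    {q q' p : ℕ} (hq' : 1 ≤ q') (T : Fin p → (Fin q → κ) × (Fin q' → κ') → ℂ)
    (hT : ∀ j, ∀ y ∈ Φ.W j, ∃ l, tpp (T l) (Φ.v j y) (P.w j y) ≠ 0)
    (g : R.G) {H : Fin n → ℝ} (hH : H ∈ R.a) :
    ∃ l α, ((Φ.RN.dual.pow q).tens (P.RP.dual.pow q')).act g (T l) α ≠ 0 ∧
      (∀ t β, Φ.RN.lam (α.1 t) H ≤ Φ.RN.lam β H) ∧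
      ∀ t γ, P.RP.lam (α.2 t) H ≤ P.RP.lam γ H :=
  limit_one Φ P hq' (fun l => ((Φ.RN.dual.pow q).tens (P.RP.dual.pow q')).act g (T l))
    (hT_act Φ P T hT g) hH

/-- The smallest weight of the sections of `N ^ q` is at most `q` times the smallest weight of the
sections of `N`, if they have no common zero. -/
theorem min_pow (Φ : Fib R EF F κ ι m) {κ' : Type} [Fintype κ'] [DecidableEq κ'] (P : Lin Φ κ')
    {q : ℕ} (hP : IsPow P q) (hw : ∀ j, ∀ y ∈ Φ.W j, P.w j y ≠ 0)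
    {H : Fin n → ℝ} (hH : H ∈ R.a) (β₁ : κ) : ∃ γ, P.RP.lam γ H ≤ q * Φ.RN.lam β₁ H := by
  by_contra hcon
  push Not at hcon
  have hκ : Nonempty κ := ⟨β₁⟩
  obtain ⟨β₀, hβ₀⟩ := Finite.exists_min fun β => Φ.RN.lam β H
  have hlt : ∀ γ, q * Φ.RN.lam β₀ H < P.RP.lam γ H := fun γ =>
    (mul_le_mul_of_nonneg_left (hβ₀ β₁) (Nat.cast_nonneg q)).trans_lt (hcon γ)
  obtain ⟨jn, yn, hyn⟩ := Φ.ne
  obtain ⟨j₀, y₀, ⟨-, hy₀⟩, hv₀⟩ := Φ.v_nd Set.univ isOpen_univ ⟨yn, trivial⟩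
    (Pi.single β₀ 1) (by simp)
  rw [single_one_dotProduct] at hv₀
  have hgn : ∀ k : ℕ, ∃ g : R.G, mx g = dE H (-(k : ℂ)) := by
    intro k
    obtain ⟨g, hg, h⟩ := R.tor H hH (-(k : ℂ))
    exact ⟨⟨g, hg⟩, h⟩
  choose gn hg using hgn
  let U : Ultrafilter ℕ := Ultrafilter.of atTop
  have hU : (U : Filter ℕ) ≤ atTop := Ultrafilter.of_le atTop
  obtain ⟨yl, -, hyl⟩ := isCompact_univ.ultrafilter_le_nhds
    (U.map fun k => Φ.act (gn k) y₀) (by simp)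
  obtain ⟨j, hj⟩ := Φ.cover yl
  have hten : Tendsto (fun k => Φ.act (gn k) y₀) U (𝓝 yl) := hyl
  have hmem : ∀ᶠ k in (U : Filter ℕ), Φ.act (gn k) y₀ ∈ Φ.W j :=
    hten.eventually ((Φ.W_open j).mem_nhds hj)
  have hLv : Tendsto (fun k => Φ.v j (Φ.act (gn k) y₀)) U (𝓝 (Φ.v j yl)) :=
    (((Φ.v_cont j).continuousAt ((Φ.W_open j).mem_nhds hj)).tendsto).comp hten
  have hLw : Tendsto (fun k => P.w j (Φ.act (gn k) y₀)) U (𝓝 (P.w j yl)) :=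
    (((P.cont j).continuousAt ((Φ.W_open j).mem_nhds hj)).tendsto).comp hten
  refine hw j yl hj (funext fun γ => ?_)
  obtain ⟨δ, hδ⟩ : ∃ δ : ℝ, δ = P.RP.lam γ H - q * Φ.RN.lam β₀ H := ⟨_, rfl⟩
  have hδ0 : 0 < δ := by
    rw [hδ]
    linarith [hlt γ]
  have he : Tendsto (fun k : ℕ => Complex.exp (-(k : ℂ) * (δ : ℂ))) U (𝓝 0) := by
    refine Tendsto.mono_left ?_ hU
    rw [tendsto_zero_iff_norm_tendsto_zero]
    have h1 : ∀ k : ℕ, ‖Complex.exp (-(k : ℂ) * (δ : ℂ))‖ = Real.exp (-(δ * k)) := by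
      intro k
      rw [Complex.norm_exp]
      congr 1
      have : (-(k : ℂ) * (δ : ℂ)) = (((-(k : ℝ) * δ : ℝ)) : ℂ) := by push_cast; ring
      rw [this, Complex.ofReal_re]
      ring
    simp only [h1]
    exact Real.tendsto_exp_neg_atTop_nhds_zero.comp
      (Tendsto.const_mul_atTop hδ0 tendsto_natCast_atTop_atTop)
  have hcv : Tendsto (fun k => Φ.v j (Φ.act (gn k) y₀) β₀) U (𝓝 (Φ.v j yl β₀)) :=
    (continuous_apply β₀).continuousAt.tendsto.comp hLv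
  have hcw : Tendsto (fun k => P.w j (Φ.act (gn k) y₀) γ) U (𝓝 (P.w j yl γ)) :=
    (continuous_apply γ).continuousAt.tendsto.comp hLw
  have h1 : Tendsto (fun k => P.w j (Φ.act (gn k) y₀) γ * Φ.v j₀ y₀ β₀ ^ q) U
      (𝓝 (P.w j yl γ * Φ.v j₀ y₀ β₀ ^ q)) := hcw.mul_const _
  have h2 : Tendsto (fun k => Φ.v j (Φ.act (gn k) y₀) β₀ ^ q *
      (Complex.exp (-(k : ℂ) * (δ : ℂ)) * P.w j₀ y₀ γ)) U
      (𝓝 (Φ.v j yl β₀ ^ q * (0 * P.w j₀ y₀ γ))) := (hcv.pow q).mul (he.mul_const _)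
  have h3 : (fun k => P.w j (Φ.act (gn k) y₀) γ * Φ.v j₀ y₀ β₀ ^ q) =ᶠ[U]
      fun k => Φ.v j (Φ.act (gn k) y₀) β₀ ^ q *
        (Complex.exp (-(k : ℂ) * (δ : ℂ)) * P.w j₀ y₀ γ) := by
    filter_upwards [hmem] with k hk
    obtain ⟨t, ht, -⟩ := Φ.equi (gn k) j j₀ y₀ hy₀ hk
    have ht' := hP (gn k) j j₀ y₀ hy₀ hk t ht
    rw [ht, ht', Φ.RN.diag H hH (-(k : ℂ)) (gn k) (hg k), P.RP.diag H hH (-(k : ℂ)) (gn k) (hg k)]
    simp only [Pi.smul_apply, smul_eq_mul, Matrix.mulVec_diagonal]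
    have h4 : Complex.exp (-(k : ℂ) * P.RP.lam γ H) =
        Complex.exp (-(k : ℂ) * Φ.RN.lam β₀ H) ^ q * Complex.exp (-(k : ℂ) * (δ : ℂ)) := by
      rw [← Complex.exp_nat_mul, ← Complex.exp_add, hδ]
      congr 1
      push_cast
      ring
    rw [h4]
    ring
  have h5 := tendsto_nhds_unique (h2.congr' h3.symm) h1
  rw [zero_mul, mul_zero] at h5
  exact (mul_eq_zero.1 h5.symm).resolve_right (pow_ne_zero _ hv₀)

end fib

end Pool.Agent.KX
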