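import Pool.Agent.H.MP_e23cd6_ag.KX.Defs
import Pool.Agent.H.MP_e23cd6_ag.PB.GKN

/-!
MP_e23cd6_ag: finitely many invariants of one degree which bound the infimum of the norm on the
orbits of a representation of a reductive group.
-/

set_option autoImplicit false

namespace Pool.Agent.KX

open Matrix Topology Set Pool.Agent.PG Pool.Agent.SG

variable {n : ℕ} {R : RG n} {τ : Type} [Fintype τ] [DecidableEq τ]

/-- The set of the minimal vectors is compact. -/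
theorem isCompact_min (V : GRep R τ) : IsCompact {w | V.Min w} := by
  have e : {w | V.Min w} = {w : τ → ℂ | ns w ≤ 1} ∩ ({w | ns w = 1} ∩
      ⋂ g, {w | 1 ≤ ns (V.act g w)}) := by
    ext w
    constructor
    · intro h
      exact ⟨h.1.le, h.1, mem_iInter.2 h.2⟩
    · rintro ⟨_, h1, h2⟩
      exact ⟨h1, mem_iInter.1 h2⟩
  rw [e]
  refine (Rep.isCompact_ns_le 1).inter_right
    ((isClosed_eq continuous_ns continuous_const).inter ?_)
  exact isClosed_iInter fun g => isClosed_le continuous_const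
    (continuous_ns.comp (V.continuous_act_right g))

/-- Finitely many invariants of the same degree bounding all minimal vectors. -/
theorem minB_aux (V : GRep R τ) : ∃ N > 0, ∃ l : List (MvPolynomial τ ℂ),
    (∀ P ∈ l, V.Inv N P) ∧ ∃ c > 0, ∀ w ∈ {w | V.Min w}, ∃ P ∈ l,
      c ≤ ‖MvPolynomial.eval w P‖ := by
  refine (isCompact_min V).induction_on (p := fun s => ∃ N > 0, ∃ l : List (MvPolynomial τ ℂ),
    (∀ P ∈ l, V.Inv N P) ∧ ∃ c > 0, ∀ w ∈ s, ∃ P ∈ l, c ≤ ‖MvPolynomial.eval w P‖) ?_ ?_ ?_ ?_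
  · exact ⟨1, one_pos, [], by simp, 1, one_pos, fun w hw => absurd hw (notMem_empty w)⟩
  · rintro s t hst ⟨N, hN, l, hl, c, hc, h⟩
    exact ⟨N, hN, l, hl, c, hc, fun w hw => h w (hst hw)⟩
  · rintro s t ⟨N₁, hN₁, l₁, hl₁, c₁, hc₁, h₁⟩ ⟨N₂, hN₂, l₂, hl₂, c₂, hc₂, h₂⟩
    refine ⟨N₁ * N₂, Nat.mul_pos hN₁ hN₂, l₁.map (fun P => P ^ N₂) ++ l₂.map (fun P => P ^ N₁),
      ?_, min (c₁ ^ N₂) (c₂ ^ N₁), lt_min (pow_pos hc₁ _) (pow_pos hc₂ _), ?_⟩
    · intro P hP
      rcases List.mem_append.1 hP with hP | hP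
      · obtain ⟨Q, hQ, rfl⟩ := List.mem_map.1 hP
        exact (hl₁ Q hQ).pow N₂
      · obtain ⟨Q, hQ, rfl⟩ := List.mem_map.1 hP
        rw [mul_comm]
        exact (hl₂ Q hQ).pow N₁
    · rintro w (hw | hw)
      · obtain ⟨P, hP, h⟩ := h₁ w hw
        refine ⟨P ^ N₂, List.mem_append.2 (Or.inl (List.mem_map.2 ⟨P, hP, rfl⟩)), ?_⟩
        rw [map_pow, norm_pow]
        exact (min_le_left _ _).trans (pow_le_pow_left₀ hc₁.le h _)
      · obtain ⟨P, hP, h⟩ := h₂ w hw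
        refine ⟨P ^ N₁, List.mem_append.2 (Or.inr (List.mem_map.2 ⟨P, hP, rfl⟩)), ?_⟩
        rw [map_pow, norm_pow]
        exact (min_le_right _ _).trans (pow_le_pow_left₀ hc₂.le h _)
  · intro w hw
    obtain ⟨N, hN, P, hP, h0⟩ := GRep.Min.exists_inv (V := V) (w := w) hw
    have h1 : 0 < ‖MvPolynomial.eval w P‖ := norm_pos_iff.2 h0
    refine ⟨{x | ‖MvPolynomial.eval w P‖ / 2 < ‖MvPolynomial.eval x P‖},
      mem_nhdsWithin_of_mem_nhds ?_, N, hN, [P], ?_, ‖MvPolynomial.eval w P‖ / 2, by positivity,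
      fun x hx => ⟨P, List.mem_singleton.2 rfl, le_of_lt hx⟩⟩
    · refine (isOpen_lt continuous_const (Rep.continuous_evalP P).norm).mem_nhds ?_
      show ‖MvPolynomial.eval w P‖ / 2 < ‖MvPolynomial.eval w P‖
      linarith
    · intro Q hQ
      rw [List.mem_singleton.1 hQ]
      exact hP

/-- There are finitely many invariants `P i` of the same degree `M` and `c > 0` with
`c * b ^ M ≤ ∑ |P i v|` whenever all the norms on the orbit of `v` are `≥ b`. -/
theorem minB (V : GRep R τ) : ∃ M : ℕ, 2 ≤ M ∧ ∃ (p : ℕ) (P : Fin p → MvPolynomial τ ℂ),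
    (∀ i, V.Inv M (P i)) ∧ ∃ c : ℝ, 0 < c ∧ ∀ (v : τ → ℂ) (b : ℝ), 0 ≤ b →
      (∀ g, b ≤ nm (V.act g v)) → c * b ^ M ≤ ∑ i, ‖MvPolynomial.eval v (P i)‖ := by
  obtain ⟨N, hN, l, hl, c, hc, h⟩ := minB_aux V
  refine ⟨N * 2, by omega, l.length, fun i => l.get i ^ 2,
    fun i => (hl _ (List.get_mem l i)).pow 2, c ^ 2, pow_pos hc 2, ?_⟩
  intro v b hb hv
  rcases hb.eq_or_lt with rfl | hb
  · rw [zero_pow (by omega), mul_zero]
    exact Finset.sum_nonneg fun i _ => norm_nonneg _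
  obtain ⟨w, hw, c', hc', hcl⟩ := V.exists_min hb hv
  obtain ⟨P, hP, hPw⟩ := h w hw
  obtain ⟨i, hi⟩ := List.get_of_mem hP
  have h1 : c * b ^ N ≤ ‖MvPolynomial.eval v P‖ := by
    rw [← (hl P hP).closure hcl, Rep.eval_smul (hl P hP).hom, norm_mul, norm_pow,
      Complex.norm_real, Real.norm_eq_abs, abs_of_nonneg (hb.le.trans hc'), mul_comm]
    exact mul_le_mul (pow_le_pow_left₀ hb.le hc' N) hPw hc.le
      (pow_nonneg (hb.le.trans hc') N)
  have h2 : c ^ 2 * b ^ (N * 2) ≤ ‖MvPolynomial.eval v (l.get i ^ 2)‖ := by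
    rw [hi, map_pow, norm_pow, pow_mul, ← mul_pow]
    exact pow_le_pow_left₀ (mul_nonneg hc.le (pow_nonneg hb.le N)) h1 2
  refine h2.trans ?_
  exact Finset.single_le_sum (f := fun i => ‖MvPolynomial.eval v (l.get i ^ 2)‖)
    (fun j _ => norm_nonneg _) (Finset.mem_univ i)

end Pool.Agent.KX
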