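import Mathlib

/-!
MP_e23cd6_ag (abundance), total spaces of bundles, module Null: if the polynomials `Ψ i (S₀, ·)` have no
common zero `x ≠ 0`, then there is a form `f` with `f S₀ ≠ 0` such that, for all `S` with `f S ≠ 0`, the
polynomials `Ψ i (S, ·)` have no common zero `x ≠ 0` (Nullstellensatz and determinants).
-/

set_option autoImplicit false

open MvPolynomial

namespace Pool.Agent.KX

namespace Null

/-- A form at a multiple of a point. -/
theorem eval_smul_of_homog {σ : Type} {P : MvPolynomial σ ℂ} {k : ℕ} (hP : P.IsHomogeneous k)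
    (x : σ → ℂ) (t : ℂ) : eval (t • x) P = t ^ k * eval x P := by
  rw [eval_eq, eval_eq, Finset.mul_sum]
  refine Finset.sum_congr rfl fun d hd => ?_
  have hdk : ∑ i ∈ d.support, d i = k := by
    have := hP (mem_support_iff.1 hd)
    simpa [Finsupp.weight_apply, Finsupp.sum, Finsupp.degree] using this
  simp only [Pi.smul_apply, smul_eq_mul, mul_pow, Finset.prod_mul_distrib]
  rw [Finset.prod_pow_eq_pow_sum, hdk]
  ring

/-- A polynomial which vanishes on the line through `x`: so do its homogeneous components. -/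
theorem comp_zero {σ : Type} (P : MvPolynomial σ ℂ) (x : σ → ℂ)
    (h : ∀ t : ℂ, eval (t • x) P = 0) (D : ℕ) : eval x (homogeneousComponent D P) = 0 := by
  classical
  have key : ∀ t : ℂ, (∑ k ∈ Finset.range (P.totalDegree + 1),
      Polynomial.monomial k (eval x (homogeneousComponent k P))).eval t = 0 := by
    intro t
    rw [← h t]
    conv_rhs => rw [← sum_homogeneousComponent P]
    rw [Polynomial.eval_finsetSum, map_sum]
    refine Finset.sum_congr rfl fun k _ => ?_
    rw [Polynomial.eval_monomial, eval_smul_of_homog (homogeneousComponent_isHomogeneous k P)]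
    ring
  have hz : (∑ k ∈ Finset.range (P.totalDegree + 1),
      Polynomial.monomial k (eval x (homogeneousComponent k P))) = 0 :=
    Polynomial.funext fun t => by rw [key t, Polynomial.eval_zero]
  by_cases hD : D < P.totalDegree + 1
  · have := congrArg (fun q => Polynomial.coeff q D) hz
    simpa [Polynomial.finsetSum_coeff, Polynomial.coeff_monomial, hD] using this
  · rw [homogeneousComponent_eq_zero _ _ (by omega), map_zero]

/-- The exponents of degree `D`. -/
noncomputable abbrev Idx (κ : Type) [Fintype κ] [DecidableEq κ] (D : ℕ) : Type :=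
  {β : κ →₀ ℕ // β ∈ (Finset.univ : Finset κ).finsuppAntidiag D}

theorem mem_idx {κ : Type} [Fintype κ] [DecidableEq κ] {D : ℕ} {β : κ →₀ ℕ} :
    β ∈ (Finset.univ : Finset κ).finsuppAntidiag D ↔ β.degree = D := by
  rw [Finset.mem_finsuppAntidiag]
  simp only [Finset.subset_univ, and_true]
  rw [Finsupp.degree_eq_sum]

theorem eval_comp {κ : Type} [Fintype κ] [DecidableEq κ] (D : ℕ) (P : MvPolynomial κ ℂ)
    (x : κ → ℂ) : eval x (homogeneousComponent D P) =
      ∑ β : Idx κ D, coeff β.1 P * ∏ k, x k ^ β.1 k := by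
  have : homogeneousComponent D P =
      ∑ β ∈ (Finset.univ : Finset κ).finsuppAntidiag D, monomial β (coeff β P) := by
    ext d
    rw [coeff_homogeneousComponent, coeff_sum]
    simp only [coeff_monomial]
    rw [Finset.sum_ite_eq']
    simp only [mem_idx]
  rw [this, map_sum, ← Finset.sum_coe_sort]
  refine Finset.sum_congr rfl fun β _ => ?_
  rw [eval_monomial, Finsupp.prod_fintype _ _ (fun i => by simp)]

/-- The monomials of high degree are in the ideal of forms without common zero. -/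
theorem mono_mem {κ : Type} [Fintype κ] [DecidableEq κ] {p : ℕ} (ψ : Fin p → MvPolynomial κ ℂ)
    (h0 : ∀ x : κ → ℂ, x ≠ 0 → ∃ i, eval x (ψ i) ≠ 0) :
    ∃ D : ℕ, 1 ≤ D ∧ ∀ β : κ →₀ ℕ, β.degree = D → monomial β (1 : ℂ) ∈ Ideal.span (Set.range ψ) := by
  have hrad : ∀ k : κ, X k ∈ (Ideal.span (Set.range ψ)).radical := by
    intro k
    rw [← vanishingIdeal_zeroLocus_eq_radical (K := ℂ), mem_vanishingIdeal_iff]
    intro x hx
    rw [mem_zeroLocus_iff] at hx
    by_cases h : x = 0
    · simp [h]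
    · obtain ⟨i, hi⟩ := h0 x h
      exact absurd (by simpa using hx (ψ i) (Ideal.subset_span ⟨i, rfl⟩)) hi
  choose e he using hrad
  refine ⟨Fintype.card κ * (∑ k, e k) + 1, by omega, fun β hβ => ?_⟩
  have : ∃ k, (∑ k, e k) ≤ β k := by
    by_contra hc
    push Not at hc
    rw [Finsupp.degree_eq_sum] at hβ
    have : ∑ k, β k ≤ ∑ _k : κ, (∑ k, e k) := Finset.sum_le_sum fun k _ => (hc k).le
    rw [Finset.sum_const, Finset.card_univ, smul_eq_mul] at this
    omega
  obtain ⟨k, hk⟩ := this
  have hek : e k ≤ β k := (Finset.single_le_sum (fun _ _ => Nat.zero_le _)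
    (Finset.mem_univ k)).trans hk
  have : monomial β (1 : ℂ) = monomial (β - Finsupp.single k (e k)) 1 * X k ^ e k := by
    rw [X_pow_eq_monomial, monomial_mul, mul_one, tsub_add_cancel_of_le]
    rwa [Finsupp.single_le_iff]
  rw [this]
  exact Ideal.mul_mem_left _ _ (he k)

end Null

open Null in
/-- MODULE Null. -/
theorem null {ι κ : Type} [Fintype ι] [DecidableEq ι] [Fintype κ] [DecidableEq κ]
    {p b D₀ : ℕ} (Ψ : Fin p → MvPolynomial κ (MvPolynomial ι ℂ))
    (hx : ∀ i, (Ψ i).IsHomogeneous b)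
    (hS : ∀ i (t : ℂ) (S : ι → ℂ) (x : κ → ℂ),
      MvPolynomial.eval x (MvPolynomial.map (MvPolynomial.eval (t • S)) (Ψ i)) =
        t ^ D₀ * MvPolynomial.eval x (MvPolynomial.map (MvPolynomial.eval S) (Ψ i)))
    (S₀ : ι → ℂ)
    (h0 : ∀ x : κ → ℂ, x ≠ 0 → ∃ i,
      MvPolynomial.eval x (MvPolynomial.map (MvPolynomial.eval S₀) (Ψ i)) ≠ 0) :
    ∃ (D : ℕ) (f : MvPolynomial ι ℂ), f.IsHomogeneous D ∧ MvPolynomial.eval S₀ f ≠ 0 ∧
      ∀ S : ι → ℂ, MvPolynomial.eval S f ≠ 0 → ∀ x : κ → ℂ, x ≠ 0 → ∃ i,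
        MvPolynomial.eval x (MvPolynomial.map (MvPolynomial.eval S) (Ψ i)) ≠ 0 := by
  classical
  obtain ⟨D, hD1, hD⟩ := mono_mem (fun i => map (eval S₀) (Ψ i)) h0
  have hex : ∀ α : Idx κ D, ∃ h : Fin p → MvPolynomial κ ℂ,
      ∑ i, h i * map (eval S₀) (Ψ i) = monomial α.1 (1 : ℂ) := by
    intro α
    have := hD α.1 (mem_idx.1 α.2)
    rwa [Ideal.mem_span_range_iff_exists_fun] at this
  choose h hh using hex
  let Q : Idx κ D → MvPolynomial κ (MvPolynomial ι ℂ) := fun α => ∑ i, map C (h α i) * Ψ i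
  have hQ : ∀ (S : ι → ℂ) α, map (eval S) (Q α) = ∑ i, h α i * map (eval S) (Ψ i) := by
    intro S α
    simp only [Q, map_sum, map_mul]
    refine Finset.sum_congr rfl fun i _ => ?_
    rw [map_map]
    congr 1
    have : (eval S).comp C = RingHom.id ℂ := by
      ext; simp
    rw [this, map_id]
  let N : Matrix (Idx κ D) (Idx κ D) (MvPolynomial ι ℂ) := fun α β => coeff β.1 (Q α)
  have hN : ∀ S : ι → ℂ, eval S N.det = (Matrix.of fun α β : Idx κ D =>
      coeff β.1 (∑ i, h α i * map (eval S) (Ψ i))).det := by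
    intro S
    rw [RingHom.map_det]
    congr 1
    ext α β
    rw [Matrix.of_apply, ← hQ S α, coeff_map]
    rfl
  have hN0 : eval S₀ N.det = 1 := by
    rw [hN, ← Matrix.det_one (n := Idx κ D)]
    congr 1
    ext α β
    simp only [Matrix.of_apply]
    rw [hh α, coeff_monomial, Matrix.one_apply]
    simp only [Subtype.ext_iff]
  have hbad : ∀ S : ι → ℂ, (∃ x : κ → ℂ, x ≠ 0 ∧ ∀ i, eval x (map (eval S) (Ψ i)) = 0) →
      eval S N.det = 0 := by
    rintro S ⟨x, hx0, hxi⟩
    rw [hN, ← Matrix.exists_mulVec_eq_zero_iff]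
    refine ⟨fun β => ∏ k, x k ^ β.1 k, ?_, ?_⟩
    · obtain ⟨k, hk⟩ := Function.ne_iff.1 hx0
      intro hc
      have hm : Finsupp.single k D ∈ (Finset.univ : Finset κ).finsuppAntidiag D := by
        rw [mem_idx, Finsupp.degree_single]
      have := congrFun hc ⟨Finsupp.single k D, hm⟩
      simp only [Pi.zero_apply] at this
      rw [Finset.prod_eq_zero_iff] at this
      obtain ⟨j, -, hj⟩ := this
      by_cases hjk : k = j
      · subst hjk
        rw [Finsupp.single_eq_same] at hj
        exact hk (pow_eq_zero_iff (by omega) |>.1 hj)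
      · rw [Finsupp.single_eq_of_ne' hjk] at hj
        simp at hj
    · ext α
      simp only [Matrix.mulVec, dotProduct, Matrix.of_apply, Pi.zero_apply]
      rw [← eval_comp]
      refine comp_zero _ _ (fun t => ?_) D
      rw [map_sum]
      refine Finset.sum_eq_zero fun i _ => ?_
      rw [map_mul, eval_smul_of_homog ((hx i).map _), hxi i, mul_zero, mul_zero]
  have hsum : ∑ k ∈ Finset.range (N.det.totalDegree + 1),
      eval S₀ (homogeneousComponent k N.det) ≠ 0 := by
    rw [← map_sum, sum_homogeneousComponent, hN0]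
    exact one_ne_zero
  obtain ⟨k, -, hk⟩ := Finset.exists_ne_zero_of_sum_ne_zero hsum
  refine ⟨k, homogeneousComponent k N.det, homogeneousComponent_isHomogeneous k _, hk,
    fun S hS' x hx0 => ?_⟩
  by_contra hc
  push Not at hc
  refine hS' (comp_zero _ _ (fun t => hbad _ ⟨x, hx0, fun i => ?_⟩) k)
  rw [hS, hc i, mul_zero]

end Pool.Agent.KX
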