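import Pool.Agent.H.MP_e23cd6_ag.KX.OneA
import Pool.Agent.H.MP_e23cd6_ag.KX.JLow

/-!
MP_e23cd6_ag: a klt divisor on the base from a klt divisor on the total space.
-/

set_option autoImplicit false

open scoped Manifold ContDiff ENNReal
open MeasureTheory Matrix Set Pool.Agent.PG Pool.Agent.SG

namespace Pool.Agent.KX

variable {n : ℕ} {R : RG n} {EF : Type} [NormedAddCommGroup EF] [NormedSpace ℂ EF]
  [FiniteDimensional ℂ EF] [MeasureSpace EF] [BorelSpace EF]
  [(volume : Measure EF).IsAddHaarMeasure] {F : Type}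
  [TopologicalSpace F] [CompactSpace F] {κ ι : Type} [Fintype κ] [DecidableEq κ] [Fintype ι]
  [DecidableEq ι] {m : ℕ}

/-- If the pair `(X, D)` is klt, then `(Z, (1 / (m card κ M)) div t)` is klt for a section `t` of
`λ ^ M`. -/
theorem part_one (Φ : Fib R EF F κ ι m) (hm : 1 ≤ m) : ∃ M : ℕ, 1 ≤ M ∧
    ∀ {EZ : Type} [NormedAddCommGroup EZ] [NormedSpace ℂ EZ] [FiniteDimensional ℂ EZ]
      [MeasureSpace EZ] [BorelSpace EZ] [(volume : Measure EZ).IsAddHaarMeasure]
      {Z : Type} [TopologicalSpace Z] [CompactSpace Z] [T2Space Z] {O : ZSp EZ Z} {I : Type}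
      (X : Bun Φ O.toCSp I) {a c : I → I → Z → ℂ} (C : Can X m c) (s : SecS X a), KltX C s →
        ∃ t : SecZ X (fun i j z => X.lam a i j z ^ M),
          KltZ C t (2 / (m * Fintype.card κ * M)) := by
  obtain ⟨M, hM, p, P, hP, c₀, hc₀, hJ⟩ := jinv Φ hm
  exact ⟨M, by omega, fun X _ _ C s hs => one_aux Φ hm hM P hP hc₀ hJ X C s hs⟩

end Pool.Agent.KX
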