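import Pool.Agent.H.MP_e23cd6_ag.KX.Defs
import Pool.Agent.H.MP_e23cd6_ag.PB.GFinal
import Pool.Agent.H.MP_e23cd6_ag.Bertini

/-!
MP_e23cd6_ag: a klt divisor on the base from a klt divisor on the total space, given the lower bound
of the fibre integrals by invariants.
-/

set_option autoImplicit false

open scoped Manifold ContDiff ENNReal
open MeasureTheory Matrix Set Pool.Agent.PG Pool.Agent.SG

namespace Pool.Agent.KX

section gen

variable {n : ℕ} {R : RG n} {τ : Type} [Fintype τ] [DecidableEq τ]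

/-- A linear combination of invariants of degree `M`. -/
theorem inv_sum (V : GRep R τ) {M p : ℕ} {P : Fin p → MvPolynomial τ ℂ} (hP : ∀ i, V.Inv M (P i))
    (c : Fin p → ℂ) : V.Inv M (∑ i, MvPolynomial.C (c i) * P i) := by
  refine ⟨?_, fun g v => ?_⟩
  · refine MvPolynomial.IsHomogeneous.sum _ _ _ fun i _ => ?_
    have h := (MvPolynomial.isHomogeneous_C τ (c i)).mul (hP i).hom
    rwa [zero_add] at h
  · simp only [map_sum, map_mul, MvPolynomial.eval_C, (hP _).inv]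

end gen

variable {n : ℕ} {R : RG n} {EF : Type} [NormedAddCommGroup EF] [NormedSpace ℂ EF] {F : Type}
  [TopologicalSpace F] {κ ι : Type} [Fintype κ] [DecidableEq κ] [Fintype ι] [DecidableEq ι] {m : ℕ}
  {Φ : Fib R EF F κ ι m}

/-- Invariants of the vectors `u i z` give sections on `Z`, with the formula of the section. -/
theorem assembleZ' {Z : Type} [TopologicalSpace Z] {O : CSp Z} {I : Type} (X : Bun Φ O I)
    {τ : Type} [Fintype τ] [DecidableEq τ] {V : GRep R τ} {M : ℕ}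
    {P : MvPolynomial τ ℂ} (hP : V.Inv M P) {u : I → Z → τ → ℂ}
    (hu : ∀ i p, (fun z => u i z p) ∈ O.O (X.U i))
    {w : I → I → Z → ℂ} (hw : ∀ i j, ∀ z ∈ X.U i ∩ X.U j,
      u i z = w i j z • V.act (X.γ i j z) (u j z)) {b : I → I → Z → ℂ}
    (hb : ∀ i j, ∀ z ∈ X.U i ∩ X.U j, w i j z ^ M = b i j z) :
    ∃ l : SecZ X b, ∀ i z, l.f i z = MvPolynomial.eval (u i z) P := by
  refine ⟨⟨fun i z => MvPolynomial.eval (u i z) P, fun i => ?_, fun i j z hz => ?_⟩,
    fun _ _ => rfl⟩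
  · have h1 : ∀ p, HF O (X.U i) 0 (fun z (_ : Fin 0 → ℂ) => u i z p) :=
      fun p => HF.const (hu i p)
    obtain ⟨S, hS, h2⟩ := (HF.evalP hP.hom h1).cast (m := 0) (Nat.zero_mul M)
    refine O.congr (X.U_open i) (hS default) fun z hz => ?_
    have h3 := h2 z hz default
    beta_reduce at h3 ⊢
    rw [h3, Finset.sum_eq_single default]
    · simp
    · intro κ _ hκ
      exact absurd (Subsingleton.elim κ default) hκ
    · intro h
      exact absurd (Finset.mem_univ _) h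
  · show MvPolynomial.eval (u i z) P = b i j z * MvPolynomial.eval (u j z) P
    rw [hw i j z hz, eval_smul_hom hP.hom, hP.inv, hb i j z hz]

/-- The vectors `u (S i z)` of the bundle, and sections of powers of `λ`. -/
theorem secLam {Z : Type} [TopologicalSpace Z] {O : CSp Z} {I : Type} (X : Bun Φ O I)
    {a : I → I → Z → ℂ} (s : SecS X a) {M : ℕ}
    {P : MvPolynomial ((Fin (Fintype.card κ) → ι) × Unit) ℂ}
    (hP : ((Φ.Rs.dual.pow (Fintype.card κ)).tens Φ.RN.detr).Inv M P) :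
    ∃ l : SecZ X (fun i j z => X.lam a i j z ^ M), ∀ i z,
      l.f i z = MvPolynomial.eval (tv (vp (Fintype.card κ) (s.S i z)) (fun _ => 1)) P := by
  refine assembleZ' X hP (u := fun i z => tv (vp (Fintype.card κ) (s.S i z)) (fun _ => 1))
    (w := X.lam a) (fun i p => ?_) (fun i j z hz => ?_) (fun i j z _ => rfl)
  · refine O.congr (X.U_open i) (hol_vp (X.U_open i) (s.hol i) (Fintype.card κ) p.1) fun z _ => ?_
    exact mul_one _
  · have hdet : ((Φ.RN.ρ (X.γ i j z)).det)⁻¹ * (Φ.RN.ρ (X.γ i j z)).det = 1 := by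
      refine inv_mul_cancel₀ fun h0 => ?_
      have h1 : (Φ.RN.ρ (X.γ i j z)).det * (Φ.RN.ρ (X.γ i j z)⁻¹).det = 1 := by
        rw [← Matrix.det_mul, ← map_mul, mul_inv_cancel, map_one, Matrix.det_one]
      rw [h0, zero_mul] at h1
      exact zero_ne_one h1
    rw [GRep.act_tens, act_pow, detr_act, s.trans hz, vp_smul]
    have e1 : ∀ x : (Fin (Fintype.card κ) → ι) → ℂ, tv (a i j z ^ Fintype.card κ • x)
        (fun _ : Unit => (1 : ℂ)) = X.lam a i j z • tv x ((Φ.RN.ρ (X.γ i j z)).det •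
          fun _ : Unit => (1 : ℂ)) := by
      intro x
      funext p
      simp only [tv, Pi.smul_apply, smul_eq_mul, Bun.lam]
      linear_combination (-(a i j z ^ Fintype.card κ * x p.1)) * hdet
    exact e1 _

/-- The measure `∑ l, w l dx` on the disjoint union of the pieces `B l`. -/
noncomputable def pm {EZ : Type} [MeasureSpace EZ] (B : ℕ → Set EZ) (w : ℕ → EZ → ℝ≥0∞) :
    Measure (ℕ × EZ) :=
  Measure.sum fun l => (((volume : Measure EZ).restrict (B l)).withDensity (w l)).map (Prod.mk l)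

theorem lintegral_pm {EZ : Type} [MeasureSpace EZ] {B : ℕ → Set EZ} {w : ℕ → EZ → ℝ≥0∞}
    (hw : ∀ l, AEMeasurable (w l) (volume.restrict (B l))) {f : ℕ × EZ → ℝ≥0∞}
    (hf : ∀ l, AEMeasurable (fun x => f (l, x)) (volume.restrict (B l))) :
    ∫⁻ v, f v ∂(pm B w) = ∑' l, ∫⁻ x in B l, w l x * f (l, x) := by
  unfold pm
  rw [lintegral_sum_measure]
  refine tsum_congr fun l => ?_
  rw [(measurableEmbedding_prodMk_left l).lintegral_map,
    lintegral_withDensity_eq_lintegral_mul₀ (hw l) (hf l)]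
  rfl

theorem aemeasurable_pm {EZ : Type} [MeasureSpace EZ] {B : ℕ → Set EZ} {w : ℕ → EZ → ℝ≥0∞}
    {f : ℕ × EZ → ℂ}
    (hf : ∀ l, AEMeasurable (fun x => f (l, x)) (volume.restrict (B l))) :
    AEMeasurable f (pm B w) := by
  unfold pm
  rw [aemeasurable_sum_measure_iff]
  intro l
  rw [(measurableEmbedding_prodMk_left l).aemeasurable_map_iff]
  exact (hf l).mono_ac (withDensity_absolutelyContinuous _ _)

instance sfinite_pm {EZ : Type} [MeasureSpace EZ] [SFinite (volume : Measure EZ)]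
    (B : ℕ → Set EZ) (w : ℕ → EZ → ℝ≥0∞) : SFinite (pm B w) := by
  unfold pm
  infer_instance

theorem card_pos (Φ : Fib R EF F κ ι m) : 1 ≤ Fintype.card κ := by
  obtain ⟨j, y, hy⟩ := Φ.ne
  have h1 := Φ.v_ne j y (Φ.sub j hy)
  obtain ⟨α, _⟩ := Function.ne_iff.1 h1
  exact Fintype.card_pos_iff.2 ⟨α⟩

/-- The theorem, given the lower bound of the fibre integrals. -/
theorem one_aux [MeasureSpace EF] (Φ : Fib R EF F κ ι m) (hm : 1 ≤ m) {M p : ℕ} (hM : 2 ≤ M)
    (P : Fin p → MvPolynomial ((Fin (Fintype.card κ) → ι) × Unit) ℂ)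
    (hP : ∀ i, ((Φ.Rs.dual.pow (Fintype.card κ)).tens Φ.RN.detr).Inv M (P i))
    {c₀ : ℝ≥0∞} (hc₀ : c₀ ≠ 0)
    (hJ : ∀ (k : ℕ → Φ.J) (A : ℕ → Set EF), PcF Φ k A → ∀ S : ι → ℂ,
      c₀ * (∑ i, ‖MvPolynomial.eval (tv (vp (Fintype.card κ) S) (fun _ => 1)) (P i)‖ₑ) ^
          (-(2 / (m * Fintype.card κ * M) : ℝ)) ≤
        ∑' l, ∫⁻ y in A l, Φ.dens S 0 (k l) y)
    {EZ : Type} [NormedAddCommGroup EZ] [NormedSpace ℂ EZ] [FiniteDimensional ℂ EZ]
    [MeasureSpace EZ] [BorelSpace EZ] [(volume : Measure EZ).IsAddHaarMeasure]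
    {Z : Type} [TopologicalSpace Z] [CompactSpace Z] {O : ZSp EZ Z} {I : Type}
    (X : Bun Φ O.toCSp I) {a c : I → I → Z → ℂ} (C : Can X m c) (s : SecS X a)
    (hs : KltX C s) : ∃ t : SecZ X (fun i j z => X.lam a i j z ^ M),
      KltZ C t (2 / (m * Fintype.card κ * M)) := by
  classical
  have hκ := card_pos Φ
  obtain ⟨τ, hτ⟩ : ∃ τ : ℝ, τ = 2 / (m * Fintype.card κ * M) := ⟨_, rfl⟩
  have hden : (2 : ℝ) ≤ m * Fintype.card κ * M := by
    have h1 : 2 ≤ m * Fintype.card κ * M := by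
      calc 2 ≤ M := hM
        _ = 1 * M := (one_mul M).symm
        _ ≤ m * Fintype.card κ * M :=
          Nat.mul_le_mul_right M (Nat.mul_pos hm hκ)
    exact_mod_cast h1
  have hτ0 : 0 < τ := by
    rw [hτ]
    exact div_pos two_pos (by linarith)
  have hτ2 : τ < 2 := by
    rw [hτ, div_lt_iff₀ (by linarith)]
    linarith
  rw [← hτ] at hJ ⊢
  obtain ⟨c₁, hc₁, hc₁t, hJ'⟩ : ∃ c₁ : ℝ≥0∞, c₁ ≠ 0 ∧ c₁ ≠ ⊤ ∧ ∀ (k : ℕ → Φ.J) (A : ℕ → Set EF),
      PcF Φ k A → ∀ S : ι → ℂ,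
      c₁ * (∑ i, ‖MvPolynomial.eval (tv (vp (Fintype.card κ) S) (fun _ => 1)) (P i)‖ₑ) ^ (-τ) ≤
        ∑' l, ∫⁻ y in A l, Φ.dens S 0 (k l) y := by
    refine ⟨min c₀ 1, ?_, ?_, fun k A hA S => le_trans ?_ (hJ k A hA S)⟩
    · exact (lt_min (pos_iff_ne_zero.2 hc₀) one_pos).ne'
    · exact ((min_le_right _ _).trans_lt ENNReal.one_lt_top).ne
    · exact mul_le_mul_left (min_le_left _ _) _
  -- the local data
  have hdata : ∀ z : Z, ∃ i, ∃ V ⊆ X.U i, IsOpen V ∧ z ∈ V ∧ ∃ (r : ℕ → O.Y) (B : ℕ → Set EZ),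
      PcZ X i V r B ∧ ∑' l, ∫⁻ x in B l, ‖C.u i (r l) ((O.ψ (r l)).symm x)‖ₑ ^ (2 / m : ℝ) *
        (∑ i', ‖MvPolynomial.eval (tv (vp (Fintype.card κ) (s.S i ((O.ψ (r l)).symm x)))
          (fun _ => 1)) (P i')‖ₑ) ^ (-τ) < ⊤ := by
    intro z
    obtain ⟨i, hz, V, hV, r, B, k, A, hB, hA, hint⟩ := hs z
    obtain ⟨V', hV'V, hV'o, hzV'⟩ := mem_nhds_iff.1 hV
    refine ⟨i, V' ∩ X.U i, inter_subset_right, hV'o.inter (X.U_open i), ⟨hzV', hz⟩, r, B,
      ⟨hB.1, fun r' z' hz' => hB.2 r' z' ⟨hV'V hz'.1.1, hz'.2⟩⟩, ?_⟩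
    have hle : c₁ * ∑' l, ∫⁻ x in B l, ‖C.u i (r l) ((O.ψ (r l)).symm x)‖ₑ ^ (2 / m : ℝ) *
        (∑ i', ‖MvPolynomial.eval (tv (vp (Fintype.card κ) (s.S i ((O.ψ (r l)).symm x)))
          (fun _ => 1)) (P i')‖ₑ) ^ (-τ) ≤
        ∑' l, ∫⁻ x in B l, ‖C.u i (r l) ((O.ψ (r l)).symm x)‖ₑ ^ (2 / m : ℝ) *
          ∑' l', ∫⁻ y in A l', Φ.dens (s.S i ((O.ψ (r l)).symm x)) 0 (k l') y := by
      rw [← ENNReal.tsum_mul_left]
      refine ENNReal.tsum_le_tsum fun l => ?_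
      rw [← lintegral_const_mul' _ _ hc₁t]
      refine lintegral_mono fun x => ?_
      rw [mul_left_comm]
      exact mul_le_mul_right (hJ' k A hA _) _
    exact ENNReal.lt_top_of_mul_ne_top_right (hle.trans_lt hint).ne hc₁
  choose i V hVU hVo hzV r B hB hint using hdata
  obtain ⟨T, -, hT⟩ := isCompact_univ.elim_nhds_subcover V fun z _ => (hVo z).mem_nhds (hzV z)
  -- continuity
  have hucont : ∀ z l, AEMeasurable
      (fun x => ‖C.u (i z) (r z l) ((O.ψ (r z l)).symm x)‖ₑ ^ (2 / m : ℝ))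
      (volume.restrict (B z l)) := by
    intro z l
    have h1 : ContinuousOn (C.u (i z) (r z l) ∘ (O.ψ (r z l)).symm) (B z l) :=
      (C.hol (i z) (r z l)).continuousOn.mono ((hB z).1 l).2
    exact ((h1.aemeasurable ((hB z).1 l).1).enorm).pow_const _
  have hScont : ∀ z l (j : Fin p), AEMeasurable
      (fun x => MvPolynomial.eval (tv (vp (Fintype.card κ) (s.S (i z) ((O.ψ (r z l)).symm x)))
          (fun _ => 1)) (P j)) (volume.restrict (B z l)) := by
    intro z l j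
    have h1 : ∀ α, ContinuousOn (fun x => s.S (i z) ((O.ψ (r z l)).symm x) α) (B z l) :=
      fun α => (O.hol (X.U (i z)) (X.U_open (i z)) _ (s.hol (i z) α) (r z l)).continuousOn.mono
        ((hB z).1 l).2
    have h2 : ContinuousOn (fun x => tv (vp (Fintype.card κ)
        (s.S (i z) ((O.ψ (r z l)).symm x))) (fun _ : Unit => (1 : ℂ))) (B z l) := by
      refine continuousOn_pi.2 fun q => ?_
      refine ContinuousOn.mul ?_ continuousOn_const
      exact continuousOn_finsetProd _ fun t _ => h1 (q.1 t)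
    exact ((MvPolynomial.continuous_eval (P j)).comp_continuousOn h2).aemeasurable
      ((hB z).1 l).1
  obtain ⟨co, hco⟩ := Pool.Agent.Abd.bertini (Λ := Fin p) (J := T) (V := ℕ × EZ)
    (fun z => pm (B z) fun l x => ‖C.u (i z) (r z l) ((O.ψ (r z l)).symm x)‖ₑ ^ (2 / m : ℝ))
    (fun z j v => MvPolynomial.eval (tv (vp (Fintype.card κ)
      (s.S (i z) ((O.ψ (r z v.1)).symm v.2))) (fun _ => 1)) (P j))
    (fun z j => aemeasurable_pm fun l => hScont z l j) hτ0 hτ2 (fun z => by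
      rw [lintegral_pm (hucont z) fun l => ?_]
      · exact hint z
      · exact (Finset.aemeasurable_fun_sum _ fun j _ => (hScont z l j).enorm).pow_const _)
  obtain ⟨t, ht⟩ := secLam X s (inv_sum _ hP co)
  refine ⟨t, fun z₁ => ?_⟩
  have hz₁ := hT (mem_univ z₁)
  rw [mem_iUnion₂] at hz₁
  obtain ⟨z, hzT, hz⟩ := hz₁
  refine ⟨i z, hVU z hz, V z, (hVo z).mem_nhds hz, r z, B z, hB z, ?_⟩
  have h1 := hco ⟨z, hzT⟩
  rw [lintegral_pm (hucont z) fun l => ?_] at h1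
  · refine (le_of_eq ?_).trans_lt h1
    refine tsum_congr fun l => lintegral_congr fun x => ?_
    rw [ht]
    congr 3
    simp only [map_sum, map_mul, MvPolynomial.eval_C]
  · exact ((Finset.aemeasurable_fun_sum _ fun j _ => (hScont z l j).const_mul (co j)).enorm).pow_const _

end Pool.Agent.KX
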