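import Pool.Agent.H.MP_e23cd6_ag.PB.GPow

/-!
MP_e23cd6_ag, module Phi: an invariant of `V ^ d ⊗ W ^ e ⊗ L` as a polynomial in the second variable.
-/

set_option autoImplicit false

open Matrix Pool.Agent.PG Pool.Agent.SG

namespace Pool.Agent.KX

variable {ι κ : Type} [Fintype ι] [DecidableEq ι] [Fintype κ] [DecidableEq κ]

/-- MODULE Phi. -/
theorem phi_poly {d e M : ℕ} {P : MvPolynomial (((Fin d → ι) × (Fin e → κ)) × Unit) ℂ}
    (hP : P.IsHomogeneous M) : ∃ Ψ : MvPolynomial κ (MvPolynomial ι ℂ),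
      Ψ.IsHomogeneous (e * M) ∧ ∀ (S : ι → ℂ) (x : κ → ℂ),
        MvPolynomial.eval x (MvPolynomial.map (MvPolynomial.eval S) Ψ) =
          MvPolynomial.eval (tv (tv (vp d S) (vp e x)) (fun _ => 1)) P := by
  refine ⟨MvPolynomial.eval₂
    ((MvPolynomial.C (σ := κ)).comp (MvPolynomial.C (R := ℂ) (σ := ι)))
    (fun r => MvPolynomial.C (∏ t, MvPolynomial.X (r.1.1 t)) *
      ∏ t, MvPolynomial.X (r.1.2 t)) P, ?_, ?_⟩
  · refine hP.eval₂ _ _ (fun r => MvPolynomial.isHomogeneous_C _ _) fun r => ?_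
    have h1 : (∏ t, MvPolynomial.X (R := MvPolynomial ι ℂ) (r.1.2 t)).IsHomogeneous e := by
      have h2 := MvPolynomial.IsHomogeneous.prod Finset.univ
        (fun t => MvPolynomial.X (R := MvPolynomial ι ℂ) (r.1.2 t)) (fun _ => 1)
        (fun t _ => MvPolynomial.isHomogeneous_X _ _)
      simpa using h2
    have h3 := (MvPolynomial.isHomogeneous_C κ
      (∏ t, MvPolynomial.X (R := ℂ) (r.1.1 t))).mul h1
    simpa using h3
  · intro S x
    have h1 := MvPolynomial.hom_eval₂ P
      ((MvPolynomial.C (σ := κ)).comp (MvPolynomial.C (R := ℂ) (σ := ι)))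
      ((MvPolynomial.eval x).comp (MvPolynomial.map (MvPolynomial.eval S)))
      (fun r => MvPolynomial.C (∏ t, MvPolynomial.X (r.1.1 t)) *
        ∏ t, MvPolynomial.X (r.1.2 t))
    rw [RingHom.comp_apply] at h1
    rw [h1]
    have h2 : ((MvPolynomial.eval x).comp (MvPolynomial.map (MvPolynomial.eval S))).comp
        ((MvPolynomial.C (σ := κ)).comp (MvPolynomial.C (R := ℂ) (σ := ι))) =
        RingHom.id ℂ := by
      ext z
      simp
    rw [h2]
    have h3 : (fun r : ((Fin d → ι) × (Fin e → κ)) × Unit =>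
        ((MvPolynomial.eval x).comp (MvPolynomial.map (MvPolynomial.eval S)))
          (MvPolynomial.C (∏ t, MvPolynomial.X (r.1.1 t)) * ∏ t, MvPolynomial.X (r.1.2 t))) =
        tv (tv (vp d S) (vp e x)) (fun _ => 1) := by
      funext r
      simp [tv, vp, map_prod]
    rw [h3]
    rfl

end Pool.Agent.KX
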