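import Pool.Agent.H.MP_e23cd6_ag.PB.GPow

/-!
# The projection onto the complement of a stable subspace
-/

set_option autoImplicit false

namespace Pool.Agent.KX

open Matrix Pool.Agent.PG

variable {n : ℕ} {R : RG n} {τ : Type} [Fintype τ] [DecidableEq τ]

/-- A `G`-stable subspace `K` has a `G`-stable complement: `A` is the projection onto it. -/
theorem exists_proj (V : GRep R τ) (K : Submodule ℂ (τ → ℂ))
    (hK : ∀ g, ∀ x ∈ K, V.act g x ∈ K) : ∃ A : Matrix τ τ ℂ,
    (∀ g, A * V.ρ g = V.ρ g * A) ∧ (∀ x ∈ K, A *ᵥ x = 0) ∧ ∀ x, A *ᵥ x - x ∈ K := by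
  let e : (τ → ℂ) ≃ₗ[ℂ] EuclideanSpace ℂ τ := (WithLp.linearEquiv 2 ℂ (τ → ℂ)).symm
  let K' : Submodule ℂ (EuclideanSpace ℂ τ) := K.map e.toLinearMap
  have hmem : ∀ x, e x ∈ K' ↔ x ∈ K := by
    intro x
    constructor
    · rintro ⟨y, hy, hyx⟩
      have h1 : y = x := e.injective hyx
      rwa [← h1]
    · intro hx
      exact ⟨x, hx, rfl⟩
  let L : (τ → ℂ) →ₗ[ℂ] (τ → ℂ) :=
    LinearMap.id - e.symm.toLinearMap ∘ₗ K'.starProjection.toLinearMap ∘ₗ e.toLinearMap
  have hL : ∀ x, L x = x - e.symm (K'.starProjection (e x)) := fun x => rfl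
  have hA : ∀ x, LinearMap.toMatrix' L *ᵥ x = L x := fun x => LinearMap.toMatrix'_mulVec L x
  have hin : ∀ x y : τ → ℂ, inner ℂ (e x) (e y) = y ⬝ᵥ star x := fun x y =>
    EuclideanSpace.inner_toLp_toLp x y
  have hP : ∀ x, e.symm (K'.starProjection (e x)) ∈ K := by
    intro x
    rw [← hmem, LinearEquiv.apply_symm_apply]
    exact Submodule.starProjection_apply_mem _ _
  have hO : ∀ x, ∀ y ∈ K, (x - e.symm (K'.starProjection (e x))) ⬝ᵥ star y = 0 := by
    intro x y hy
    rw [← hin, map_sub, LinearEquiv.apply_symm_apply]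
    exact Submodule.inner_right_of_mem_orthogonal ((hmem y).2 hy)
      (Submodule.sub_starProjection_mem_orthogonal _)
  refine ⟨LinearMap.toMatrix' L, fun g => ?_, fun x hx => ?_, fun x => ?_⟩
  · apply Matrix.ext_of_mulVec_single
    intro i
    rw [← Matrix.mulVec_mulVec, ← Matrix.mulVec_mulVec, hA, hA]
    generalize (Pi.single i 1 : τ → ℂ) = x
    rw [hL, hL, Matrix.mulVec_sub]
    congr 1
    have h1 : K'.starProjection (e (V.ρ g *ᵥ x)) =
        e (V.ρ g *ᵥ e.symm (K'.starProjection (e x))) := by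
      refine Submodule.eq_starProjection_of_mem_of_inner_eq_zero
        ((hmem _).2 (hK g _ (hP x))) ?_
      rintro w ⟨y, hy, rfl⟩
      obtain ⟨g', hg', hgg⟩ := R.star g.1 g.2
      have hs : V.ρ ⟨g', hg'⟩ = (V.ρ g)ᴴ := V.star g ⟨g', hg'⟩ hgg
      have h2 := hO x _ (hK ⟨g', hg'⟩ y hy)
      show inner ℂ (e (V.ρ g *ᵥ x) - e (V.ρ g *ᵥ e.symm (K'.starProjection (e x)))) (e y) = 0
      have h3 : (V.ρ g *ᵥ (x - e.symm (K'.starProjection (e x)))) ⬝ᵥ star y = 0 := by
        unfold GRep.act at h2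
        rw [hs, Matrix.star_mulVec, Matrix.conjTranspose_conjTranspose] at h2
        rw [dotProduct_comm, Matrix.dotProduct_mulVec, dotProduct_comm]
        exact h2
      rw [← map_sub, ← Matrix.mulVec_sub, ← inner_conj_symm, hin, h3, map_zero]
    rw [h1, LinearEquiv.symm_apply_apply]
  · rw [hA, hL, (Submodule.starProjection_eq_self_iff).2 ((hmem x).2 hx),
      LinearEquiv.symm_apply_apply, sub_self]
  · rw [hA, hL]
    have h1 : x - e.symm (K'.starProjection (e x)) - x = -e.symm (K'.starProjection (e x)) := by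
      abel
    rw [h1]
    exact K.neg_mem (hP x)

end Pool.Agent.KX
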