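import Pool.Agent.H.MP_e23cd6_ag.KX.Defs

/-!
# The fibres of a klt pair over general points
-/

set_option autoImplicit false

open MeasureTheory Matrix Pool.Agent.PG Topology
open scoped ENNReal

namespace Pool.Agent.KX

variable {n : ℕ} {R : RG n} {EF : Type} [NormedAddCommGroup EF] [NormedSpace ℂ EF]
  [MeasureSpace EF] {F : Type} [TopologicalSpace F] {κ ι : Type} [Fintype κ] [DecidableEq κ]
  [Fintype ι] [DecidableEq ι] {m : ℕ} {Φ : Fib R EF F κ ι m}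
  {EZ : Type} [NormedAddCommGroup EZ] [NormedSpace ℂ EZ] [FiniteDimensional ℂ EZ] [MeasureSpace EZ]
  [BorelSpace EZ] [(volume : Measure EZ).IsAddHaarMeasure]
  {Z : Type} [TopologicalSpace Z] {O : ZSp EZ Z} {I : Type}

/-- A nonempty open set is not covered by countably many null pieces of charts. -/
theorem not_null (O : ZSp EZ Z) {V : Set Z} (hV : IsOpen V) {z₀ : Z} (hz₀ : z₀ ∈ V) {r₀ : O.Y}
    (hr₀ : z₀ ∈ (O.ψ r₀).source) (r : ℕ → O.Y) (D : ℕ → Set EZ) (hD : ∀ l, volume (D l) = 0)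
    (hDt : ∀ l, D l ⊆ (O.ψ (r l)).target)
    (hc : ∀ z ∈ V ∩ (O.ψ r₀).source, ∃ l, z ∈ (O.ψ (r l)).source ∧ O.ψ (r l) z ∈ D l) : False := by
  have ho : IsOpen ((O.ψ r₀).target ∩ (O.ψ r₀).symm ⁻¹' V) :=
    (O.ψ r₀).isOpen_inter_preimage_symm hV
  have hne : ((O.ψ r₀).target ∩ (O.ψ r₀).symm ⁻¹' V).Nonempty := by
    refine ⟨O.ψ r₀ z₀, (O.ψ r₀).map_source hr₀, ?_⟩
    show (O.ψ r₀).symm (O.ψ r₀ z₀) ∈ V
    rw [(O.ψ r₀).left_inv hr₀]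
    exact hz₀
  have hpos := ho.measure_pos (volume : Measure EZ) hne
  have hsub : (O.ψ r₀).target ∩ (O.ψ r₀).symm ⁻¹' V ⊆
      ⋃ l, (O.ψ r₀ ∘ (O.ψ (r l)).symm) '' (D l ∩ (O.ψ (r l)).symm ⁻¹' (O.ψ r₀).source) := by
    rintro x ⟨hx, hxV⟩
    have hxs : (O.ψ r₀).symm x ∈ (O.ψ r₀).source := (O.ψ r₀).map_target hx
    obtain ⟨l, h1, h2⟩ := hc _ ⟨hxV, hxs⟩
    refine Set.mem_iUnion.2 ⟨l, O.ψ (r l) ((O.ψ r₀).symm x), ⟨h2, ?_⟩, ?_⟩
    · show (O.ψ (r l)).symm (O.ψ (r l) ((O.ψ r₀).symm x)) ∈ (O.ψ r₀).source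
      rw [(O.ψ (r l)).left_inv h1]
      exact hxs
    · show O.ψ r₀ ((O.ψ (r l)).symm (O.ψ (r l) ((O.ψ r₀).symm x))) = x
      rw [(O.ψ (r l)).left_inv h1, (O.ψ r₀).right_inv hx]
  have hzero : volume (⋃ l, (O.ψ r₀ ∘ (O.ψ (r l)).symm) ''
      (D l ∩ (O.ψ (r l)).symm ⁻¹' (O.ψ r₀).source)) = 0 := by
    refine measure_iUnion_null fun l => ?_
    refine addHaar_image_eq_zero_of_differentiableOn_of_addHaar_eq_zero volume ?_
      (measure_mono_null Set.inter_subset_left (hD l))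
    exact ((O.chg (r l) r₀).mono fun x hx => ⟨hDt l hx.1, hx.2⟩).restrictScalars ℝ
  exact hpos.ne' (measure_mono_null hsub hzero)

/-- MODULE Pt. -/
theorem klt_pt (_ : 1 ≤ m) (X : Bun Φ O.toCSp I) {a c e : I → I → Z → ℂ} (C : Can X m c)
    (s : SecS X a) (h : KltX C s) (k : SecZ X e) {i : I} {z : Z} (hz : z ∈ X.U i)
    (hk : k.f i z ≠ 0) : ∃ i' z', z' ∈ X.U i' ∧ k.f i' z' ≠ 0 ∧ Φ.Klt (s.S i' z') := by
  obtain ⟨i', hz', V, hV, r, B, kk, A, ⟨hB, hBc⟩, ⟨hA, hAc⟩, hfin⟩ := h z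
  have hk' : k.f i' z ≠ 0 := by
    intro h0
    apply hk
    rw [k.glue i i' z ⟨hz, hz'⟩, h0, mul_zero]
  by_contra hcon
  push Not at hcon
  have h1 : ∀ᶠ w in 𝓝[X.U i'] z, k.f i' w ≠ 0 :=
    (O.cont _ (X.U_open i') _ (k.hol i') z hz').eventually_ne hk'
  rw [(X.U_open i').nhdsWithin_eq hz'] at h1
  obtain ⟨V', hV', hV'o, hzV'⟩ := mem_nhds_iff.1 (Filter.inter_mem (Filter.inter_mem hV h1)
    ((X.U_open i').mem_nhds hz'))
  obtain ⟨r₀, z₀, hz₀, hzr₀⟩ := O.dense V' hV'o ⟨z, hzV'⟩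
  have hinf : ∀ w ∈ V', ∑' l', ∫⁻ y in A l', Φ.dens (s.S i' w) 0 (kk l') y = ⊤ := by
    intro w hw
    by_contra hne
    refine hcon i' w (hV' hw).2 (hV' hw).1.2 fun y => ⟨Set.univ, Filter.univ_mem, kk, A, hA, ?_,
      lt_top_iff_ne_top.2 hne⟩
    intro j y hy
    exact hAc j y hy.2
  refine not_null O hV'o hz₀ hzr₀ r
    (fun l => B l ∩ ((O.ψ (r l)).target ∩ (O.ψ (r l)).symm ⁻¹' V')) (fun l => ?_)
    (fun l x hx => hx.2.1) ?_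
  · by_contra hne
    have hmeas : MeasurableSet (B l ∩ ((O.ψ (r l)).target ∩ (O.ψ (r l)).symm ⁻¹' V')) :=
      (hB l).1.inter ((O.ψ (r l)).isOpen_inter_preimage_symm hV'o).measurableSet
    have h2 := ENNReal.ne_top_of_tsum_ne_top hfin.ne l
    apply h2
    rw [eq_top_iff]
    calc (⊤ : ℝ≥0∞) = ⊤ * volume (B l ∩ ((O.ψ (r l)).target ∩ (O.ψ (r l)).symm ⁻¹' V')) := by
          rw [ENNReal.top_mul hne]
      _ = ∫⁻ _ in B l ∩ ((O.ψ (r l)).target ∩ (O.ψ (r l)).symm ⁻¹' V'), ⊤ := by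
          rw [setLIntegral_const]
      _ = ∫⁻ x in B l ∩ ((O.ψ (r l)).target ∩ (O.ψ (r l)).symm ⁻¹' V'),
          ‖C.u i' (r l) ((O.ψ (r l)).symm x)‖ₑ ^ (2 / m : ℝ) *
            ∑' l', ∫⁻ y in A l', Φ.dens (s.S i' ((O.ψ (r l)).symm x)) 0 (kk l') y := by
          refine setLIntegral_congr_fun hmeas fun x hx => ?_
          rw [hinf _ hx.2.2, ENNReal.mul_top]
          have h3 : C.u i' (r l) ((O.ψ (r l)).symm x) ≠ 0 :=
            C.ne i' (r l) _ ⟨(hV' hx.2.2).2, (O.ψ (r l)).map_target hx.2.1⟩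
          intro h4
          rw [ENNReal.rpow_eq_zero_iff] at h4
          rcases h4 with ⟨h4, -⟩ | ⟨h4, -⟩
          · exact h3 (enorm_eq_zero.1 h4)
          · exact enorm_ne_top h4
      _ ≤ _ := lintegral_mono_set Set.inter_subset_left
  · intro w hw
    obtain ⟨l, h2, h3⟩ := hBc r₀ w ⟨(hV' hw.1).1.1, hw.2⟩
    refine ⟨l, h2, h3, (O.ψ (r l)).map_source h2, ?_⟩
    show (O.ψ (r l)).symm (O.ψ (r l) w) ∈ V'
    rw [(O.ψ (r l)).left_inv h2]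
    exact hw.1

end Pool.Agent.KX
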