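import Pool.Agent.H.MP_e23cd6_ag.KX.Core3
import Pool.Agent.H.MP_e23cd6_ag.KX.KltN
import Pool.Agent.H.MP_e23cd6_ag.KX.FinF
import Pool.Agent.H.MP_e23cd6_ag.KX.Phi
import Pool.Agent.H.MP_e23cd6_ag.KX.Null
import Pool.Agent.H.MP_e23cd6_ag.PB.GFinal

/-!
# The map given by the sections of a power of `L'`
-/

set_option autoImplicit false

open MeasureTheory Matrix Pool.Agent.PG Pool.Agent.SG Topology

namespace Pool.Agent.KX

section rep

variable {n : ℕ} {R : RG n} {ι κ : Type} [Fintype ι] [DecidableEq ι] [Fintype κ] [DecidableEq κ]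

/-- The vector of the criterion `B`. -/
noncomputable def bv (d e : ℕ) (S : ι → ℂ) (x : κ → ℂ) :
    ((Fin d → ι) × (Fin e → κ)) × Unit → ℂ := tv (tv (vp d S) (vp e x)) (fun _ => 1)

/-- The representation of the criterion `B`. -/
noncomputable def BR (V : GRep R ι) (W : GRep R κ) (d e : ℕ) :
    GRep R (((Fin d → ι) × (Fin e → κ)) × Unit) :=
  ((V.pow d).tens (W.pow e)).tens W.detr.dual

theorem bv_act (V : GRep R ι) (W : GRep R κ) (d e : ℕ) (g : R.G) (S : ι → ℂ) (x : κ → ℂ) (a : ℂ) :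
    bv d e (a • V.act g S) (W.act g x) =
      (a ^ d * (W.ρ g).det) • (BR V W d e).act g (bv d e S x) := by
  unfold bv BR
  rw [GRep.act_tens, GRep.act_tens, act_pow, act_pow, detr_dual_act, vp_smul]
  have h := mul_inv_cancel₀ (detr_act_ne W g)
  funext p
  simp only [tv, Pi.smul_apply, smul_eq_mul]
  linear_combination (-(a ^ d * (vp d (V.act g S) p.1.1 * vp e (W.act g x) p.1.2))) * h

omit [Fintype ι] [DecidableEq ι] [Fintype κ] [DecidableEq κ] in
theorem bv_smul (d e : ℕ) (S : ι → ℂ) (x : κ → ℂ) (t : ℂ) :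
    bv d e (t • S) x = t ^ d • bv d e S x := by
  unfold bv
  rw [vp_smul]
  funext p
  simp only [tv, Pi.smul_apply, smul_eq_mul]
  ring

/-- The invariants of `S` for which the polynomials of the criterion `B` have no common zero. -/
theorem inv_good (V : GRep R ι) (W : GRep R κ) [Nonempty κ] :
    ∃ d M : ℕ, 1 ≤ d ∧ 1 ≤ M ∧ ∃ (p : ℕ)
      (P : Fin p → MvPolynomial (((Fin d → ι) × (Fin (d + Fintype.card κ) → κ)) × Unit) ℂ),
      (∀ l, (BR V W d (d + Fintype.card κ)).Inv M (P l)) ∧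
      ∀ S₀, N1 V W S₀ → N3 V W S₀ →
        ∃ r : ℕ, 1 ≤ r ∧ ∃ f : MvPolynomial ι ℂ, f.IsHomogeneous (Fintype.card κ * r) ∧
          (∀ g S, MvPolynomial.eval (V.act g S) f * (W.ρ g).det ^ r = MvPolynomial.eval S f) ∧
          MvPolynomial.eval S₀ f ≠ 0 ∧ ∀ S, MvPolynomial.eval S f ≠ 0 → ∀ x : κ → ℂ, x ≠ 0 →
            ∃ l, MvPolynomial.eval (bv d (d + Fintype.card κ) S x) (P l) ≠ 0 := by
  obtain ⟨d, M, hd, hM, hB⟩ := crit_B' V W
  obtain ⟨p, P, hP, hF⟩ := finF (BR V W d (d + Fintype.card κ)) M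
  refine ⟨d, M, hd, hM, p, P, hP, fun S₀ h1 h2 => ?_⟩
  have hΨ := fun l => phi_poly (hP l).hom
  choose Ψ hΨh hΨe using hΨ
  obtain ⟨D, f, hf, hf0, hfx⟩ := null (D₀ := d * M) Ψ hΨh (by
    intro l t S x
    rw [hΨe, hΨe]
    have h3 := bv_smul d (d + Fintype.card κ) S x t
    unfold bv at h3
    rw [h3, eval_smul_hom (hP l).hom, ← pow_mul]) S₀ (by
    intro x hx
    obtain ⟨l, hl⟩ := hF _ (hB S₀ h1 (fun k H hH hne => h2 k H hH (Or.inl hne)) x hx)
    refine ⟨l, ?_⟩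
    rw [hΨe]
    exact hl)
  obtain ⟨r, hr, g, hg, hgi, hg0, hgb⟩ := inv_of_poly V W hf
    (Bad := {S | ∃ x : κ → ℂ, x ≠ 0 ∧ ∀ l,
      MvPolynomial.eval (bv d (d + Fintype.card κ) S x) (P l) = 0}) (by
      rintro S ⟨x, hx, h3⟩ g
      refine ⟨W.act g x, act_ne W g hx, fun l => ?_⟩
      have h4 := bv_act V W d (d + Fintype.card κ) g S x 1
      rw [one_smul] at h4
      rw [h4, eval_smul_hom (hP l).hom, (hP l).inv, h3 l, mul_zero]) (by
      rintro S ⟨x, hx, h3⟩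
      by_contra h4
      obtain ⟨l, hl⟩ := hfx S h4 x hx
      rw [hΨe] at hl
      exact hl (h3 l)) hf0 h1 h2
  refine ⟨r, hr, g, hg, hgi, hg0, fun S hS x hx => ?_⟩
  by_contra h3
  push Not at h3
  exact hS (hgb S ⟨x, hx, h3⟩)

end rep

section tot

variable {n : ℕ} {R : RG n} {EF : Type} [NormedAddCommGroup EF] [NormedSpace ℂ EF]
  {F : Type} [TopologicalSpace F] {κ ι : Type} [Fintype κ] [DecidableEq κ] [Fintype ι]
  [DecidableEq ι] {m : ℕ} {Φ : Fib R EF F κ ι m}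
  {EZ : Type} [NormedAddCommGroup EZ] [NormedSpace ℂ EZ] {Z : Type} [TopologicalSpace Z]
  {O : ZSp EZ Z} {I : Type}

/-- Finitely many sections without common zero. -/
theorem SemiZ.fin [CompactSpace Z] {X : Bun Φ O.toCSp I} {b : I → I → Z → ℂ} (h : SemiZ X b) :
    ∃ q : ℕ, 1 ≤ q ∧ ∃ (a : ℕ) (t : Fin a → SecZ X (fun i j z => b i j z ^ q)),
      ∀ i, ∀ z ∈ X.U i, ∃ j, (t j).f i z ≠ 0 := by
  obtain ⟨q, hq, h⟩ := h
  refine ⟨q, hq, ?_⟩
  have h1 : ∀ z : Z, ∃ (t : SecZ X (fun i j z => b i j z ^ q)), ∃ U ∈ 𝓝 z, ∀ w ∈ U, ∀ i,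
      w ∈ X.U i → t.f i w ≠ 0 := by
    intro z
    obtain ⟨i, hi⟩ := X.cover z
    obtain ⟨t, ht⟩ := h i z hi
    have h2 : ∀ᶠ w in 𝓝[X.U i] z, t.f i w ≠ 0 :=
      (O.cont _ (X.U_open i) _ (t.hol i) z hi).eventually_ne ht
    rw [(X.U_open i).nhdsWithin_eq hi] at h2
    refine ⟨t, _, Filter.inter_mem h2 ((X.U_open i).mem_nhds hi), fun w hw j hj h0 => ?_⟩
    apply hw.1
    rw [t.glue i j w ⟨hw.2, hj⟩, h0, mul_zero]
  choose t U hU ht using h1
  obtain ⟨s, hs⟩ := CompactSpace.elim_nhds_subcover U hU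
  refine ⟨s.card, fun j => t (s.equivFin.symm j), fun i z hz => ?_⟩
  have h2 : z ∈ ⋃ x ∈ s, U x := by
    rw [hs]
    exact Set.mem_univ _
  rw [Set.mem_iUnion₂] at h2
  obtain ⟨x, hx, hzx⟩ := h2
  refine ⟨s.equivFin ⟨x, hx⟩, ?_⟩
  beta_reduce
  rw [Equiv.symm_apply_apply]
  exact ht x z hzx i hz

/-- The invariant polynomial of `S` gives a section of `λ ^ r`. -/
theorem sec_of_inv (X : Bun Φ O.toCSp I) {a : I → I → Z → ℂ} (s : SecS X a) {r : ℕ}
    {f : MvPolynomial ι ℂ} (hf : f.IsHomogeneous (Fintype.card κ * r))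
    (hfi : ∀ g S, MvPolynomial.eval (Φ.Rs.dual.act g S) f * (Φ.RN.ρ g).det ^ r =
      MvPolynomial.eval S f) :
    ∃ t : SecZ X (fun i j z => X.lam a i j z ^ r), ∀ i z, t.f i z =
      MvPolynomial.eval (s.S i z) f := by
  refine ⟨⟨fun i z => MvPolynomial.eval (s.S i z) f, fun i => ?_, fun i j z hz => ?_⟩,
    fun i z => rfl⟩
  · have h1 : ∀ p, HF O.toCSp (X.U i) 0 (fun z (_ : Fin 0 → ℂ) => s.S i z p) :=
      fun p => HF.const (s.hol i p)
    obtain ⟨S, hS, h2⟩ := (HF.evalP hf h1).cast (m := 0) (Nat.zero_mul _)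
    refine O.toCSp.congr (X.U_open i) (hS default) fun z hz => ?_
    have h3 := h2 z hz default
    beta_reduce at h3 ⊢
    rw [h3, Finset.sum_eq_single default]
    · simp
    · intro κ _ hκ
      exact absurd (Subsingleton.elim κ default) hκ
    · intro h
      exact absurd (Finset.mem_univ _) h
  · show MvPolynomial.eval (s.S i z) f = X.lam a i j z ^ r * MvPolynomial.eval (s.S j z) f
    rw [s.trans hz, eval_smul_hom hf, ← hfi (X.γ i j z) (s.S j z)]
    unfold Bun.lam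
    have h := mul_inv_cancel₀ (pow_ne_zero r (detr_act_ne Φ.RN (X.γ i j z)))
    rw [mul_pow, ← pow_mul, inv_pow]
    linear_combination (-(a i j z ^ (Fintype.card κ * r) *
      MvPolynomial.eval (Φ.Rs.dual.act (X.γ i j z) (s.S j z)) f)) * h

/-- The section `P l (S, x) ^ q * k` of a power of `L'`. -/
theorem sec_B (X : Bun Φ O.toCSp I) {a c : I → I → Z → ℂ} (s : SecS X a) {d M : ℕ}
    {P : MvPolynomial (((Fin d → ι) × (Fin (d + Fintype.card κ) → κ)) × Unit) ℂ}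
    (hP : (BR Φ.Rs.dual Φ.RN d (d + Fintype.card κ)).Inv M P) {q Q : ℕ}
    (hQ : (d + Fintype.card κ) * M * q = Q)
    (k : SecZ X (fun i j z => lam' X a c i j z ^ (M * q) * c i j z ^ (d * (M * q)))) :
    ∃ T : SecN X Q (fun i j z => (a i j z * c i j z) ^ Q), ∀ i, ∀ z ∈ X.U i, ∀ x,
      tp (T.T i z) x = k.f i z * MvPolynomial.eval (bv d (d + Fintype.card κ) (s.S i z) x) P ^ q := by
  refine assemble_eq X hP (d := d + Fintype.card κ)
    (u := fun i z x => bv d (d + Fintype.card κ) (s.S i z) x)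
    (w := fun i j z => a i j z ^ d * (Φ.RN.ρ (X.γ i j z)).det) (fun i p => ?_)
    (fun i j z hz j' y hy => ?_) k q hQ (fun i j z hz => ?_)
  · refine (HF.smul (hol_vp (X.U_open i) (s.hol i) d p.1.1) (HF_vp (d + Fintype.card κ) p.1.2)).congr
      fun z _ x => ?_
    exact mul_one _
  · rw [s.trans hz]
    exact bv_act Φ.Rs.dual Φ.RN d (d + Fintype.card κ) (X.γ i j z) (s.S j z) (Φ.v j' y) (a i j z)
  · have h := inv_mul_cancel₀ (detr_act_ne Φ.RN (X.γ i j z))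
    unfold lam' Bun.lam
    rw [pow_mul (c i j z) d, ← mul_pow, ← mul_pow]
    have e1 : a i j z ^ Fintype.card κ * ((Φ.RN.ρ (X.γ i j z)).det)⁻¹ * c i j z ^ Fintype.card κ *
        c i j z ^ d * (a i j z ^ d * (Φ.RN.ρ (X.γ i j z)).det) =
        (a i j z * c i j z) ^ (d + Fintype.card κ) := by
      rw [mul_pow, pow_add, pow_add]
      linear_combination (a i j z ^ d * a i j z ^ Fintype.card κ * c i j z ^ d *
        c i j z ^ Fintype.card κ) * h
    rw [e1, ← pow_mul, ← hQ, mul_assoc]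

end tot

section fin

variable {n : ℕ} {R : RG n} {EF : Type} [NormedAddCommGroup EF] [NormedSpace ℂ EF]
  [FiniteDimensional ℂ EF] [MeasureSpace EF] [BorelSpace EF]
  [(volume : Measure EF).IsAddHaarMeasure] {F : Type}
  [TopologicalSpace F] [CompactSpace F] {κ ι : Type} [Fintype κ] [DecidableEq κ] [Fintype ι]
  [DecidableEq ι] {m : ℕ}

/-- MODULE Three. -/
theorem part_three (Φ : Fib R EF F κ ι m) (hσ : SND Φ) (hm : 1 ≤ m) : ∃ d : ℕ, 1 ≤ d ∧
    ∀ {EZ : Type} [NormedAddCommGroup EZ] [NormedSpace ℂ EZ] {Z : Type} [TopologicalSpace Z]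
      [CompactSpace Z] {O : ZSp EZ Z} {I : Type} (X : Bun Φ O.toCSp I) {a c : I → I → Z → ℂ}
      (s : SecS X a), SemiZ X (lam' X a c) → ∀ {l p : ℕ}, d * l < p →
      ∀ (k : SecZ X (fun i j z => lam' X a c i j z ^ l * c i j z ^ p)) {i : I} {z : Z},
        z ∈ X.U i → k.f i z ≠ 0 → Φ.Klt (s.S i z) →
          AbunAt X (fun i j z => a i j z * c i j z) z := by
  -- sections of `N` exist
  have : Nonempty κ := by
    obtain ⟨j, y, hy⟩ := Φ.ne
    obtain ⟨β, -⟩ := Function.ne_iff.1 (Φ.v_ne j y (Φ.sub j hy))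
    exact ⟨β⟩
  have hκ : 1 ≤ Fintype.card κ := Fintype.card_pos
  obtain ⟨d, M, hd, hM, np, P, hP, hgood⟩ := inv_good Φ.Rs.dual Φ.RN
  refine ⟨d, hd, ?_⟩
  intro EZ _ _ Z _ _ O I X a c s hs l p hlp k i z hz hk hK
  obtain ⟨w, hw⟩ : ∃ w, p = d * l + w := ⟨p - d * l, by omega⟩
  have hw1 : 1 ≤ w := by omega
  have hp1 : 1 ≤ p := by omega
  obtain ⟨r, hr, f, hf, hfi, hf0, hfx⟩ := hgood (s.S i z) (num_lc Φ hm (klt_LC Φ hm hK))
    (num_klt2 Φ hσ hm hK)
  obtain ⟨tI, htI⟩ := sec_of_inv X s hf hfi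
  obtain ⟨q₁, hq₁, a', A, hA⟩ := hs.fin
  -- the sections of `λ' ^ N0`
  obtain ⟨N0, hN0⟩ : ∃ N0, N0 = q₁ * (r * (p + l * Fintype.card κ)) := ⟨_, rfl⟩
  have hN0p : 1 ≤ N0 := hN0 ▸ Nat.mul_pos hq₁ (Nat.mul_pos hr (by omega))
  obtain ⟨E, hEs, hEn⟩ : ∃ E : Option (Fin a') → SecZ X (fun i j z => lam' X a c i j z ^ N0),
      (∀ t i z, (E (some t)).f i z = (A t).f i z ^ (r * (p + l * Fintype.card κ))) ∧
      ∀ i z, (E none).f i z = (tI.f i z ^ p * k.f i z ^ (Fintype.card κ * r)) ^ q₁ := by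
    refine ⟨fun e => match e with
      | some t => castZ (powZ (A t) (r * (p + l * Fintype.card κ))) _ (fun i j z _ => by
        rw [← pow_mul, hN0])
      | none => castZ (powZ (mulZ (powZ tI p) (powZ k (Fintype.card κ * r))) q₁) _
          (fun i j z _ => by
            rw [hN0]
            unfold lam'
            ring), fun t i z => rfl, fun i z => rfl⟩
  -- the sections on `X`
  obtain ⟨m', hm'⟩ : ∃ m', m' = M * w := ⟨_, rfl⟩
  have hm'p : 1 ≤ m' := hm' ▸ Nat.mul_pos hM hw1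
  obtain ⟨Q, hQ⟩ : ∃ Q, Q = (d + Fintype.card κ) * M * (p * N0) := ⟨_, rfl⟩
  have hQp : 1 ≤ Q := by
    rw [hQ]
    exact Nat.mul_pos (Nat.mul_pos (by omega) hM) (Nat.mul_pos hp1 hN0p)
  have hTT : ∀ (l' : Fin np) (e : Option (Fin a')), ∃ T : SecN X Q
      (fun i j z => (a i j z * c i j z) ^ Q), ∀ i, ∀ z ∈ X.U i, ∀ x,
      tp (T.T i z) x = ((E e).f i z ^ m' * k.f i z ^ (d * N0 * M)) *
        MvPolynomial.eval (bv d (d + Fintype.card κ) (s.S i z) x) (P l') ^ (p * N0) := by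
    intro l' e
    exact sec_B X s (hP l') hQ.symm (castZ (mulZ (powZ (E e) m') (powZ k (d * N0 * M))) _
      (fun i j z _ => by
        rw [mul_pow, ← pow_mul, ← pow_mul, ← pow_mul, ← mul_assoc, ← pow_add, hm']
        congr 2
        · rw [hw]
          ring
        · ring))
  choose TT hTT using hTT
  refine abundant_core X _ hQp TT
    (fun l' i z x => MvPolynomial.eval (bv d (d + Fintype.card κ) (s.S i z) x) (P l'))
    (fun e => (E e).f) (fun i z => k.f i z ^ (d * N0 * M)) (N := p * N0) hm'p ?_ ?_ ?_ ?_ ?_ ?_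
  · intro l' e i z hz x
    rw [hTT l' e i z hz x]
    ring
  · intro i z hz
    obtain ⟨t, ht⟩ := hA i z hz
    refine ⟨t, ?_⟩
    rw [hEs]
    exact pow_ne_zero _ ht
  · exact fun e i => O.cont _ (X.U_open i) _ ((E e).hol i)
  · intro i z hz h0
    rw [hEn] at h0
    have h1 : tI.f i z ^ p * k.f i z ^ (Fintype.card κ * r) ≠ 0 := fun h2 => h0 (by
      rw [h2, zero_pow (by omega)])
    have h2 : tI.f i z ≠ 0 := fun h3 => left_ne_zero_of_mul h1 (by
      rw [h3, zero_pow (by omega)])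
    have h3 : k.f i z ≠ 0 := fun h4 => right_ne_zero_of_mul h1 (by
      rw [h4, zero_pow (Nat.mul_pos hκ hr).ne'])
    rw [htI] at h2
    exact ⟨pow_ne_zero _ h3, hfx _ h2⟩
  · intro i j z hz h0 h1
    apply h0
    rw [(E none).glue i j z hz, h1, mul_zero]
  · refine ⟨i, hz, ?_⟩
    rw [hEn, htI]
    exact pow_ne_zero _ (mul_ne_zero (pow_ne_zero _ hf0) (pow_ne_zero _ hk))

end fin

end Pool.Agent.KX
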