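import Pool.Agent.H.MP_e23cd6_ag.KX.TwoA
import Pool.Agent.H.MP_e23cd6_ag.KX.Limit
import Pool.Agent.H.MP_e23cd6_ag.PB.GFinal

/-!
# The line bundle `λ'` on `Z` is nef if `L'` is nef
-/

set_option autoImplicit false

open Matrix Pool.Agent.PG Pool.Agent.SG

namespace Pool.Agent.KX.T2

section rep

variable {n : ℕ} {R : RG n} {τ σ : Type} [Fintype τ] [DecidableEq τ] [Fintype σ] [DecidableEq σ]

theorem tens_trv_act (V : GRep R τ) (g : R.G) (y : τ × σ → ℂ) (p : τ × σ) :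
    (V.tens (trv R σ)).act g y p = V.act g (fun i => y (i, p.2)) p.1 := by
  show ∑ r : τ × σ, (V.ρ g p.1 r.1 * (1 : Matrix σ σ ℂ) p.2 r.2) * y r =
    ∑ i, V.ρ g p.1 i * y (i, p.2)
  rw [Fintype.sum_prod_type]
  refine Finset.sum_congr rfl fun i _ => ?_
  rw [Finset.sum_eq_single p.2]
  · rw [Matrix.one_apply_eq, mul_one]
  · intro j _ hj
    rw [Matrix.one_apply_ne hj.symm, mul_zero, zero_mul]
  · intro h
    exact absurd (Finset.mem_univ _) h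

theorem detr_pow_act (V : GRep R τ) (a : ℕ) (g : R.G) :
    (V.detr.pow a).act g (vp a (fun _ => 1)) = (V.ρ g).det ^ a • vp a (fun _ : Unit => (1 : ℂ)) := by
  rw [act_pow, detr_act, vp_smul]

theorem vp_one_ne (a : ℕ) (α : Fin a → Unit) : vp a (fun _ : Unit => (1 : ℂ)) α ≠ 0 := by
  rw [vp_apply, Finset.prod_const_one]
  exact one_ne_zero

end rep

theorem sum_mem {Z : Type} [TopologicalSpace Z] (O : CSp Z) {U : Set Z} {β : Type}
    (s : Finset β) (c : β → ℂ) {f : β → Z → ℂ} (hf : ∀ b, f b ∈ O.O U) (hU : IsOpen U) :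
    (fun z => ∑ b ∈ s, c b * f b z) ∈ O.O U := by
  classical
  induction s using Finset.induction_on with
  | empty => simpa using O.const U 0
  | insert a s ha ih =>
    refine O.congr hU (O.add U _ (O.mul U _ (O.const U (c a)) _ (hf a)) _ ih) fun z _ => ?_
    rw [Finset.sum_insert ha]

section tot

variable {n : ℕ} {R : RG n} {EF : Type} [NormedAddCommGroup EF] [NormedSpace ℂ EF] {F : Type}
  [TopologicalSpace F] [CompactSpace F] {κ ι : Type} [Fintype κ] [DecidableEq κ] [Fintype ι]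
  [DecidableEq ι] {m : ℕ} {Φ : Fib R EF F κ ι m}
  {EZ : Type} [NormedAddCommGroup EZ] [NormedSpace ℂ EZ]
  {Z : Type} [TopologicalSpace Z] [CompactSpace Z] {O : ZSp EZ Z} {I : Type}

/-- A line bundle is semiample if its power is. -/
theorem semi_of_pow {X : Bun Φ O.toCSp I} {b : I → I → Z → ℂ} {q : ℕ} (hq : 1 ≤ q)
    {b₁ : I → I → Z → ℂ} (hb : ∀ i j z, b₁ i j z = b i j z ^ q) (h : SemiZ X b₁) : SemiZ X b := by
  obtain ⟨q₁, hq₁, h⟩ := h
  refine ⟨q * q₁, Nat.mul_pos hq hq₁, fun i z hz => ?_⟩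
  obtain ⟨t, ht⟩ := h i z hz
  refine ⟨⟨t.f, t.hol, fun i j z hz => ?_⟩, ht⟩
  rw [t.glue i j z hz, hb, ← pow_mul]

set_option synthInstance.maxSize 1000 in
/-- Sections of `N ^ q ⊗ P ^ q' ⊗ B` without common zero give sections of a power of a line bundle on
`Z`. -/
theorem aux_gen (X : Bun Φ O.toCSp I) {κ' : Type} [Fintype κ']
    [DecidableEq κ'] (P : Lin Φ κ') {q q' : ℕ} (hq' : 1 ≤ q') {B : I → I → Z → ℂ}
    (hgen : ∀ i, ∀ z ∈ X.U i, ∀ j, ∀ y ∈ Φ.W j,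
      ∃ T : SecNP X P q q' B, tpp (T.T i z) (Φ.v j y) (P.w j y) ≠ 0) (N e₁ e₂ : ℕ)
    (hnum : ∀ H ∈ R.a, ∀ α : (Fin q → κ) × (Fin q' → κ'),
      (∀ t β, Φ.RN.lam (α.1 t) H ≤ Φ.RN.lam β H) → (∀ t γ, P.RP.lam (α.2 t) H ≤ P.RP.lam γ H) →
      N * (∑ t, Φ.RN.lam (α.1 t) H + ∑ t, P.RP.lam (α.2 t) H) ≤
        e₁ * ∑ β, Φ.RN.lam β H + e₂ * ∑ γ, P.RP.lam γ H) :
    SemiZ X (fun i j z => B i j z ^ N * (((Φ.RN.ρ (X.γ i j z)).det)⁻¹ ^ e₁ *
      ((P.RP.ρ (X.γ i j z)).det)⁻¹ ^ e₂)) := by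
  obtain ⟨p, T, hT⟩ := fin_gen X hgen
  obtain ⟨A, hA, hK, hAe⟩ := exists_A P q q'
  obtain ⟨M, hM, hcrit⟩ := crit_unif ((((TR Φ.RN P.RP q q').tens (trv R (Fin p))).pow
    N).tens ((Φ.RN.detr.pow e₁).tens (P.RP.detr.pow e₂)))
  refine ⟨M, hM, fun i z hz => ?_⟩
  obtain ⟨x, hx⟩ : ∃ x : I → Z → ((Fin q → κ) × (Fin q' → κ')) × Fin p → ℂ,
      x = fun i z r => (A *ᵥ (T r.2).T i z) r.1 := ⟨_, rfl⟩
  obtain ⟨u, hu⟩ : ∃ u : I → Z → (Fin N →
      ((Fin q → κ) × (Fin q' → κ')) × Fin p) × ((Fin e₁ → Unit) × (Fin e₂ → Unit)) → ℂ,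
      u = fun i z => tv (vp N (x i z)) (tv (vp e₁ (fun _ => 1)) (vp e₂ (fun _ => 1))) :=
    ⟨_, rfl⟩
  have hact : ∀ (g : R.G) (i : I) (z : Z), ((((TR Φ.RN P.RP q q').tens
      (trv R (Fin p))).pow N).tens ((Φ.RN.detr.pow e₁).tens (P.RP.detr.pow e₂))).act g (u i z) =
      tv (vp N (((TR Φ.RN P.RP q q').tens (trv R (Fin p))).act g (x i z)))
        (tv ((Φ.RN.ρ g).det ^ e₁ • vp e₁ (fun _ => 1))
          ((P.RP.ρ g).det ^ e₂ • vp e₂ (fun _ => 1))) := by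
    intro g i z
    rw [hu, GRep.act_tens, GRep.act_tens, act_pow, detr_pow_act, detr_pow_act]
  obtain ⟨Q, hQ, hne⟩ := hcrit (u i z) (by
    intro k _ H hH
    obtain ⟨l, α, hα, hv, hw⟩ := limit Φ P hq' (fun l => A *ᵥ (T l).T i z) (fun j y hy => by
      obtain ⟨l, hl⟩ := hT i z hz j y hy
      exact ⟨l, by rw [hAe _ j y hy]; exact hl⟩) k hH
    refine ⟨(fun _ => (α, l), (fun _ => (), fun _ => ())), ?_, ?_⟩
    · rw [hact]
      refine mul_ne_zero (vp_ne fun t => ?_) (mul_ne_zero ?_ ?_)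
      · rw [tens_trv_act, hx]
        exact hα
      · exact mul_ne_zero (pow_ne_zero _ (det_ne_zero _ _)) (vp_one_ne _ _)
      · exact mul_ne_zero (pow_ne_zero _ (det_ne_zero _ _)) (vp_one_ne _ _)
    · have h3 := hnum H hH α hv hw
      have h4 : (trv R (Fin p)).lam l H = 0 := rfl
      simp only [GRep.tens_lam, pow_lam, GRep.dual_lam, Finset.sum_neg_distrib, Finset.sum_const,
        Finset.card_univ, Fintype.card_fin, nsmul_eq_mul, detr_lam, h4]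
      linarith)
  have htr : ∀ i j, ∀ z ∈ X.U i ∩ X.U j, x i z =
      B i j z • ((TR Φ.RN P.RP q q').tens (trv R (Fin p))).act (X.γ i j z) (x j z) := by
    intro i j z hz
    funext r
    rw [Pi.smul_apply, tens_trv_act, hx]
    beta_reduce
    exact congrFun (SecNP.trans (T r.2) hA hK hz) r.1
  refine assembleZ X hQ (u := u) (w := fun i j z => B i j z ^ N *
      (((Φ.RN.ρ (X.γ i j z)).det)⁻¹ ^ e₁ * ((P.RP.ρ (X.γ i j z)).det)⁻¹ ^ e₂))
    (fun i r => ?_) (fun i j z hz => ?_) (fun i j z _ => rfl) hne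
  · have h1 : ∀ r', (fun z => x i z r') ∈ O.O (X.U i) := by
      intro r'
      rw [hx]
      exact sum_mem O.toCSp Finset.univ (fun s => A r'.1 s) (fun s => (T r'.2).hol i s)
        (X.U_open i)
    have h2 := O.toCSp.mul _ _ (hol_vp (X.U_open i) h1 N r.1) _
      (O.const (X.U i) (tv (vp e₁ (fun _ => 1)) (vp e₂ (fun _ => 1)) r.2))
    refine O.toCSp.congr (X.U_open i) h2 fun z _ => ?_
    rw [hu]
    rfl
  · rw [hact, hu]
    beta_reduce
    rw [htr i j z hz, vp_smul]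
    have hd1 : ((Φ.RN.ρ (X.γ i j z)).det)⁻¹ * (Φ.RN.ρ (X.γ i j z)).det = 1 :=
      inv_mul_cancel₀ (det_ne_zero _ _)
    have hd2 : ((P.RP.ρ (X.γ i j z)).det)⁻¹ * (P.RP.ρ (X.γ i j z)).det = 1 :=
      inv_mul_cancel₀ (det_ne_zero _ _)
    have hp1 : ((Φ.RN.ρ (X.γ i j z)).det)⁻¹ ^ e₁ * (Φ.RN.ρ (X.γ i j z)).det ^ e₁ = 1 := by
      rw [← mul_pow, hd1, one_pow]
    have hp2 : ((P.RP.ρ (X.γ i j z)).det)⁻¹ ^ e₂ * (P.RP.ρ (X.γ i j z)).det ^ e₂ = 1 := by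
      rw [← mul_pow, hd2, one_pow]
    funext r
    simp only [tv, Pi.smul_apply, smul_eq_mul]
    generalize vp N _ r.1 = y1
    generalize vp e₁ _ r.2.1 = y2
    generalize vp e₂ _ r.2.2 = y3
    generalize ((Φ.RN.ρ (X.γ i j z)).det)⁻¹ ^ e₁ = f1 at hp1 ⊢
    generalize (Φ.RN.ρ (X.γ i j z)).det ^ e₁ = f2 at hp1 ⊢
    generalize ((P.RP.ρ (X.γ i j z)).det)⁻¹ ^ e₂ = f3 at hp2 ⊢
    generalize (P.RP.ρ (X.γ i j z)).det ^ e₂ = f4 at hp2 ⊢
    generalize B i j z ^ N = f5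
    calc f5 * y1 * (y2 * y3) = f5 * y1 * y2 * y3 * (1 * 1) := by ring
      _ = f5 * y1 * y2 * y3 * ((f1 * f2) * (f3 * f4)) := by rw [hp1, hp2]
      _ = _ := by ring

theorem min_sum {α : Type} [Fintype α] {f : α → ℝ} {x : ℝ} (h : ∀ β, x ≤ f β) :
    Fintype.card α * x ≤ ∑ β, f β := by
  have h2 := Finset.sum_le_sum fun (β : α) (_ : β ∈ Finset.univ) => h β
  rwa [Finset.sum_const, Finset.card_univ, nsmul_eq_mul] at h2

/-- The sections of a power of `L' ^ n' ⊗ P` give sections of a power of a line bundle on `Z`. -/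
theorem aux_two (X : Bun Φ O.toCSp I) (a c : I → I → Z → ℂ) {κ' : Type} [Fintype κ']
    [DecidableEq κ'] (P : Lin Φ κ') (b' : I → I → Z → ℂ) (n' : ℕ) {q : ℕ} (hq : 1 ≤ q)
    (hgen : ∀ i, ∀ z ∈ X.U i, ∀ j, ∀ y ∈ Φ.W j,
      ∃ T : SecNP X P (n' * q) q (fun i j z => ((a i j z * c i j z) ^ n' * b' i j z) ^ q),
        tpp (T.T i z) (Φ.v j y) (P.w j y) ≠ 0) :
    SemiZ X (fun i j z => lam' X a c i j z ^ (Fintype.card κ' * n') *
      (b' i j z ^ Fintype.card κ' * ((P.RP.ρ (X.γ i j z)).det)⁻¹) ^ Fintype.card κ) := by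
  refine semi_of_pow hq (fun i j z => ?_) (aux_gen X P hq hgen
    (Fintype.card κ * Fintype.card κ') (n' * q * Fintype.card κ') (q * Fintype.card κ) ?_)
  · unfold lam' Bun.lam
    generalize ((Φ.RN.ρ (X.γ i j z)).det)⁻¹ = e1
    generalize ((P.RP.ρ (X.γ i j z)).det)⁻¹ = e2
    ring
  · intro H _ α hv hw
    have h3 : Fintype.card κ * (∑ t, Φ.RN.lam (α.1 t) H) ≤
        (n' * q : ℕ) * ∑ β, Φ.RN.lam β H := by
      rw [Finset.mul_sum]
      have h2 := Finset.sum_le_sum fun t (_ : t ∈ Finset.univ) => min_sum (hv t)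
      rwa [Finset.sum_const, Finset.card_univ, Fintype.card_fin, nsmul_eq_mul] at h2
    have h3' : Fintype.card κ' * (∑ t, P.RP.lam (α.2 t) H) ≤
        (q : ℕ) * ∑ β, P.RP.lam β H := by
      rw [Finset.mul_sum]
      have h2 := Finset.sum_le_sum fun t (_ : t ∈ Finset.univ) => min_sum (hw t)
      rwa [Finset.sum_const, Finset.card_univ, Fintype.card_fin, nsmul_eq_mul] at h2
    push_cast at h3 ⊢
    have h5 := mul_le_mul_of_nonneg_left h3 (Nat.cast_nonneg (α := ℝ) (Fintype.card κ'))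
    have h5' := mul_le_mul_of_nonneg_left h3' (Nat.cast_nonneg (α := ℝ) (Fintype.card κ))
    linarith

/-- The line bundle `λ'` on `Z` is nef if `L'` is nef. -/
theorem _root_.Pool.Agent.KX.part_two [Nonempty Z] (X : Bun Φ O.toCSp I) (a c : I → I → Z → ℂ)
    (h : NefX X (fun i j z => a i j z * c i j z)) : NefZ X (lam' X a c) := by
  obtain ⟨κ', _, _, P, b', h⟩ := h
  have hκ' : 1 ≤ Fintype.card κ' := by
    obtain ⟨q, hq, hgen⟩ := h 1 le_rfl
    obtain ⟨z⟩ := ‹Nonempty Z›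
    obtain ⟨i, hi⟩ := X.cover z
    obtain ⟨j, y, hy⟩ := Φ.ne
    obtain ⟨T, hT⟩ := hgen i z hi j y (Φ.sub j hy)
    obtain ⟨α, -, -⟩ := Finset.exists_ne_zero_of_sum_ne_zero hT
    exact Fintype.card_pos_iff.2 ⟨α.2 ⟨0, hq⟩⟩
  refine ⟨Fintype.card κ', hκ', fun i j z => (b' i j z ^ Fintype.card κ' *
    ((P.RP.ρ (X.γ i j z)).det)⁻¹) ^ Fintype.card κ, fun n' hn => ?_⟩
  obtain ⟨q, hq, hgen⟩ := h n' hn
  exact aux_two X a c P b' n' hq hgen

/-- The line bundle `λ'` on `Z` is semiample if `L'` is semiample. -/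
theorem _root_.Pool.Agent.KX.semi_two (X : Bun Φ O.toCSp I) (a c : I → I → Z → ℂ)
    (h : SemiX X (fun i j z => a i j z * c i j z)) : SemiZ X (lam' X a c) := by
  rcases isEmpty_or_nonempty Z with hZ | ⟨⟨z₀⟩⟩
  · exact ⟨1, le_rfl, fun i z _ => (hZ.false z).elim⟩
  obtain ⟨q, hq, κ', _, _, P, hP, hgen⟩ := h
  refine semi_of_pow hq (fun i j z => ?_) (aux_gen X P le_rfl hgen (Fintype.card κ) q 0 ?_)
  · unfold lam' Bun.lam
    generalize ((Φ.RN.ρ (X.γ i j z)).det)⁻¹ = e1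
    ring
  · intro H hH α _ hw
    obtain ⟨i, hi⟩ := X.cover z₀
    have h1 : ∀ β, P.RP.lam (α.2 0) H ≤ q * Φ.RN.lam β H := by
      intro β
      obtain ⟨γ, hγ⟩ := min_pow Φ P hP (fun j y hy => by
        obtain ⟨T, hT⟩ := hgen i z₀ hi j y hy
        intro h0
        apply hT
        unfold tpp
        refine Finset.sum_eq_zero fun p _ => ?_
        rw [h0]
        simp) hH β
      exact (hw 0 γ).trans hγ
    have h2 := Finset.sum_le_sum fun (β : κ) (_ : β ∈ Finset.univ) => h1 β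
    rw [Finset.sum_const, Finset.card_univ, nsmul_eq_mul, ← Finset.mul_sum] at h2
    simpa using h2

end tot

end Pool.Agent.KX.T2
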