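import Pool.Agent.H.MP_e23cd6_ag.KX.Defs
import Pool.Agent.H.MP_e23cd6_ag.KX.PrK
import Pool.Agent.H.MP_e23cd6_ag.PB.GCrit

/-!
# Sections of `N ^ q ⊗ P ^ q'`: frames, finitely many sections without common zero
-/

set_option autoImplicit false

open Matrix Pool.Agent.PG Pool.Agent.SG

namespace Pool.Agent.KX.T2

section alg

variable {κ κ' : Type} [Fintype κ] [Fintype κ'] {q q' : ℕ}

theorem tpp_eq (T : (Fin q → κ) × (Fin q' → κ') → ℂ) (x : κ → ℂ) (y : κ' → ℂ) :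
    tpp T x y = T ⬝ᵥ tv (vp q x) (vp q' y) := rfl

theorem tpp_smul (T : (Fin q → κ) × (Fin q' → κ') → ℂ) (s t : ℂ) (x : κ → ℂ) (y : κ' → ℂ) :
    tpp T (s • x) (t • y) = s ^ q * t ^ q' * tpp T x y := by
  rw [tpp_eq, tpp_eq, vp_smul, vp_smul, tv_smul_left, tv_smul_right, dotProduct_smul,
    dotProduct_smul, smul_eq_mul, smul_eq_mul]
  ring

theorem tpp_sub (T T' : (Fin q → κ) × (Fin q' → κ') → ℂ) (x : κ → ℂ) (y : κ' → ℂ) :
    tpp (T - T') x y = tpp T x y - tpp T' x y := by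
  rw [tpp_eq, tpp_eq, tpp_eq, sub_dotProduct]

theorem tpp_smul_left (T : (Fin q → κ) × (Fin q' → κ') → ℂ) (c : ℂ) (x : κ → ℂ) (y : κ' → ℂ) :
    tpp (c • T) x y = c * tpp T x y := by
  rw [tpp_eq, tpp_eq, smul_dotProduct, smul_eq_mul]

theorem tpp_add (T T' : (Fin q → κ) × (Fin q' → κ') → ℂ) (x : κ → ℂ) (y : κ' → ℂ) :
    tpp (T + T') x y = tpp T x y + tpp T' x y := by
  rw [tpp_eq, tpp_eq, tpp_eq, add_dotProduct]

end alg

/-- The trivial representation. -/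
noncomputable def trv {n : ℕ} (R : RG n) (σ : Type) [Fintype σ] [DecidableEq σ] : GRep R σ where
  ρ := 1
  cont := continuous_const
  star := fun _ _ _ => (Matrix.conjTranspose_one).symm
  lam := fun _ => 0
  diag := fun H _ z g _ => by
    show (1 : Matrix σ σ ℂ) = _
    rw [← Matrix.diagonal_one]
    congr 1
    funext i
    simp

section rep

variable {n : ℕ} {R : RG n} {κ κ' : Type} [Fintype κ] [DecidableEq κ] [Fintype κ']
  [DecidableEq κ']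

theorem trv_act {σ : Type} [Fintype σ] [DecidableEq σ] (g : R.G) (u : σ → ℂ) :
    (trv R σ).act g u = u := by
  show (1 : Matrix σ σ ℂ) *ᵥ u = u
  exact Matrix.one_mulVec u

theorem dual_pow_ρ (V : GRep R κ) (q : ℕ) (g : R.G) : (V.dual.pow q).ρ g = (V.pow q).dual.ρ g := by
  ext α β
  rfl

/-- The representation on the tensors. -/
noncomputable abbrev TR (V : GRep R κ) (W : GRep R κ') (q q' : ℕ) :
    GRep R ((Fin q → κ) × (Fin q' → κ')) :=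
  (V.dual.pow q).tens (W.dual.pow q')

theorem TR_ρ (V : GRep R κ) (W : GRep R κ') (q q' : ℕ) (g : R.G) :
    (TR V W q q').ρ g = ((V.pow q).tens (W.pow q')).dual.ρ g := by
  ext α β
  rfl

theorem tpp_act (V : GRep R κ) (W : GRep R κ') {q q' : ℕ} (g : R.G)
    (T : (Fin q → κ) × (Fin q' → κ') → ℂ) (x : κ → ℂ) (y : κ' → ℂ) :
    tpp ((TR V W q q').act g T) (V.act g x) (W.act g y) = tpp T x y := by
  have h1 : (TR V W q q').act g T = ((V.pow q).tens (W.pow q')).dual.act g T := by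
    unfold GRep.act
    rw [TR_ρ]
  rw [h1, tpp_eq, tpp_eq, ← act_pow, ← act_pow, ← GRep.act_tens, GRep.dual_dot]

theorem TR_lam (V : GRep R κ) (W : GRep R κ') (q q' : ℕ) (α : (Fin q → κ) × (Fin q' → κ'))
    (H : Fin n → ℝ) : (TR V W q q').lam α H =
      -(∑ t, V.lam (α.1 t) H) - ∑ t, W.lam (α.2 t) H := by
  rw [GRep.tens_lam, pow_lam, pow_lam]
  simp only [GRep.dual_lam, Finset.sum_neg_distrib]
  ring

end rep

section fib

variable {n : ℕ} {R : RG n} {EF : Type} [NormedAddCommGroup EF] [NormedSpace ℂ EF] {F : Type}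
  [TopologicalSpace F] {κ ι : Type} [Fintype κ] [DecidableEq κ] [Fintype ι] [DecidableEq ι] {m : ℕ}
  {Φ : Fib R EF F κ ι m} {κ' : Type} [Fintype κ'] [DecidableEq κ'] (P : Lin Φ κ')

include P in
/-- Change of frames. -/
theorem frame (g : R.G) {i j : Φ.J} {y : F} (hy : y ∈ Φ.W j) (hgy : Φ.act g y ∈ Φ.W i) :
    ∃ s t : ℂ, s ≠ 0 ∧ t ≠ 0 ∧ Φ.v i (Φ.act g y) = s • Φ.RN.act g (Φ.v j y) ∧
      P.w i (Φ.act g y) = t • P.RP.act g (P.w j y) := by
  obtain ⟨s, hs, _⟩ := Φ.equi g i j y hy hgy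
  obtain ⟨t, ht, ht'⟩ := P.equi g i j y hy hgy
  refine ⟨s, t, fun h0 => ?_, ht, hs, ht'⟩
  rw [h0, zero_smul] at hs
  exact Φ.v_ne i _ hgy hs

theorem frame_ne {q q' : ℕ} (T : (Fin q → κ) × (Fin q' → κ') → ℂ) (g : R.G) {i j : Φ.J} {y : F}
    (hy : y ∈ Φ.W j) (hgy : Φ.act g y ∈ Φ.W i) :
    tpp T (Φ.v i (Φ.act g y)) (P.w i (Φ.act g y)) ≠ 0 ↔
      tpp T (Φ.RN.ρ g *ᵥ Φ.v j y) (P.RP.ρ g *ᵥ P.w j y) ≠ 0 := by
  obtain ⟨s, t, hs, ht, h1, h2⟩ := frame P g hy hgy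
  rw [h1, h2, tpp_smul]
  unfold GRep.act
  constructor
  · exact fun h => right_ne_zero_of_mul h
  · exact fun h => mul_ne_zero (mul_ne_zero (pow_ne_zero _ hs) (pow_ne_zero _ ht)) h

theorem frame_ne_one {q q' : ℕ} (T : (Fin q → κ) × (Fin q' → κ') → ℂ) {i j : Φ.J} {y : F}
    (hy : y ∈ Φ.W j) (hy' : y ∈ Φ.W i) (h : tpp T (Φ.v j y) (P.w j y) ≠ 0) :
    tpp T (Φ.v i y) (P.w i y) ≠ 0 := by
  have h1 := frame_ne P T 1 (i := i) hy (by rwa [Φ.one])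
  rw [Φ.one, map_one, map_one, Matrix.one_mulVec, Matrix.one_mulVec] at h1
  exact h1.2 h

/-- The tensors which vanish on `F`. -/
def KF (q q' : ℕ) : Submodule ℂ ((Fin q → κ) × (Fin q' → κ') → ℂ) where
  carrier := {T | ∀ j, ∀ y ∈ Φ.W j, tpp T (Φ.v j y) (P.w j y) = 0}
  zero_mem' := fun j y _ => by rw [tpp_eq, zero_dotProduct]
  add_mem' := fun {a b} ha hb j y hy => by rw [tpp_add, ha j y hy, hb j y hy, add_zero]
  smul_mem' := fun c a ha j y hy => by rw [tpp_smul_left, ha j y hy, mul_zero]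

theorem mem_KF {q q' : ℕ} {T : (Fin q → κ) × (Fin q' → κ') → ℂ} :
    T ∈ KF P q q' ↔ ∀ j, ∀ y ∈ Φ.W j, tpp T (Φ.v j y) (P.w j y) = 0 := Iff.rfl

/-- It is enough to test `T` at the points `g y` in translated frames. -/
theorem mem_KF_of {q q' : ℕ} {T : (Fin q → κ) × (Fin q' → κ') → ℂ} (g : R.G)
    (h : ∀ j, ∀ y ∈ Φ.W j, tpp T (Φ.RN.ρ g *ᵥ Φ.v j y) (P.RP.ρ g *ᵥ P.w j y) = 0) :
    T ∈ KF P q q' := by
  rw [mem_KF]
  intro i y hy
  obtain ⟨j, hj⟩ := Φ.cover (Φ.act g⁻¹ y)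
  have e1 : Φ.act g (Φ.act g⁻¹ y) = y := by
    rw [← Φ.mul, mul_inv_cancel, Φ.one]
  by_contra hne
  have h1 := (frame_ne P T g (i := i) hj (by rwa [e1])).1 (by rwa [e1])
  exact h1 (h j _ hj)

theorem KF_stable (q q' : ℕ) (g : R.G) : ∀ T ∈ KF P q q',
    (TR Φ.RN P.RP q q').act g T ∈ KF P q q' := by
  intro T hT
  refine mem_KF_of P g fun j y hy => ?_
  have h1 := tpp_act Φ.RN P.RP g T (Φ.v j y) (P.w j y)
  unfold GRep.act at h1 ⊢
  rw [h1]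
  exact hT j y hy

/-- The projection of the tensors on a complement of the tensors which vanish on `F`. -/
theorem exists_A (q q' : ℕ) : ∃ A : Matrix ((Fin q → κ) × (Fin q' → κ'))
    ((Fin q → κ) × (Fin q' → κ')) ℂ,
    (∀ g, A * (TR Φ.RN P.RP q q').ρ g = (TR Φ.RN P.RP q q').ρ g * A) ∧
    (∀ T ∈ KF P q q', A *ᵥ T = 0) ∧
    ∀ T, ∀ j, ∀ y ∈ Φ.W j, tpp (A *ᵥ T) (Φ.v j y) (P.w j y) = tpp T (Φ.v j y) (P.w j y) := by
  obtain ⟨A, h1, h2, h3⟩ := exists_proj (TR Φ.RN P.RP q q') (KF P q q') (KF_stable P q q')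
  refine ⟨A, h1, h2, fun T j y hy => ?_⟩
  have h4 := h3 T j y hy
  rw [tpp_sub] at h4
  exact sub_eq_zero.1 h4

end fib

section tot

variable {n : ℕ} {R : RG n} {EF : Type} [NormedAddCommGroup EF] [NormedSpace ℂ EF] {F : Type}
  [TopologicalSpace F] {κ ι : Type} [Fintype κ] [DecidableEq κ] [Fintype ι]
  [DecidableEq ι] {m : ℕ} {Φ : Fib R EF F κ ι m}
  {EZ : Type} [NormedAddCommGroup EZ] [NormedSpace ℂ EZ]
  {Z : Type} [TopologicalSpace Z] {O : ZSp EZ Z} {I : Type}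
  {κ' : Type} [Fintype κ'] [DecidableEq κ'] {P : Lin Φ κ'}

/-- The transformation of the coefficients. -/
theorem SecNP.trans {X : Bun Φ O.toCSp I} {q q' : ℕ} {b : I → I → Z → ℂ} (T : SecNP X P q q' b)
    {A : Matrix ((Fin q → κ) × (Fin q' → κ')) ((Fin q → κ) × (Fin q' → κ')) ℂ}
    (hA : ∀ g, A * (TR Φ.RN P.RP q q').ρ g = (TR Φ.RN P.RP q q').ρ g * A)
    (hK : ∀ T ∈ KF P q q', A *ᵥ T = 0) {i j : I} {z : Z} (hz : z ∈ X.U i ∩ X.U j) :
    A *ᵥ T.T i z = b i j z • (TR Φ.RN P.RP q q').act (X.γ i j z) (A *ᵥ T.T j z) := by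
  have h1 : T.T i z - b i j z • (TR Φ.RN P.RP q q').act (X.γ i j z) (T.T j z) ∈ KF P q q' := by
    refine mem_KF_of P (X.γ i j z) fun j' y hy => ?_
    have h2 := tpp_act Φ.RN P.RP (X.γ i j z) (T.T j z) (Φ.v j' y) (P.w j' y)
    rw [tpp_sub, tpp_smul_left, T.glue i j z hz j' y hy]
    unfold GRep.act at h2 ⊢
    rw [h2, sub_self]
  have h3 := hK _ h1
  rw [Matrix.mulVec_sub, sub_eq_zero, Matrix.mulVec_smul] at h3
  rw [h3]
  unfold GRep.act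
  rw [Matrix.mulVec_mulVec, Matrix.mulVec_mulVec, hA]

omit [DecidableEq κ] [DecidableEq κ'] in
theorem cont_tpp {q q' : ℕ} {Y : Type} [TopologicalSpace Y] {s : Set Y}
    {T : Y → (Fin q → κ) × (Fin q' → κ') → ℂ} {x : Y → κ → ℂ} {y : Y → κ' → ℂ}
    (hT : ∀ α, ContinuousOn (fun p => T p α) s) (hx : ContinuousOn x s) (hy : ContinuousOn y s) :
    ContinuousOn (fun p => tpp (T p) (x p) (y p)) s := by
  unfold tpp
  refine continuousOn_finsetSum _ fun α _ => (hT α).mul ?_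
  refine ContinuousOn.mul (continuousOn_finsetProd _ fun t _ => ?_)
    (continuousOn_finsetProd _ fun t _ => ?_)
  · exact (continuous_apply (α.1 t)).comp_continuousOn hx
  · exact (continuous_apply (α.2 t)).comp_continuousOn hy

/-- By compactness, finitely many sections have no common zero. -/
theorem fin_gen [CompactSpace F] [CompactSpace Z] (X : Bun Φ O.toCSp I) {q q' : ℕ}
    {b : I → I → Z → ℂ}
    (h : ∀ i, ∀ z ∈ X.U i, ∀ j, ∀ y ∈ Φ.W j, ∃ T : SecNP X P q q' b,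
      tpp (T.T i z) (Φ.v j y) (P.w j y) ≠ 0) :
    ∃ (p : ℕ) (T : Fin p → SecNP X P q q' b), ∀ i, ∀ z ∈ X.U i, ∀ j, ∀ y ∈ Φ.W j, ∃ l,
      tpp ((T l).T i z) (Φ.v j y) (P.w j y) ≠ 0 := by
  have hb : ∀ i i', ∀ z ∈ X.U i ∩ X.U i', b i i' z ≠ 0 := by
    intro i i' z hz h0
    obtain ⟨j, hj⟩ := Φ.ne
    obtain ⟨y, hy⟩ := hj
    have hy' := Φ.sub j hy
    obtain ⟨j', hj'⟩ := Φ.cover (Φ.act (X.γ i i' z) y)
    obtain ⟨T, hT⟩ := h i z hz.1 j' _ hj'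
    have h1 := (frame_ne P (T.T i z) (X.γ i i' z) hy' hj').1 hT
    rw [T.glue i i' z hz j y hy', h0, zero_mul] at h1
    exact h1 rfl
  have key : ∃ L : List (SecNP X P q q' b), ∀ z ∈ (Set.univ : Set Z), ∀ i, z ∈ X.U i →
      ∀ j, ∀ y ∈ Φ.W j, ∃ T ∈ L, tpp (T.T i z) (Φ.v j y) (P.w j y) ≠ 0 := by
    refine isCompact_univ.induction_on (p := fun U : Set Z => ∃ L : List (SecNP X P q q' b),
      ∀ z ∈ U, ∀ i, z ∈ X.U i → ∀ j, ∀ y ∈ Φ.W j, ∃ T ∈ L,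
        tpp (T.T i z) (Φ.v j y) (P.w j y) ≠ 0) ⟨[], fun z hz => absurd hz (Set.notMem_empty z)⟩
      ?_ ?_ ?_
    · rintro s t hst ⟨L, hL⟩
      exact ⟨L, fun z hz => hL z (hst hz)⟩
    · rintro s t ⟨L, hL⟩ ⟨L', hL'⟩
      refine ⟨L ++ L', fun z hz i hi j y hy => ?_⟩
      rcases hz with hz | hz
      · obtain ⟨T, hT, h1⟩ := hL z hz i hi j y hy
        exact ⟨T, List.mem_append_left _ hT, h1⟩
      · obtain ⟨T, hT, h1⟩ := hL' z hz i hi j y hy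
        exact ⟨T, List.mem_append_right _ hT, h1⟩
    · intro z₀ _
      obtain ⟨i₀, hi₀⟩ := X.cover z₀
      have key2 : ∃ L : List (SecNP X P q q' b), ∃ V ∈ nhds z₀, ∀ z ∈ V,
          ∀ y ∈ (Set.univ : Set F), ∀ j, y ∈ Φ.W j → ∃ T ∈ L,
            tpp (T.T i₀ z) (Φ.v j y) (P.w j y) ≠ 0 := by
        refine isCompact_univ.induction_on (p := fun U : Set F =>
          ∃ L : List (SecNP X P q q' b), ∃ V ∈ nhds z₀, ∀ z ∈ V,
          ∀ y ∈ U, ∀ j, y ∈ Φ.W j → ∃ T ∈ L,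
            tpp (T.T i₀ z) (Φ.v j y) (P.w j y) ≠ 0)
          ⟨[], Set.univ, Filter.univ_mem, fun z _ y hy => absurd hy (Set.notMem_empty y)⟩
          ?_ ?_ ?_
        · rintro s t hst ⟨L, V, hV, hL⟩
          exact ⟨L, V, hV, fun z hz y hy => hL z hz y (hst hy)⟩
        · rintro s t ⟨L, V, hV, hL⟩ ⟨L', V', hV', hL'⟩
          refine ⟨L ++ L', V ∩ V', Filter.inter_mem hV hV', fun z hz y hy j hj => ?_⟩
          rcases hy with hy | hy
          · obtain ⟨T, hT, h1⟩ := hL z hz.1 y hy j hj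
            exact ⟨T, List.mem_append_left _ hT, h1⟩
          · obtain ⟨T, hT, h1⟩ := hL' z hz.2 y hy j hj
            exact ⟨T, List.mem_append_right _ hT, h1⟩
        · intro y₀ _
          obtain ⟨j₀, hj₀⟩ := Φ.cover y₀
          obtain ⟨T, hT⟩ := h i₀ z₀ hi₀ j₀ y₀ hj₀
          have hc : ContinuousOn (fun p : Z × F => tpp (T.T i₀ p.1) (Φ.v j₀ p.2) (P.w j₀ p.2))
              (X.U i₀ ×ˢ Φ.W j₀) := by
            refine cont_tpp (T := fun p : Z × F => T.T i₀ p.1) (x := fun p : Z × F => Φ.v j₀ p.2)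
              (y := fun p : Z × F => P.w j₀ p.2) (fun α => ?_) ?_ ?_
            · exact (O.cont _ (X.U_open i₀) _ (T.hol i₀ α)).comp continuousOn_fst
                fun p hp => hp.1
            · exact (Φ.v_cont j₀).comp continuousOn_snd fun p hp => hp.2
            · exact (P.cont j₀).comp continuousOn_snd fun p hp => hp.2
          have hopen : X.U i₀ ×ˢ Φ.W j₀ ∈ nhds (z₀, y₀) :=
            ((X.U_open i₀).prod (Φ.W_open j₀)).mem_nhds ⟨hi₀, hj₀⟩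
          have h2 := (hc.continuousAt hopen).eventually_ne hT
          rw [Filter.Eventually, nhds_prod_eq, Filter.mem_prod_iff] at h2
          obtain ⟨V, hV, W', hW', hsub⟩ := h2
          refine ⟨W' ∩ Φ.W j₀, mem_nhdsWithin_of_mem_nhds
            (Filter.inter_mem hW' ((Φ.W_open j₀).mem_nhds hj₀)), [T], V, hV,
            fun z hz y hy j hj => ⟨T, List.mem_singleton.2 rfl, ?_⟩⟩
          have h3 : (z, y) ∈ {x : Z × F | tpp (T.T i₀ x.1) (Φ.v j₀ x.2) (P.w j₀ x.2) ≠ 0} :=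
            hsub ⟨hz, hy.1⟩
          exact frame_ne_one P _ hy.2 hj h3
      obtain ⟨L, V, hV, hL⟩ := key2
      refine ⟨V ∩ X.U i₀, mem_nhdsWithin_of_mem_nhds
        (Filter.inter_mem hV ((X.U_open i₀).mem_nhds hi₀)), L, fun z hz i hi j y hy => ?_⟩
      obtain ⟨j₀, hj₀⟩ := Φ.cover (Φ.act (X.γ i i₀ z)⁻¹ y)
      have e1 : Φ.act (X.γ i i₀ z) (Φ.act (X.γ i i₀ z)⁻¹ y) = y := by
        rw [← Φ.mul, mul_inv_cancel, Φ.one]
      obtain ⟨T, hT, h1⟩ := hL z hz.1 _ (Set.mem_univ _) j₀ hj₀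
      refine ⟨T, hT, ?_⟩
      have h2 := frame_ne P (T.T i z) (X.γ i i₀ z) (i := j) hj₀ (by rwa [e1])
      rw [e1] at h2
      rw [h2, T.glue i i₀ z ⟨hi, hz.2⟩ j₀ _ hj₀]
      exact mul_ne_zero (hb i i₀ z ⟨hi, hz.2⟩) h1
  obtain ⟨L, hL⟩ := key
  refine ⟨L.length, fun l => L.get l, fun i z hz j y hy => ?_⟩
  obtain ⟨T, hT, h1⟩ := hL z (Set.mem_univ z) i hz j y hy
  obtain ⟨l, hl⟩ := List.get_of_mem hT
  refine ⟨l, ?_⟩
  beta_reduce
  rw [hl]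
  exact h1

end tot

end Pool.Agent.KX.T2
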