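import Pool.Agent.H.MP_e23cd6_ag.KX.Two

/-!
# The vector bundle `V'` on `Z` is nef if `L'` is nef
-/

set_option autoImplicit false

open Matrix Pool.Agent.PG Pool.Agent.SG

namespace Pool.Agent.KX

section defs

variable {n : ℕ} {R : RG n} {EF : Type} [NormedAddCommGroup EF] [NormedSpace ℂ EF] {F : Type}
  [TopologicalSpace F] {κ ι : Type} [Fintype κ] [DecidableEq κ] [Fintype ι] [DecidableEq ι] {m : ℕ}
  {Φ : Fib R EF F κ ι m} {EZ : Type} [NormedAddCommGroup EZ] [NormedSpace ℂ EZ]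
  {Z : Type} [TopologicalSpace Z] {O : ZSp EZ Z} {I : Type}

/-- Sections of `S^q V ⊗ A`, where `V` is the vector bundle on `Z` with fibre `ℂ^κ` of the sections of `N` on
the fibres of `X → Z`, and `A` is the line bundle on `Z` with the transition functions `b`: homogeneous
polynomials of degree `q` in the point `x` of the dual bundle. -/
structure SecV (X : Bun Φ O.toCSp I) (q : ℕ) (b : I → I → Z → ℂ) where
  T : I → Z → (Fin q → κ) → ℂ
  hol : ∀ i α, (fun z => T i z α) ∈ O.O (X.U i)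
  glue : ∀ i j, ∀ z ∈ X.U i ∩ X.U j, ∀ x : κ → ℂ,
    tp (T i z) (Φ.RN.ρ (X.γ i j z) *ᵥ x) = b i j z * tp (T j z) x

/-- The vector bundle `V ⊗ A` on `Z` is nef (`b`: transition functions of `A`): for some line bundle
`Q` on `Z` and some `e ≥ 1`, the line bundles `O(e n) ⊗ Q` on `P(V ⊗ A)` are semiample for all `n ≥ 1`. -/
def NefV (X : Bun Φ O.toCSp I) (b : I → I → Z → ℂ) : Prop :=
  ∃ e : ℕ, 1 ≤ e ∧ ∃ b' : I → I → Z → ℂ, ∀ n : ℕ, 1 ≤ n → ∃ q : ℕ, 1 ≤ q ∧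
    ∀ i, ∀ z ∈ X.U i, ∀ x : κ → ℂ, x ≠ 0 →
      ∃ T : SecV X (e * n * q) (fun i j z => (b i j z ^ (e * n) * b' i j z) ^ q),
        tp (T.T i z) x ≠ 0

end defs

namespace T2

section tot

variable {n : ℕ} {R : RG n} {EF : Type} [NormedAddCommGroup EF] [NormedSpace ℂ EF] {F : Type}
  [TopologicalSpace F] {κ ι : Type} [Fintype κ] [DecidableEq κ] [Fintype ι]
  [DecidableEq ι] {m : ℕ} {Φ : Fib R EF F κ ι m}
  {EZ : Type} [NormedAddCommGroup EZ] [NormedSpace ℂ EZ]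
  {Z : Type} [TopologicalSpace Z] {O : ZSp EZ Z} {I : Type}

/-- Invariants of the vectors `u i z x` give sections on the projective bundle. -/
theorem assembleV (X : Bun Φ O.toCSp I) {τ : Type} [Fintype τ] [DecidableEq τ] {V : GRep R τ}
    {d M : ℕ} {P : MvPolynomial τ ℂ} (hP : V.Inv M P) {u : I → Z → (κ → ℂ) → τ → ℂ}
    (hu : ∀ i p, HF O.toCSp (X.U i) d (fun z x => u i z x p)) {w : I → I → Z → ℂ}
    (hw : ∀ i j, ∀ z ∈ X.U i ∩ X.U j, ∀ x,
      u i z (Φ.RN.ρ (X.γ i j z) *ᵥ x) = w i j z • V.act (X.γ i j z) (u j z x))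
    {D : ℕ} (hD : d * M = D)
    {b : I → I → Z → ℂ} (hb : ∀ i j, ∀ z ∈ X.U i ∩ X.U j, w i j z ^ M = b i j z) {i : I} {z : Z}
    (hz : z ∈ X.U i) {x : κ → ℂ} (hne : MvPolynomial.eval (u i z x) P ≠ 0) :
    ∃ T : SecV X D b, tp (T.T i z) x ≠ 0 := by
  have hT : ∀ i', ∃ T : (Fin D → κ) → Z → ℂ,
      (∀ α, T α ∈ O.O (X.U i')) ∧
      ∀ z' ∈ X.U i', ∀ x : κ → ℂ,
        MvPolynomial.eval (u i' z' x) P = ∑ α, T α z' * ∏ t, x (α t) := fun i' =>
    (HF.evalP hP.hom (hu i')).cast (m := D) hD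
  choose T hTh hTe using hT
  have htp : ∀ i', ∀ z' ∈ X.U i', ∀ x : κ → ℂ, tp (fun α => T i' α z') x =
      MvPolynomial.eval (u i' z' x) P :=
    fun i' z' hz' x => (hTe i' z' hz' x).symm
  refine ⟨⟨fun i' z' α => T i' α z', fun i' α => hTh i' α, ?_⟩, ?_⟩
  · intro i' j' z' hz' x
    rw [htp i' z' hz'.1, htp j' z' hz'.2, hw i' j' z' hz' x, eval_smul_hom hP.hom, hP.inv,
      ← hb i' j' z' hz']
  · show tp (fun α => T i α z) x ≠ 0
    rw [htp i z hz x]
    exact hne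

variable [CompactSpace F] [CompactSpace Z]

set_option synthInstance.maxSize 1000 in
/-- The vector bundle `V'` on `Z` is nef if `L'` is nef. -/
theorem _root_.Pool.Agent.KX.part_two_vec [Nonempty Z] (X : Bun Φ O.toCSp I) (b : I → I → Z → ℂ)
    (h : NefX X b) : NefV X b := by
  obtain ⟨κ', _, _, P, b', h⟩ := h
  have hκ' : 1 ≤ Fintype.card κ' := by
    obtain ⟨q, hq, hgen⟩ := h 1 le_rfl
    obtain ⟨z⟩ := ‹Nonempty Z›
    obtain ⟨i, hi⟩ := X.cover z
    obtain ⟨j, y, hy⟩ := Φ.ne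
    obtain ⟨T, hT⟩ := hgen i z hi j y (Φ.sub j hy)
    obtain ⟨α, -, -⟩ := Finset.exists_ne_zero_of_sum_ne_zero hT
    exact Fintype.card_pos_iff.2 ⟨α.2 ⟨0, hq⟩⟩
  refine ⟨Fintype.card κ', hκ', fun i j z => b' i j z ^ Fintype.card κ' *
    ((P.RP.ρ (X.γ i j z)).det)⁻¹, fun n' hn => ?_⟩
  obtain ⟨q, hq, hgen⟩ := h n' hn
  obtain ⟨p, T, hT⟩ := fin_gen X hgen
  obtain ⟨A, hA, hK, hAe⟩ := exists_A P (n' * q) q
  obtain ⟨M, hM, hcrit⟩ := crit_unif (((((TR Φ.RN P.RP (n' * q) q).tens (trv R (Fin p))).pow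
    (Fintype.card κ')).tens (Φ.RN.pow (n' * q * Fintype.card κ'))).tens (P.RP.detr.pow q))
  refine ⟨q * M, Nat.mul_pos hq hM, fun i z hz ξ hξ => ?_⟩
  obtain ⟨x, hx⟩ : ∃ x : I → Z → ((Fin (n' * q) → κ) × (Fin q → κ')) × Fin p → ℂ,
      x = fun i z r => (A *ᵥ (T r.2).T i z) r.1 := ⟨_, rfl⟩
  obtain ⟨u, hu⟩ : ∃ u : I → Z → (κ → ℂ) → ((Fin (Fintype.card κ') →
      ((Fin (n' * q) → κ) × (Fin q → κ')) × Fin p) × (Fin (n' * q * Fintype.card κ') → κ)) ×
        (Fin q → Unit) → ℂ,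
      u = fun i z ξ => tv (tv (vp (Fintype.card κ') (x i z))
        (vp (n' * q * Fintype.card κ') ξ)) (vp q (fun _ => 1)) :=
    ⟨_, rfl⟩
  have hact : ∀ (g : R.G) (i : I) (z : Z) (ξ : κ → ℂ), (((((TR Φ.RN P.RP (n' * q) q).tens
      (trv R (Fin p))).pow (Fintype.card κ')).tens (Φ.RN.pow (n' * q * Fintype.card κ'))).tens
        (P.RP.detr.pow q)).act g (u i z ξ) =
      tv (tv (vp (Fintype.card κ')
        (((TR Φ.RN P.RP (n' * q) q).tens (trv R (Fin p))).act g (x i z)))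
        (vp (n' * q * Fintype.card κ') (Φ.RN.act g ξ)))
          ((P.RP.ρ g).det ^ q • vp q (fun _ => 1)) := by
    intro g i z ξ
    rw [hu, GRep.act_tens, GRep.act_tens, act_pow, act_pow, detr_pow_act]
  obtain ⟨Q, hQ, hne⟩ := hcrit (u i z ξ) (by
    intro k _ H hH
    obtain ⟨l, α, hα, hv, hw⟩ := limit Φ P hq (fun l => A *ᵥ (T l).T i z) (fun j y hy => by
      obtain ⟨l, hl⟩ := hT i z hz j y hy
      exact ⟨l, by rw [hAe _ j y hy]; exact hl⟩) k hH
    obtain ⟨β, hβ⟩ := ex_supp Φ.RN k hξ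
    refine ⟨((fun _ => (α, l), fun _ => β), fun _ => ()), ?_, ?_⟩
    · rw [hact]
      refine mul_ne_zero (mul_ne_zero (vp_ne fun t => ?_) (vp_ne fun t => hβ)) ?_
      · beta_reduce
        rw [tens_trv_act, hx]
        exact hα
      · exact mul_ne_zero (pow_ne_zero _ (det_ne_zero _ _)) (vp_one_ne _ _)
    · have h1' : ∀ t, Fintype.card κ' * P.RP.lam (α.2 t) H ≤ ∑ β, P.RP.lam β H := fun t => by
        have h2 := Finset.sum_le_sum fun (β : κ') (_ : β ∈ Finset.univ) => hw t β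
        rwa [Finset.sum_const, Finset.card_univ, nsmul_eq_mul] at h2
      have h3 : (∑ t, Φ.RN.lam (α.1 t) H) ≤ (n' * q : ℕ) * Φ.RN.lam β H := by
        have h2 := Finset.sum_le_sum fun t (_ : t ∈ Finset.univ) => hv t β
        rwa [Finset.sum_const, Finset.card_univ, Fintype.card_fin, nsmul_eq_mul] at h2
      have h3' : Fintype.card κ' * (∑ t, P.RP.lam (α.2 t) H) ≤
          (q : ℕ) * ∑ β, P.RP.lam β H := by
        rw [Finset.mul_sum]
        have h2 := Finset.sum_le_sum fun t (_ : t ∈ Finset.univ) => h1' t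
        rwa [Finset.sum_const, Finset.card_univ, Fintype.card_fin, nsmul_eq_mul] at h2
      have h4 : (trv R (Fin p)).lam l H = 0 := rfl
      simp only [GRep.tens_lam, pow_lam, GRep.dual_lam, Finset.sum_neg_distrib, Finset.sum_const,
        Finset.card_univ, Fintype.card_fin, nsmul_eq_mul, detr_lam, h4]
      push_cast at h3 ⊢
      have h5 := mul_le_mul_of_nonneg_left h3 (Nat.cast_nonneg (α := ℝ) (Fintype.card κ'))
      linarith)
  have htr : ∀ i j, ∀ z ∈ X.U i ∩ X.U j, x i z =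
      ((b i j z ^ n' * b' i j z) ^ q) •
        ((TR Φ.RN P.RP (n' * q) q).tens (trv R (Fin p))).act (X.γ i j z) (x j z) := by
    intro i j z hz
    funext r
    rw [Pi.smul_apply, tens_trv_act, hx]
    exact congrFun (SecNP.trans (T r.2) hA hK hz) r.1
  refine assembleV X hQ (d := n' * q * Fintype.card κ') (u := u) (w := fun i j z =>
      ((b i j z ^ n' * b' i j z) ^ q) ^ Fintype.card κ' *
          ((P.RP.ρ (X.γ i j z)).det)⁻¹ ^ q)
    (b := fun i j z => (b i j z ^ (Fintype.card κ' * n') *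
      (b' i j z ^ Fintype.card κ' * ((P.RP.ρ (X.γ i j z)).det)⁻¹)) ^ (q * M))
    (fun i r => ?_) (fun i j z hz ξ => ?_) (by ring) (fun i j z _ => ?_) hz hne
  · have h1 : ∀ r', (fun z => x i z r') ∈ O.O (X.U i) := by
      intro r'
      rw [hx]
      exact sum_mem O.toCSp Finset.univ (fun s => A r'.1 s) (fun s => (T r'.2).hol i s)
        (X.U_open i)
    have h2 := (HF.smul (hol_vp (X.U_open i) h1 (Fintype.card κ') r.1.1)
      (HF_vp (n' * q * Fintype.card κ') r.1.2)).mul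
        (HF.const (α := κ) (O.const (X.U i) (vp q (fun _ => 1) r.2)))
    refine (h2.cast (Nat.add_zero _)).congr fun z _ ξ => ?_
    rw [hu]
    rfl
  · have h4 : Φ.RN.ρ (X.γ i j z) *ᵥ ξ = Φ.RN.act (X.γ i j z) ξ := rfl
    rw [hact, hu, h4]
    beta_reduce
    rw [htr i j z hz, vp_smul]
    have hd2 : ((P.RP.ρ (X.γ i j z)).det)⁻¹ * (P.RP.ρ (X.γ i j z)).det = 1 :=
      inv_mul_cancel₀ (det_ne_zero _ _)
    have hp2 : ((P.RP.ρ (X.γ i j z)).det)⁻¹ ^ q * (P.RP.ρ (X.γ i j z)).det ^ q = 1 := by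
      rw [← mul_pow, hd2, one_pow]
    funext r
    simp only [tv, Pi.smul_apply, smul_eq_mul]
    generalize vp (Fintype.card κ') _ r.1.1 = y1
    generalize vp (n' * q * Fintype.card κ') _ r.1.2 = y2
    generalize vp q _ r.2 = y3
    generalize ((P.RP.ρ (X.γ i j z)).det)⁻¹ ^ q = e3 at hp2 ⊢
    generalize (P.RP.ρ (X.γ i j z)).det ^ q = e4 at hp2 ⊢
    generalize ((b i j z ^ n' * b' i j z) ^ q) ^ Fintype.card κ' = e5
    calc e5 * y1 * y2 * y3 = e5 * y1 * y2 * y3 * 1 := by ring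
      _ = e5 * y1 * y2 * y3 * (e3 * e4) := by rw [hp2]
      _ = _ := by ring
  · beta_reduce
    generalize ((P.RP.ρ (X.γ i j z)).det)⁻¹ = e2
    generalize b i j z = a1
    generalize b' i j z = b1
    generalize Fintype.card κ' = K2
    rw [pow_mul _ q M]
    congr 1
    ring

end tot

end T2

end Pool.Agent.KX
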